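import Pool.Agent.helper56.Hemi.Dich

set_option autoImplicit false

namespace Pool.Agent.helper56.Hemi

open Finset

theorem ais {X : Type} (σ : Equiv.Perm X) (x : X) : σ (σ⁻¹ x) = x := σ.apply_symm_apply x

theorem ias {X : Type} (σ : Equiv.Perm X) (x : X) : σ⁻¹ (σ x) = x := σ.symm_apply_apply x

/-- `τ` preserves the hemisystem and `(σ, τ)` preserves incidence with lines of `H`. -/
structure AU {P L : Type} (J : P → L → ℚ) (hh : L → ℚ) (σ : Equiv.Perm P)
    (τ : Equiv.Perm L) : Prop where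
  hτ : ∀ x, hh (τ x) = hh x
  hJ : ∀ p x, hh x = 1 → J (σ p) (τ x) = J p x

/-- the number of common blocks of `w` and the image of `m`. -/
def CC {P L : Type} [Fintype P] (J : P → L → ℚ) (σ : Equiv.Perm P) (w m : L) : ℚ :=
  ∑ p, J (σ p) w * J p m

/-- the constant. -/
def c1 (q : ℚ) : ℚ := (q ^ 2 + 1) / (q ^ 3 + 1)

/-- trivial at `m`. -/
def Triv {P L : Type} (J : P → L → ℚ) (hh : L → ℚ) (σ : Equiv.Perm P) (m : L) : Prop :=
  ∃ m', hh m' = 0 ∧ ∀ p, J (σ p) m' = J p m

/-- exotic at `m`. -/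
def Exo {P L : Type} [Fintype P] [Fintype L] (J : P → L → ℚ) (hh : L → ℚ)
    (σ : Equiv.Perm P) (m : L) : Prop :=
  (∀ w, hh w = 0 → CC J σ w m = 0 ∨ CC J σ w m = 1) ∧
    ∀ p, ∑ x, J p x * ((1 - hh x) * CC J σ x m) = ∑ x, J p x * (hh x * CC J σ x m)

/-- the transported function -/
def U {P L : Type} [Fintype P] (q : ℚ) (J : P → L → ℚ) (hh : L → ℚ) (σ : Equiv.Perm P)
    (m w : L) : ℚ := -chi hh w * (CC J σ w m - c1 q)

namespace AU

variable {P L : Type} [Fintype P] [Fintype L] {q : ℚ} {J : P → L → ℚ} {A : L → L → ℚ}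
  {hh : L → ℚ} {σ σ' : Equiv.Perm P} {τ τ' : Equiv.Perm L}

theorem inv (a : AU J hh σ τ) : AU J hh σ⁻¹ τ⁻¹ := by
  have ht : ∀ x, hh (τ⁻¹ x) = hh x := by
    intro x
    have := a.hτ (τ⁻¹ x)
    rw [ais] at this
    exact this.symm
  refine ⟨ht, ?_⟩
  intro p x hx
  have := a.hJ (σ⁻¹ p) (τ⁻¹ x) (by rw [ht]; exact hx)
  rw [ais, ais] at this
  exact this.symm

theorem mul (a : AU J hh σ τ) (b : AU J hh σ' τ') : AU J hh (σ * σ') (τ * τ') := by
  refine ⟨fun x => ?_, fun p x hx => ?_⟩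
  · rw [Equiv.Perm.mul_apply, a.hτ, b.hτ]
  · rw [Equiv.Perm.mul_apply, Equiv.Perm.mul_apply, a.hJ _ _ (by rw [b.hτ]; exact hx), b.hJ _ _ hx]

theorem dl_map (τ : Equiv.Perm L) (x y : L) : dl (τ x) (τ y) = dl x y := by
  by_cases e : x = y
  · rw [e, dl_self, dl_self]
  · rw [dl_ne e, dl_ne (fun h => e (τ.injective h))]

theorem mapA (h : GQD q J A) (a : AU J hh σ τ) {x y : L} (hx : hh x = 1) (hy : hh y = 1) :
    A (τ x) (τ y) = A x y := by
  have e1 := h.JJ (τ x) (τ y)
  have e2 := h.JJ x y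
  rw [dl_map] at e1
  have e3 : ∑ p, J p (τ x) * J p (τ y) = ∑ p, J p x * J p y := by
    rw [← Equiv.sum_comp σ (fun p => J p (τ x) * J p (τ y))]
    exact Finset.sum_congr rfl fun p _ => by rw [a.hJ p x hx, a.hJ p y hy]
  rw [e3] at e1
  linarith

theorem CC_map (a : AU J hh σ τ) (σ' : Equiv.Perm P) {x : L} (hx : hh x = 1) (m : L) :
    CC J (σ * σ') (τ x) m = CC J σ' x m := by
  unfold CC
  exact Finset.sum_congr rfl fun p _ => by rw [Equiv.Perm.mul_apply, a.hJ _ _ hx]

theorem CC_one (h : GQD q J A) (x m : L) :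
    CC J 1 x m = (q ^ 2 + 1) * dl x m + A x m := by
  unfold CC
  rw [← h.JJ]
  rfl

theorem ne_HM {x m : L} (hx : hh x = 1) (hm : hh m = 0) : x ≠ m := by
  rintro rfl; rw [hx] at hm; norm_num at hm

theorem CC_H (h : GQD q J A) (a : AU J hh σ τ) {x : L} (hx : hh x = 1) {m : L} (hm : hh m = 0) :
    CC J σ (τ x) m = A x m := by
  have := a.CC_map 1 hx m
  rw [mul_one] at this
  rw [this, CC_one h, dl_ne (ne_HM hx hm)]; ring

theorem CC_H' (h : GQD q J A) (a : AU J hh σ τ) {x : L} (hx : hh x = 1) {m : L} (hm : hh m = 0) :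
    CC J σ x m = A (τ⁻¹ x) m := by
  have := a.CC_H h (x := τ⁻¹ x) (by rw [a.inv.hτ]; exact hx) hm
  rw [ais] at this
  exact this

/-- an integer valued lemma: a subsum of 0/1 terms with total 1 is 0 or 1. -/
theorem sub01 {g f : L → ℚ} (hg : ∀ x, g x = 0 ∨ g x = 1) (hf : ∀ x, f x = 0 ∨ f x = 1)
    (hs : ∑ x, g x = 1) : ∑ x, f x * g x = 0 ∨ ∑ x, f x * g x = 1 := by
  classical
  obtain ⟨x0, hx0⟩ : ∃ x0, g x0 = 1 := by
    by_contra hn
    push Not at hn
    have : ∑ x, g x = 0 := Finset.sum_eq_zero fun x _ => (hg x).resolve_right (hn x)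
    rw [this] at hs; norm_num at hs
  have hne : ∀ y, y ≠ x0 → g y = 0 := by
    intro y hy
    rcases hg y with e | e
    · exact e
    · exfalso
      have e2 : ∑ y ∈ ({y, x0} : Finset L), g y ≤ ∑ y, g y :=
        Finset.sum_le_sum_of_subset_of_nonneg (Finset.subset_univ _)
          (fun y _ _ => by rcases hg y with e | e <;> rw [e]; norm_num)
      rw [Finset.sum_pair hy, e, hx0, hs] at e2
      norm_num at e2
  have : ∑ x, f x * g x = f x0 := by
    rw [Finset.sum_eq_single x0]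
    · rw [hx0, mul_one]
    · intro b _ hb; rw [hne b hb, mul_zero]
    · intro hx; exact absurd (Finset.mem_univ x0) hx
  rw [this]; exact hf x0

theorem toXD (h : GQD q J A) (H : HM q J hh) (a : AU J hh σ τ) {m : L} (hm : hh m = 0) :
    XD q J A hh (fun p => J (σ⁻¹ p) m) (fun w => CC J σ w m) where
  ell01 p := h.J01 _ _
  sum_ell := by
    rw [Equiv.sum_comp σ⁻¹ (fun p => J p m)]; exact h.sumJP m
  Cdef x := by
    show CC J σ x m = _
    unfold CC
    rw [← Equiv.sum_comp σ (fun p => J (σ⁻¹ p) m * J p x)]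
    exact Finset.sum_congr rfl fun p _ => by rw [ias]; ring
  CH01 x hx := by
    show CC J σ x m = 0 ∨ CC J σ x m = 1
    rw [a.CC_H' h hx hm]; exact h.A01 _ _
  cp1 p hp := by
    show ∑ x, J p x * (hh x * CC J σ x m) = _
    rw [← H.sumH p]
    refine Finset.sum_congr rfl fun x _ => ?_
    rcases H.h01 x with e | e
    · rw [e]; ring
    rcases h.J01 p x with e' | e'
    · rw [e']; ring
    have hx' : hh (τ⁻¹ x) = 1 := by rw [a.inv.hτ]; exact e
    have hJ' : J (σ⁻¹ p) (τ⁻¹ x) = 1 := by rw [a.inv.hJ p x e]; exact e'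
    rw [a.CC_H' h e hm, h.adj_of_block (ne_HM hx' hm) hJ' hp, e, e']; ring
  cp0 p hp := by
    show ∑ x, J p x * (hh x * CC J σ x m) = 0 ∨ ∑ x, J p x * (hh x * CC J σ x m) = 1
    have e1 : ∑ x, J p x * (hh x * CC J σ x m) = ∑ x, hh x * (J (σ⁻¹ p) x * A x m) := by
      rw [← Equiv.sum_comp τ (fun x => J p x * (hh x * CC J σ x m))]
      refine Finset.sum_congr rfl fun x _ => ?_
      rw [a.hτ]
      rcases H.h01 x with e | e
      · rw [e]; ring
      · rw [a.CC_H h e hm]
        have := a.hJ (σ⁻¹ p) x e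
        rw [ais] at this
        rw [this]; ring
    rw [e1]
    refine sub01 (fun x => ?_) H.h01 ?_
    · rcases h.J01 (σ⁻¹ p) x with e | e
      · left; rw [e]; ring
      · rw [e, one_mul]; exact h.A01 _ _
    · rw [h.JA]
      have hp' : J (σ⁻¹ p) m = 0 := hp
      rw [hp']; ring
  CA x hx := by
    show ∑ y, A x y * (hh y * CC J σ y m) = _ - _ * CC J σ x m
    have hx' : hh (τ⁻¹ x) = 1 := by rw [a.inv.hτ]; exact hx
    have e1 : ∑ y, A x y * (hh y * CC J σ y m) = ∑ y, hh y * (A (τ⁻¹ x) y * A m y) := by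
      rw [← Equiv.sum_comp τ (fun y => A x y * (hh y * CC J σ y m))]
      refine Finset.sum_congr rfl fun y _ => ?_
      rw [a.hτ]
      rcases H.h01 y with e | e
      · rw [e]; ring
      · rw [a.CC_H h e hm, h.Asymm y m]
        have := a.mapA h hx' e
        rw [ais] at this
        rw [this]; ring
    have e2 := h.H2 H (τ⁻¹ x) m
    rw [dl_ne (ne_HM hx' hm)] at e2
    have c1 : chi hh (τ⁻¹ x) = 1 := by unfold chi; rw [hx']; norm_num
    have c2 : chi hh m = -1 := by unfold chi; rw [hm]; norm_num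
    rw [c1, c2] at e2
    rw [e1, a.CC_H' h hx hm]
    linear_combination e2 / 2

/-- dichotomy for automorphisms -/
theorem dich (h : GQD q J A) (H : HM q J hh) (a : AU J hh σ τ) {m : L} (hm : hh m = 0) :
    Triv J hh σ m ∨ Exo J hh σ m := by
  rcases (a.toXD h H hm).dichotomy h H with ⟨m', hm', hp⟩ | ⟨e1, e2⟩
  · left
    refine ⟨m', hm', fun p => ?_⟩
    have := hp (σ p)
    rw [ias] at this
    exact this.symm
  · right; exact ⟨e1, e2⟩

theorem U_zb (h : GQD q J A) (H : HM q J hh) {m : L} (he : Exo J hh σ m) :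
    ZB J (U q J hh σ m) := by
  intro p
  have e := he.2 p
  have c := h.chi_zb H p
  have s : ∀ w, J p w * U q J hh σ m w
      = J p w * ((1 - hh w) * CC J σ w m) - J p w * (hh w * CC J σ w m)
        + c1 q * (J p w * chi hh w) := by
    intro w; unfold U chi; ring
  rw [Finset.sum_congr rfl fun w _ => s w]
  simp only [Finset.sum_add_distrib, Finset.sum_sub_distrib, ← Finset.mul_sum]
  rw [e, c]; ring

theorem sumCC (h : GQD q J A) (σ : Equiv.Perm P) (m : L) :
    ∑ w, CC J σ w m = (q ^ 2 + 1) * (q + 1) := by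
  unfold CC
  rw [Finset.sum_comm, Finset.sum_congr rfl fun p _ => (Finset.sum_mul _ _ _).symm,
    Finset.sum_congr rfl fun p _ => by rw [h.sumJL (σ p)], ← Finset.mul_sum, h.sumJP]
  ring

theorem U_chi (h : GQD q J A) (H : HM q J hh) (σ : Equiv.Perm P) (m : L) :
    ∑ w, chi hh w * U q J hh σ m w = 0 := by
  have s : ∀ w, chi hh w * U q J hh σ m w = c1 q * 1 - CC J σ w m := by
    intro w; unfold U
    linear_combination (-(CC J σ w m - c1 q)) * GQD.chi_sq H w
  rw [Finset.sum_congr rfl fun w _ => s w]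
  simp only [Finset.sum_sub_distrib, ← Finset.mul_sum]
  rw [h.card m, sumCC h]
  unfold c1
  have := h.q3
  field_simp
  ring

theorem chiH {x : L} (hx : hh x = 1) : chi hh x = 1 := by unfold chi; rw [hx]; norm_num

theorem chiM {x : L} (hx : hh x = 0) : chi hh x = -1 := by unfold chi; rw [hx]; norm_num

theorem c1_eq (h : GQD q J A) : 1 / (q + 1) + q / (q ^ 3 + 1) = c1 q := by
  unfold c1
  have h1 := h.q1
  have h3 := h.q3
  field_simp
  ring

/-- `G` between the two sides. -/
theorem G_HM (h : GQD q J A) {x m : L} (hx : hh x = 1) (hm : hh m = 0) :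
    G q A hh x m = c1 q - A x m := by
  unfold G
  rw [dl_ne (ne_HM hx hm), chiH hx, chiM hm, ← c1_eq h]; ring

theorem G_MH (h : GQD q J A) {x m : L} (hx : hh x = 1) (hm : hh m = 0) :
    G q A hh m x = c1 q - A m x := by
  rw [h.G_comm, G_HM h hx hm, h.Asymm]

theorem U_H {x : L} (hx : hh x = 1) (σ : Equiv.Perm P) (m : L) :
    U q J hh σ m x = c1 q - CC J σ x m := by
  unfold U; rw [chiH hx]; ring

theorem U_M {x : L} (hx : hh x = 0) (σ : Equiv.Perm P) (m : L) :
    U q J hh σ m x = CC J σ x m - c1 q := by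
  unfold U; rw [chiM hx]; ring

theorem sumCC_H (h : GQD q J A) (H : HM q J hh) (σ : Equiv.Perm P) (m : L) :
    ∑ w, hh w * CC J σ w m = (q ^ 2 + 1) * ((q + 1) / 2) := by
  have s : ∀ w, hh w * CC J σ w m = ∑ p, J p m * (J (σ p) w * hh w) := by
    intro w; unfold CC; rw [Finset.mul_sum]; exact Finset.sum_congr rfl fun p _ => by ring
  rw [Finset.sum_congr rfl fun w _ => s w, Finset.sum_comm,
    Finset.sum_congr rfl fun p _ => (Finset.mul_sum _ _ _).symm,
    Finset.sum_congr rfl fun p _ => by rw [H.sumH (σ p)], ← Finset.sum_mul, h.sumJP]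

/-- the number of neighbours in `X` of a vertex outside `H`. -/
theorem y_exo (h : GQD q J A) (H : HM q J hh) {m' : L} (he : Exo J hh σ m') {m : L}
    (hm : hh m = 0) :
    ∑ x, hh x * (A m x * CC J σ x m') = (q ^ 2 + 1) / 2 + (q ^ 2 + q) / 2 * CC J σ m m' := by
  have e := h.rep_H H (U_zb h H he) (U_chi h H σ m') m
  have s : ∀ x, hh x * (G q A hh m x * U q J hh σ m' x)
      = c1 q ^ 2 * hh x - c1 q * (A m x * hh x) - c1 q * (hh x * CC J σ x m')
        + hh x * (A m x * CC J σ x m') := by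
    intro x
    rcases H.h01 x with ex | ex
    · rw [ex]; ring
    · rw [G_MH h ex hm, U_H ex, ex]; ring
  rw [Finset.sum_congr rfl fun x _ => s x] at e
  simp only [Finset.sum_add_distrib, Finset.sum_sub_distrib, ← Finset.mul_sum] at e
  rw [h.cardH H m, h.degH H, sumCC_H h H, U_M hm, hm] at e
  have e2 : c1 q * (q ^ 3 + 1) = q ^ 2 + 1 := by
    unfold c1; have := h.q3; field_simp
  have e3 : c1 q * (q + 1) * (q ^ 2 - q + 1) = q ^ 2 + 1 := by
    rw [← e2]; ring
  linear_combination e - (q + 1) / 2 * c1 q * e2 + (1 / 2) * e3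

/-- all or nothing -/
theorem aon (h : GQD q J A) (H : HM q J hh) (a : AU J hh σ τ) {m m' : L} (hm : hh m = 0)
    (hm' : hh m' = 0) (ht : Triv J hh σ m) (he : Exo J hh σ m') : False := by
  obtain ⟨n, hn, hp⟩ := ht
  have hq := h.qge
  have e1 : CC J σ n m' = (q ^ 2 + 1) * dl m m' + A m m' := by
    unfold CC
    rw [← h.JJ]
    exact Finset.sum_congr rfl fun p _ => by rw [hp]
  have e2 := y_exo h H he hn
  have e3 : ∑ x, hh x * (A n x * CC J σ x m') = ∑ x, hh x * (A m x * A m' x) := by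
    rw [← Equiv.sum_comp τ (fun x => hh x * (A n x * CC J σ x m'))]
    refine Finset.sum_congr rfl fun x _ => ?_
    rw [a.hτ]
    rcases H.h01 x with ex | ex
    · rw [ex]; ring
    have hA : A n (τ x) = A m x := by
      have f1 := h.JJ n (τ x)
      have f2 := h.JJ m x
      have hx' : hh (τ x) = 1 := by rw [a.hτ]; exact ex
      rw [dl_ne (ne_HM hx' hn).symm] at f1
      rw [dl_ne (ne_HM ex hm).symm] at f2
      have f3 : ∑ p, J p n * J p (τ x) = ∑ p, J p m * J p x := by
        rw [← Equiv.sum_comp σ (fun p => J p n * J p (τ x))]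
        exact Finset.sum_congr rfl fun p _ => by rw [a.hJ p x ex, hp]
      rw [f3] at f1
      linarith
    rw [a.CC_H h ex hm', hA, h.Asymm x m']
  have e4 := h.H2 H m m'
  rw [← e3, e2, e1, chiM hm, chiM hm'] at e4
  rcases he.1 n hn with f | f
  · rw [e1] at f
    have hd : dl m m' = 0 ∨ dl m m' = 1 := by
      by_cases e : m = m'
      · right; rw [e, dl_self]
      · left; exact dl_ne e
    rcases hd with hd | hd
    · rcases h.A01 m m' with hA | hA
      · rw [hd, hA] at e4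
        nlinarith
      · rw [hd, hA] at f; norm_num at f
    · rw [hd] at f
      have := h.Ann m m'
      nlinarith
  · rw [e1] at f
    have hd : dl m m' = 0 ∨ dl m m' = 1 := by
      by_cases e : m = m'
      · right; rw [e, dl_self]
      · left; exact dl_ne e
    rcases hd with hd | hd
    · rcases h.A01 m m' with hA | hA
      · rw [hd, hA] at f; norm_num at f
      · rw [hd, hA] at e4
        nlinarith
    · rw [hd] at f
      have := h.Ann m m'
      nlinarith

end AU

end Pool.Agent.helper56.Hemi
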