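import Mathlib

set_option autoImplicit false

namespace Pool.Agent.helper56.Hemi

open Finset

/-- Kronecker delta. -/
noncomputable def dl {L : Type} (x y : L) : ℚ := by
  classical exact if x = y then 1 else 0

section dl
variable {L : Type}

theorem dl_self (x : L) : dl x x = 1 := by simp [dl]

theorem dl_ne {x y : L} (h : x ≠ y) : dl x y = 0 := by simp [dl, h]

theorem dl_comm (x y : L) : dl x y = dl y x := by
  by_cases h : x = y
  · rw [h]
  · rw [dl_ne h, dl_ne (Ne.symm h)]

theorem dl_mul (x y : L) (f : L → ℚ) : dl x y * f y = dl x y * f x := by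
  by_cases h : x = y
  · rw [h]
  · rw [dl_ne h]; ring

theorem dl_sq (x y : L) : dl x y * dl x y = dl x y := by
  by_cases h : x = y
  · rw [h, dl_self]; ring
  · rw [dl_ne h]; ring

variable [Fintype L]

theorem sum_dl_mul (x : L) (f : L → ℚ) : ∑ y, dl x y * f y = f x := by
  classical
  rw [Finset.sum_eq_single x]
  · rw [dl_self]; ring
  · intro b _ hb; rw [dl_ne (Ne.symm hb)]; ring
  · intro hx; exact absurd (Finset.mem_univ x) hx

theorem sum_mul_dl (x : L) (f : L → ℚ) : ∑ y, f y * dl x y = f x := by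
  rw [← sum_dl_mul x f]; exact Finset.sum_congr rfl fun y _ => mul_comm _ _

theorem sum_dl (x : L) : ∑ y, dl x y = 1 := by
  have := sum_dl_mul x (fun _ => 1)
  simpa using this
end dl

/-- A generalized quadrangle, seen from its lines: `L` are the vertices, `P` the blocks,
`J` the incidence function, `A` the concurrency function. -/
structure GQD {P L : Type} [Fintype P] [Fintype L] (q : ℚ) (J : P → L → ℚ)
    (A : L → L → ℚ) : Prop where
  qge : 3 ≤ q
  J01 : ∀ p x, J p x = 0 ∨ J p x = 1
  A01 : ∀ x y, A x y = 0 ∨ A x y = 1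
  Axx : ∀ x, A x x = 0
  Asymm : ∀ x y, A x y = A y x
  sumJP : ∀ x, ∑ p, J p x = q ^ 2 + 1
  sumJL : ∀ p, ∑ x, J p x = q + 1
  JJ : ∀ x y, ∑ p, J p x * J p y = (q ^ 2 + 1) * dl x y + A x y
  JA : ∀ p x, ∑ y, J p y * A y x = 1 + (q - 1) * J p x

namespace GQD

variable {P L : Type} [Fintype P] [Fintype L] {q : ℚ} {J : P → L → ℚ} {A : L → L → ℚ}

theorem Jnn (h : GQD q J A) (p : P) (x : L) : 0 ≤ J p x := by
  rcases h.J01 p x with e | e <;> rw [e] <;> norm_num

theorem Ann (h : GQD q J A) (x y : L) : 0 ≤ A x y := by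
  rcases h.A01 x y with e | e <;> rw [e] <;> norm_num

theorem Asq (h : GQD q J A) (x y : L) : A x y * A x y = A x y := by
  rcases h.A01 x y with e | e <;> rw [e] <;> norm_num

theorem Jsq (h : GQD q J A) (p : P) (x : L) : J p x * J p x = J p x := by
  rcases h.J01 p x with e | e <;> rw [e] <;> norm_num

theorem dl_A (h : GQD q J A) (x y : L) : dl x y * A x y = 0 := by
  by_cases e : x = y
  · rw [e, h.Axx]; ring
  · rw [dl_ne e]; ring

theorem sum_A_mul (h : GQD q J A) (x : L) (u : L → ℚ) :
    ∑ y, A x y * u y = ∑ p, J p x * (∑ y, J p y * u y) - (q ^ 2 + 1) * u x := by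
  have e1 : ∀ y, A x y * u y = ∑ p, J p x * (J p y * u y) - (q ^ 2 + 1) * (dl x y * u y) := by
    intro y
    have := h.JJ x y
    have e2 : A x y = ∑ p, J p x * J p y - (q ^ 2 + 1) * dl x y := by rw [this]; ring
    rw [e2, sub_mul, Finset.sum_mul]
    congr 1
    · exact Finset.sum_congr rfl fun p _ => by ring
    · ring
  rw [Finset.sum_congr rfl fun y _ => e1 y, Finset.sum_sub_distrib, Finset.sum_comm,
    ← Finset.mul_sum, sum_dl_mul]
  congr 1
  exact Finset.sum_congr rfl fun p _ => by rw [Finset.mul_sum]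

theorem deg (h : GQD q J A) (x : L) : ∑ y, A x y = q * (q ^ 2 + 1) := by
  have := h.sum_A_mul x (fun _ => 1)
  simp only [mul_one] at this
  rw [this, Finset.sum_congr rfl fun p _ => by rw [h.sumJL p], ← Finset.sum_mul, h.sumJP]
  ring

theorem A2 (h : GQD q J A) (x y : L) :
    ∑ w, A x w * A w y = (q ^ 2 + 1) + (q - 1) * (q ^ 2 + 1) * dl x y
      - (q ^ 2 - q + 2) * A x y := by
  rw [h.sum_A_mul x (fun w => A w y)]
  have : ∀ p, J p x * (∑ w, J p w * A w y) = J p x + (q - 1) * (J p x * J p y) := by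
    intro p; rw [h.JA]; ring
  rw [Finset.sum_congr rfl fun p _ => this p, Finset.sum_add_distrib, ← Finset.mul_sum, h.sumJP,
    h.JJ]
  ring

theorem A2' (h : GQD q J A) (x y : L) :
    ∑ w, A w x * A w y = (q ^ 2 + 1) + (q - 1) * (q ^ 2 + 1) * dl x y
      - (q ^ 2 - q + 2) * A x y := by
  rw [← h.A2]
  exact Finset.sum_congr rfl fun w _ => by rw [h.Asymm w x]

theorem card (h : GQD q J A) (x : L) : ∑ _y : L, (1 : ℚ) = (q + 1) * (q ^ 3 + 1) := by
  have e1 : ∑ y, ∑ w, A x w * A w y = (q * (q ^ 2 + 1)) ^ 2 := by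
    rw [Finset.sum_comm]
    have : ∀ w, ∑ y, A x w * A w y = A x w * (q * (q ^ 2 + 1)) := by
      intro w; rw [← Finset.mul_sum, h.deg]
    rw [Finset.sum_congr rfl fun w _ => this w, ← Finset.sum_mul, h.deg]; ring
  have e2 : ∑ y, ∑ w, A x w * A w y = (q ^ 2 + 1) * (∑ _y : L, (1 : ℚ))
      + (q - 1) * (q ^ 2 + 1) - (q ^ 2 - q + 2) * (q * (q ^ 2 + 1)) := by
    rw [Finset.sum_congr rfl fun y _ => h.A2 x y, Finset.sum_sub_distrib, Finset.sum_add_distrib,
      ← Finset.mul_sum, ← Finset.mul_sum, sum_dl, h.deg, Finset.mul_sum]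
    simp
  have e3 := e1.symm.trans e2
  have hq : q ^ 2 + 1 ≠ 0 := by positivity
  apply mul_left_cancel₀ hq
  linear_combination -e3

/-- A vertex adjacent to two vertices of a block is in the block. -/
theorem L4 (h : GQD q J A) {p : P} {x z w : L} (hxz : x ≠ z) (hx : J p x = 1) (hz : J p z = 1)
    (hwx : A w x = 1) (hwz : A w z = 1) : J p w = 1 := by
  classical
  rcases h.J01 p w with e | e
  · exfalso
    have e1 := h.JA p w
    rw [e] at e1
    have e2 : ∑ y ∈ ({x, z} : Finset L), J p y * A y w ≤ ∑ y, J p y * A y w :=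
      Finset.sum_le_sum_of_subset_of_nonneg (Finset.subset_univ _)
        (fun y _ _ => mul_nonneg (h.Jnn p y) (h.Ann y w))
    rw [Finset.sum_pair hxz, hx, hz, h.Asymm x w, h.Asymm z w, hwx, hwz, e1] at e2
    norm_num at e2
  · exact e

theorem block_exists (h : GQD q J A) {x y : L} (hxy : A x y = 1) :
    ∃ p, J p x = 1 ∧ J p y = 1 := by
  by_contra hn
  have e0 : ∑ p, J p x * J p y = 0 := by
    apply Finset.sum_eq_zero
    intro p _
    rcases h.J01 p x with e | e
    · rw [e]; ring
    · rcases h.J01 p y with e' | e'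
      · rw [e']; ring
      · exact absurd ⟨p, e, e'⟩ hn
  have hne : x ≠ y := by
    rintro rfl
    rw [h.Axx] at hxy; norm_num at hxy
  rw [h.JJ, dl_ne hne, hxy] at e0
  norm_num at e0

theorem adj_of_block (h : GQD q J A) {p : P} {x y : L} (hne : x ≠ y) (hx : J p x = 1)
    (hy : J p y = 1) : A x y = 1 := by
  classical
  rcases h.A01 x y with e | e
  · exfalso
    have e1 := h.JJ x y
    rw [dl_ne hne, e] at e1
    have e2 : J p x * J p y ≤ ∑ p, J p x * J p y :=
      Finset.single_le_sum (f := fun p => J p x * J p y)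
        (fun p _ => mul_nonneg (h.Jnn p x) (h.Jnn p y)) (Finset.mem_univ p)
    rw [e1, hx, hy] at e2
    norm_num at e2
  · exact e

theorem ne_of_adj (h : GQD q J A) {x y : L} (hxy : A x y = 1) : x ≠ y := by
  rintro rfl
  rw [h.Axx] at hxy; norm_num at hxy

/-- two common neighbours of two nonadjacent vertices are not adjacent. -/
theorem no_tri (h : GQD q J A) {x y w z : L} (hne : x ≠ y) (hxy : A x y = 0) :
    A w x * A w y * (A z x * A z y) * A w z = 0 := by
  rcases h.A01 w x with e1 | e1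
  · rw [e1]; ring
  rcases h.A01 w y with e2 | e2
  · rw [e2]; ring
  rcases h.A01 z x with e3 | e3
  · rw [e3]; ring
  rcases h.A01 z y with e4 | e4
  · rw [e4]; ring
  rcases h.A01 w z with e5 | e5
  · rw [e5]; ring
  exfalso
  obtain ⟨p, hw, hz⟩ := h.block_exists e5
  have hx : J p x = 1 := h.L4 (h.ne_of_adj e5) hw hz (by rw [h.Asymm]; exact e1)
    (by rw [h.Asymm]; exact e3)
  have hy : J p y = 1 := h.L4 (h.ne_of_adj e5) hw hz (by rw [h.Asymm]; exact e2)
    (by rw [h.Asymm]; exact e4)
  have := h.adj_of_block hne hx hy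
  rw [this] at hxy; norm_num at hxy

/-- for `x ≠ y` nonadjacent. -/
theorem N3_nonadj (h : GQD q J A) {x y : L} (hne : x ≠ y) (hxy : A x y = 0) (z : L) :
    ∑ w, A w x * A w y * A w z = (q + 1) - q * (A x z + A y z) + (q - 1) * (A x z * A y z)
      + q * (q - 1) * (dl x z + dl y z) := by
  classical
  -- the two functions
  set N : L → ℚ := fun z => ∑ w, A w x * A w y * A w z with hN
  set F : L → ℚ := fun z => (q + 1) - q * (A x z + A y z) + (q - 1) * (A x z * A y z)
      + q * (q - 1) * (dl x z + dl y z) with hF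
  have hc : ∑ w, A w x * A w y = q ^ 2 + 1 := by
    rw [h.A2', dl_ne hne, hxy]; ring
  -- sum of N^2
  have hNN : ∑ z, N z * N z = q * (q + 1) * (q ^ 2 + 1) ^ 2 := by
    have e1 : ∀ z, N z * N z = ∑ w, ∑ v, (A w x * A w y * (A v x * A v y)) * (A w z * A v z) := by
      intro z
      simp only [hN]
      rw [Finset.sum_mul_sum]
      exact Finset.sum_congr rfl fun w _ => Finset.sum_congr rfl fun v _ => by ring
    rw [Finset.sum_congr rfl fun z _ => e1 z, Finset.sum_comm]
    have e2 : ∀ w, ∑ z, ∑ v, (A w x * A w y * (A v x * A v y)) * (A w z * A v z)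
        = (q ^ 2 + 1) * ((A w x * A w y) * (q ^ 2 + 1))
          + (q - 1) * (q ^ 2 + 1) * (A w x * A w y) := by
      intro w
      rw [Finset.sum_comm]
      have e3 : ∀ v, ∑ z, (A w x * A w y * (A v x * A v y)) * (A w z * A v z)
          = (q ^ 2 + 1) * ((A w x * A w y) * (A v x * A v y))
            + (q - 1) * (q ^ 2 + 1) * ((A w x * A w y) * (dl w v * (A v x * A v y))) := by
        intro v
        rw [← Finset.mul_sum]
        have e4 : ∑ z, A w z * A v z = (q ^ 2 + 1) + (q - 1) * (q ^ 2 + 1) * dl w v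
            - (q ^ 2 - q + 2) * A w v := by
          rw [← h.A2]
          exact Finset.sum_congr rfl fun z _ => by rw [h.Asymm v z]
        rw [e4]
        have e5 := h.no_tri (w := w) (z := v) hne hxy
        linear_combination (-(q ^ 2 - q + 2)) * e5
      rw [Finset.sum_congr rfl fun v _ => e3 v, Finset.sum_add_distrib, ← Finset.mul_sum,
        ← Finset.mul_sum, ← Finset.mul_sum, hc, ← Finset.mul_sum,
        sum_dl_mul w (fun v => A v x * A v y)]
      have e6 : A w x * A w y * (A w x * A w y) = A w x * A w y := by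
        rcases h.A01 w x with e | e <;> rcases h.A01 w y with e' | e' <;> rw [e, e'] <;> norm_num
      rw [e6]
    rw [Finset.sum_congr rfl fun w _ => e2 w, Finset.sum_add_distrib, ← Finset.mul_sum,
      ← Finset.sum_mul, ← Finset.mul_sum, hc]
    ring
  have hNx : ∑ z, N z * A x z = (q ^ 2 + 1) * (q - 1) := by
    have e1 : ∀ z, N z * A x z = ∑ w, A w x * A w y * (A x z * A z w) := by
      intro z
      simp only [hN]
      rw [Finset.sum_mul]
      exact Finset.sum_congr rfl fun w _ => by rw [h.Asymm z w]; ring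
    rw [Finset.sum_congr rfl fun z _ => e1 z, Finset.sum_comm]
    have e2 : ∀ w, ∑ z, A w x * A w y * (A x z * A z w) = (q - 1) * (A w x * A w y) := by
      intro w
      rw [← Finset.mul_sum, h.A2]
      rcases h.A01 w x with e | e
      · rw [e]; ring
      · rw [dl_ne (Ne.symm (h.ne_of_adj e)), h.Asymm x w, e]; ring
    rw [Finset.sum_congr rfl fun w _ => e2 w, ← Finset.mul_sum, hc]; ring
  have hNy : ∑ z, N z * A y z = (q ^ 2 + 1) * (q - 1) := by
    have e1 : ∀ z, N z * A y z = ∑ w, A w x * A w y * (A y z * A z w) := by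
      intro z
      simp only [hN]
      rw [Finset.sum_mul]
      exact Finset.sum_congr rfl fun w _ => by rw [h.Asymm z w]; ring
    rw [Finset.sum_congr rfl fun z _ => e1 z, Finset.sum_comm]
    have e2 : ∀ w, ∑ z, A w x * A w y * (A y z * A z w) = (q - 1) * (A w x * A w y) := by
      intro w
      rw [← Finset.mul_sum, h.A2]
      rcases h.A01 w y with e | e
      · rw [e]; ring
      · rw [dl_ne (Ne.symm (h.ne_of_adj e)), h.Asymm y w, e]; ring
    rw [Finset.sum_congr rfl fun w _ => e2 w, ← Finset.mul_sum, hc]; ring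
  have hN1 : ∑ z, N z = (q ^ 2 + 1) * (q * (q ^ 2 + 1)) := by
    simp only [hN]
    rw [Finset.sum_comm]
    have e2 : ∀ w, ∑ z, A w x * A w y * A w z = A w x * A w y * (q * (q ^ 2 + 1)) := by
      intro w; rw [← Finset.mul_sum, h.deg]
    rw [Finset.sum_congr rfl fun w _ => e2 w, ← Finset.sum_mul, hc]
  have hNxy : ∑ z, N z * (A x z * A y z) = 0 := by
    apply Finset.sum_eq_zero
    intro z _
    simp only [hN]
    rw [Finset.sum_mul]
    apply Finset.sum_eq_zero
    intro w _
    have := h.no_tri (w := w) (z := z) hne hxy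
    rw [h.Asymm x z, h.Asymm y z]
    linear_combination this
  have hNdx : N x = q ^ 2 + 1 := by
    simp only [hN]
    rw [← hc]
    exact Finset.sum_congr rfl fun w _ => by
      rw [mul_right_comm, h.Asq]
  have hNdy : N y = q ^ 2 + 1 := by
    simp only [hN]
    rw [← hc]
    exact Finset.sum_congr rfl fun w _ => by
      rw [mul_assoc, h.Asq]
  have hNF : ∑ z, N z * F z = q * (q + 1) * (q ^ 2 + 1) ^ 2 := by
    have e1 : ∀ z, N z * F z = (q + 1) * N z - q * (N z * A x z) - q * (N z * A y z)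
        + (q - 1) * (N z * (A x z * A y z)) + q * (q - 1) * (N z * dl x z)
        + q * (q - 1) * (N z * dl y z) := by
      intro z; simp only [hF]; ring
    rw [Finset.sum_congr rfl fun z _ => e1 z]
    simp only [Finset.sum_add_distrib, Finset.sum_sub_distrib, ← Finset.mul_sum]
    rw [hN1, hNx, hNy, hNxy, sum_mul_dl, sum_mul_dl, hNdx, hNdy]
    ring
  have hFF : ∑ z, F z * F z = q * (q + 1) * (q ^ 2 + 1) ^ 2 := by
    have e1 : ∀ z, F z * F z = (q + 1) ^ 2 * 1 + (q ^ 2 - 2 * q * (q + 1)) * A x z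
        + (q ^ 2 - 2 * q * (q + 1)) * A y z
        + (2 * q ^ 2 + (q - 1) ^ 2 + 2 * (q + 1) * (q - 1) - 4 * q * (q - 1)) * (A z x * A z y)
        + (q ^ 2 * (q - 1) ^ 2 + 2 * (q + 1) * q * (q - 1)) * dl x z
        + (q ^ 2 * (q - 1) ^ 2 + 2 * (q + 1) * q * (q - 1)) * dl y z := by
      intro z
      simp only [hF]
      rw [h.Asymm z x, h.Asymm z y]
      by_cases hzx : x = z
      · subst hzx
        rw [h.Axx, dl_self, dl_ne (Ne.symm hne), h.Asymm y x, hxy]; ring
      by_cases hzy : y = z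
      · subst hzy
        rw [h.Axx, dl_self, dl_ne hne, hxy]; ring
      rw [dl_ne hzx, dl_ne hzy]
      rcases h.A01 x z with e | e <;> rcases h.A01 y z with e' | e' <;> rw [e, e'] <;> ring
    rw [Finset.sum_congr rfl fun z _ => e1 z]
    simp only [Finset.sum_add_distrib, ← Finset.mul_sum]
    rw [h.card x, h.deg, h.deg, hc, sum_dl, sum_dl]
    ring
  have hz : ∑ z, (N z - F z) ^ 2 = 0 := by
    have e1 : ∀ z, (N z - F z) ^ 2 = N z * N z - 2 * (N z * F z) + F z * F z := by
      intro z; ring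
    rw [Finset.sum_congr rfl fun z _ => e1 z]
    simp only [Finset.sum_add_distrib, Finset.sum_sub_distrib, ← Finset.mul_sum]
    rw [hNN, hNF, hFF]; ring
  have hz2 := (Finset.sum_eq_zero_iff_of_nonneg (fun z _ => sq_nonneg (N z - F z))).mp hz z
    (Finset.mem_univ z)
  have hz3 : N z - F z = 0 := by
    exact pow_eq_zero_iff (two_ne_zero) |>.mp hz2
  linarith [hz3]

/-- for `x`, `y` adjacent. -/
theorem N3_adj (h : GQD q J A) {x y : L} (hxy : A x y = 1) (z : L) :
    ∑ w, A w x * A w y * A w z = 1 - A x z - A y z + (q - 1) * (A x z * A y z)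
      + (q - 1) * (dl x z + dl y z) := by
  classical
  obtain ⟨p, hx, hy⟩ := h.block_exists hxy
  have hne := h.ne_of_adj hxy
  have e1 : ∀ w, A w x * A w y * A w z = J p w * A w z - dl x w * A w z - dl y w * A w z := by
    intro w
    by_cases hwx : x = w
    · subst hwx
      rw [h.Axx, dl_self, dl_ne (Ne.symm hne), hx]; ring
    by_cases hwy : y = w
    · subst hwy
      rw [h.Axx, dl_self, dl_ne hne, hy]; ring
    rw [dl_ne hwx, dl_ne hwy]
    rcases h.J01 p w with e | e
    · rw [e]
      rcases h.A01 w x with e2 | e2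
      · rw [e2]; ring
      rcases h.A01 w y with e3 | e3
      · rw [e3]; ring
      have := h.L4 hne hx hy e2 e3
      rw [this] at e; norm_num at e
    · rw [h.adj_of_block (Ne.symm hwx) e hx, h.adj_of_block (Ne.symm hwy) e hy, e]; ring
  rw [Finset.sum_congr rfl fun w _ => e1 w, Finset.sum_sub_distrib, Finset.sum_sub_distrib,
    h.JA, sum_dl_mul x (fun w => A w z), sum_dl_mul y (fun w => A w z)]
  have e2 : J p z = A x z * A y z + dl x z + dl y z := by
    by_cases hzx : x = z
    · subst hzx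
      rw [h.Axx, dl_self, dl_ne (Ne.symm hne), hx]; ring
    by_cases hzy : y = z
    · subst hzy
      rw [h.Axx, dl_self, dl_ne hne, hy]; ring
    rw [dl_ne hzx, dl_ne hzy]
    rcases h.J01 p z with e | e
    · rw [e]
      rcases h.A01 x z with e2 | e2
      · rw [e2]; ring
      rcases h.A01 y z with e3 | e3
      · rw [e3]; ring
      have := h.L4 (w := z) hne hx hy (by rw [h.Asymm]; exact e2) (by rw [h.Asymm]; exact e3)
      rw [this] at e; norm_num at e
    · rw [h.adj_of_block hzx hx e, h.adj_of_block hzy hy e, e]; ring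
  rw [e2]; ring

theorem N3 (h : GQD q J A) (x y z : L) :
    ∑ w, A w x * A w y * A w z = (q + 1) - q * (A x y + A x z + A y z)
      + (q - 1) * (A x y * A x z + A x y * A y z + A x z * A y z)
      + dl x y * (q * (q - 1) - (q - 1) ^ 2 * A x z)
      + dl x z * (q * (q - 1) - (q - 1) ^ 2 * A x y)
      + dl y z * (q * (q - 1) - (q - 1) ^ 2 * A x y)
      + (q - 1) ^ 3 * (dl x y * dl x z) := by
  by_cases hxy : x = y
  · subst hxy
    have e1 : ∀ w, A w x * A w x * A w z = A w x * A w z := by intro w; rw [h.Asq]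
    rw [Finset.sum_congr rfl fun w _ => e1 w, h.A2', h.Axx, dl_self, h.Asq]
    ring
  · rcases h.A01 x y with e | e
    · rw [h.N3_nonadj hxy e, e, dl_ne hxy]; ring
    · rw [h.N3_adj e, e, dl_ne hxy]; ring

end GQD

end Pool.Agent.helper56.Hemi
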