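import Pool.Agent.helper56.Hemi.Glue

set_option autoImplicit false

namespace Pool.Agent.helper56.Hemi

/-- `I` is the incidence relation of a generalized quadrangle of order `(s ^ 2, s)`. -/
structure IsGQ {P L : Type} (I : P → L → Prop) (s : ℕ) : Prop where
  /-- every line has `s ^ 2 + 1` points -/
  line_card : ∀ l, {p | I p l}.ncard = s ^ 2 + 1
  /-- every point lies on `s + 1` lines -/
  point_card : ∀ p, {l | I p l}.ncard = s + 1
  /-- two points lie on at most one common line -/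
  unique_line : ∀ p q, p ≠ q → ∀ l m, I p l → I q l → I p m → I q m → l = m
  /-- for every point `p` not on a line `l` there is exactly one point of `l`
  collinear with `p` -/
  one_collinear : ∀ p l, ¬ I p l → ∃! q, I q l ∧ ∃ m, I p m ∧ I q m

/-- `H` is a hemisystem: every point is on exactly `(s + 1) / 2` lines of `H` (`s` odd). -/
def IsHemisystem {P L : Type} (I : P → L → Prop) (s : ℕ) (H : Set L) : Prop :=
  Odd s ∧ ∀ p, {l | l ∈ H ∧ I p l}.ncard = (s + 1) / 2

/-- The graph `Γ(H)`: vertices are the lines in `H`, two distinct lines being adjacent when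
they meet in a point. -/
def gammaGraph {P L : Type} (I : P → L → Prop) (H : Set L) : SimpleGraph H where
  Adj l m := l ≠ m ∧ ∃ p, I p l ∧ I p m
  symm := ⟨fun _ _ h => ⟨h.1.symm, h.2.imp fun _ hp => ⟨hp.2, hp.1⟩⟩⟩
  loopless := ⟨fun _ h => h.1 rfl⟩

/-- The automorphism `φ` of `Γ(H)` is the restriction to `H` of a collineation `(σ, τ)`
(permutations of points and lines preserving incidence) that fixes `H` setwise. -/
def IsInduced {P L : Type} (I : P → L → Prop) (H : Set L)
    (φ : gammaGraph I H ≃g gammaGraph I H) : Prop :=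
  ∃ (σ : Equiv.Perm P) (τ : Equiv.Perm L), (∀ p l, I (σ p) (τ l) ↔ I p l) ∧
    (∀ l, τ l ∈ H ↔ l ∈ H) ∧ ∀ l : H, τ l = φ l

/-- The image of `ρ`: the group of all automorphisms of `Γ(H)` that are restrictions to `H`
of collineations fixing `H` setwise. -/
def inducedGroup {P L : Type} (I : P → L → Prop) (H : Set L) :
    Subgroup (gammaGraph I H ≃g gammaGraph I H) where
  carrier := {φ | IsInduced I H φ}
  mul_mem' := by
    rintro φ ψ ⟨σ, τ, h1, h2, h3⟩ ⟨σ', τ', h1', h2', h3'⟩
    refine ⟨σ * σ', τ * τ', fun p l => ?_, fun l => ?_, fun l => ?_⟩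
    · rw [Equiv.Perm.mul_apply, Equiv.Perm.mul_apply, h1, h1']
    · rw [Equiv.Perm.mul_apply, h2, h2']
    · rw [Equiv.Perm.mul_apply, h3', h3]; rfl
  one_mem' := ⟨1, 1, fun _ _ => Iff.rfl, fun _ => Iff.rfl, fun _ => rfl⟩
  inv_mem' := by
    rintro φ ⟨σ, τ, h1, h2, h3⟩
    refine ⟨σ⁻¹, τ⁻¹, fun p l => ?_, fun l => ?_, fun l => ?_⟩
    · have := h1 (σ⁻¹ p) (τ⁻¹ l)
      rw [ais, ais] at this
      exact this.symm
    · have := h2 (τ⁻¹ l)
      rw [ais] at this
      exact this.symm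
    · have h4 := h3 (φ⁻¹ l)
      have h5 : φ (φ⁻¹ l) = l := φ.apply_symm_apply l
      rw [h5] at h4
      rw [← h4, ias]

/-- `T` is a special set of points: it has `s ^ 2 + 1` points, no two of them are collinear,
and every point not in `T` is collinear with none or with exactly two points of `T`. -/
def IsSpecialSet {P L : Type} (I : P → L → Prop) (s : ℕ) (T : Set P) : Prop :=
  T.ncard = s ^ 2 + 1 ∧
  (∀ p ∈ T, ∀ q ∈ T, p ≠ q → ¬ ∃ l, I p l ∧ I q l) ∧
  ∀ p, p ∉ T → {q | q ∈ T ∧ ∃ l, I p l ∧ I q l}.ncard = 0 ∨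
    {q | q ∈ T ∧ ∃ l, I p l ∧ I q l}.ncard = 2

section
variable {P L : Type} {I : P → L → Prop} {s : ℕ} {H : Set L}

theorem two_lines [Finite L] (hs : 3 ≤ s) (hH : IsHemisystem I s H) (p : P) :
    ∃ x y : H, x ≠ y ∧ I p x ∧ I p y := by
  have h1 : 1 < {l | l ∈ H ∧ I p l}.ncard := by
    rw [hH.2]; obtain ⟨k, hk⟩ := hH.1; omega
  obtain ⟨x, hx, y, hy, hne⟩ := (Set.one_lt_ncard (Set.toFinite _)).mp h1
  exact ⟨⟨x, hx.1⟩, ⟨y, hy.1⟩, fun e => hne (congrArg Subtype.val e), hx.2, hy.2⟩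

theorem point_unique [Finite L] (hs : 3 ≤ s) (hG : IsGQ I s) (hH : IsHemisystem I s H)
    {p p' : P} (h : ∀ z : H, I p z → I p' z) : p = p' := by
  by_contra hne
  obtain ⟨x, y, hxy, hx, hy⟩ := two_lines (I := I) hs hH p
  exact hxy (Subtype.ext (hG.unique_line p p' hne x y hx (h x hx) hy (h y hy)))

theorem exists_f [Finite P] [Finite L] (hs : 3 ≤ s) (hG : IsGQ I s) (hH : IsHemisystem I s H)
    (φ : gammaGraph I H ≃g gammaGraph I H) (p : P) : ∃ p', ∀ z : H, I p z → I p' (φ z) := by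
  have := Fintype.ofFinite P
  have := Fintype.ofFinite L
  have hq := mkGQD hs hG.line_card hG.point_card hG.unique_line hG.one_collinear
  obtain ⟨x, y, hxy, hx, hy⟩ := two_lines (I := I) hs hH p
  have adj : ∀ a b : H, a ≠ b → I p a → I p b →
      (φ a : L) ≠ φ b ∧ ∃ r, I r (φ a) ∧ I r (φ b) := by
    intro a b hab ha hb
    have h1 : (gammaGraph I H).Adj a b := ⟨hab, p, ha, hb⟩
    have h2 : (gammaGraph I H).Adj (φ a) (φ b) := φ.map_adj_iff.mpr h1
    exact ⟨fun e => h2.1 (Subtype.ext e), h2.2⟩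
  obtain ⟨hne, p', hpx, hpy⟩ := adj x y hxy hx hy
  refine ⟨p', fun z hz => ?_⟩
  by_cases ezx : z = x
  · rw [ezx]; exact hpx
  by_cases ezy : z = y
  · rw [ezy]; exact hpy
  have a1 := Af1.mpr (adj z x ezx hz hx)
  have a2 := Af1.mpr (adj z y ezy hz hy)
  exact Jf1.mp (hq.L4 hne (Jf1.mpr hpx) (Jf1.mpr hpy) a1 a2)

theorem exists_F [Finite P] [Finite L] (hs : 3 ≤ s) (hG : IsGQ I s) (hH : IsHemisystem I s H)
    (φ : gammaGraph I H ≃g gammaGraph I H) (p : P) : ∃ p', ∀ z : H, I p' (φ z) ↔ I p z := by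
  obtain ⟨p', hp'⟩ := exists_f hs hG hH φ p
  obtain ⟨p'', hp''⟩ := exists_f hs hG hH φ.symm p'
  have e : p = p'' := by
    apply point_unique hs hG hH
    intro z hz
    have := hp'' (φ z) (hp' z hz)
    rwa [φ.symm_apply_apply] at this
  refine ⟨p', fun z => ⟨fun hz => ?_, fun hz => hp' z hz⟩⟩
  have := hp'' (φ z) hz
  rw [φ.symm_apply_apply] at this
  rw [e]; exact this

/-- the action on points -/
theorem exists_hom [Finite P] [Finite L] (hs : 3 ≤ s) (hG : IsGQ I s)
    (hH : IsHemisystem I s H) :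
    ∃ σ : (gammaGraph I H ≃g gammaGraph I H) →* Equiv.Perm P,
      ∀ φ p (l : H), I (σ φ p) (φ l) ↔ I p l := by
  choose F hF using fun φ p => exists_F hs hG hH φ p
  have huniq : ∀ φ p p', (∀ z : H, I p' (φ z) ↔ I p z) → p' = F φ p := by
    intro φ p p' h
    apply point_unique hs hG hH
    intro z hz
    have h1 := (h (φ.symm z))
    rw [φ.apply_symm_apply] at h1
    have h2 := hF φ p (φ.symm z)
    rw [φ.apply_symm_apply] at h2
    exact h2.mpr (h1.mp hz)
  have hmul : ∀ φ ψ p, F φ (F ψ p) = F (φ * ψ) p := by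
    intro φ ψ p
    apply huniq
    intro z
    have : (φ * ψ) z = φ (ψ z) := rfl
    rw [this, hF, hF]
  have hone : ∀ p, F 1 p = p := by
    intro p
    exact (huniq 1 p p (fun z => Iff.rfl)).symm
  refine ⟨{ toFun := fun φ => ⟨F φ, F φ⁻¹, fun p => ?_, fun p => ?_⟩, map_one' := ?_,
            map_mul' := ?_ }, ?_⟩
  · rw [hmul, inv_mul_cancel, hone]
  · rw [hmul, mul_inv_cancel, hone]
  · ext p; exact hone p
  · intro φ ψ; ext p; exact (hmul φ ψ p).symm
  · intro φ p l; exact hF φ p l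

/-- the extension of `φ` to all lines, by the identity outside `H`. -/
noncomputable def ext (φ : gammaGraph I H ≃g gammaGraph I H) : Equiv.Perm L := by
  classical exact Equiv.Perm.ofSubtype (p := (· ∈ H)) φ.toEquiv

theorem ext_coe (φ : gammaGraph I H ≃g gammaGraph I H) (x : H) : ext φ x = φ x := by
  classical
  unfold ext
  exact Equiv.Perm.ofSubtype_apply_coe (p := (· ∈ H)) φ.toEquiv x

theorem ext_not_mem (φ : gammaGraph I H ≃g gammaGraph I H) {x : L} (hx : x ∉ H) :
    ext φ x = x := by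
  classical
  unfold ext
  exact Equiv.Perm.ofSubtype_apply_of_not_mem (p := (· ∈ H)) φ.toEquiv hx

theorem mkAU (φ : gammaGraph I H ≃g gammaGraph I H) (f : Equiv.Perm P)
    (hf' : ∀ p (l : H), I (f p) (φ l) ↔ I p l) : AU (Jf I) (hf H) f (ext φ) where
  hτ x := by
    by_cases hx : x ∈ H
    · have := ext_coe φ ⟨x, hx⟩
      have h2 : ext φ x ∈ H := by
        have : ext φ x = φ ⟨x, hx⟩ := this
        rw [this]; exact (φ ⟨x, hx⟩).2
      rw [hf1.mpr hx, hf1.mpr h2]
    · rw [ext_not_mem φ hx]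
  hJ p x hx := by
    have hx' := hf1.mp hx
    have h1 : ext φ x = φ ⟨x, hx'⟩ := ext_coe φ ⟨x, hx'⟩
    rw [h1]
    have h2 := hf' p ⟨x, hx'⟩
    unfold Jf
    by_cases hp : I p x
    · rw [if_pos hp, if_pos (h2.mpr hp)]
    · rw [if_neg hp, if_neg (fun h => hp (h2.mp h))]

/-- if every line outside `H` is sent to a line then `φ` is induced -/
theorem induced_of_triv [Finite P] [Finite L] (hs : 3 ≤ s) (hG : IsGQ I s)
    (φ : gammaGraph I H ≃g gammaGraph I H) (f : Equiv.Perm P)
    (hf : ∀ p (l : H), I (f p) (φ l) ↔ I p l)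
    (ht : ∀ m, m ∉ H → ∃ m', m' ∉ H ∧ ∀ p, I (f p) m' ↔ I p m) : IsInduced I H φ := by
  classical
  choose! g hg1 hg2 using ht
  let t : L → L := fun x => if hx : x ∈ H then φ ⟨x, hx⟩ else g x
  have tH : ∀ x (hx : x ∈ H), t x = φ ⟨x, hx⟩ := fun x hx => dif_pos hx
  have tM : ∀ x, x ∉ H → t x = g x := fun x hx => dif_neg hx
  have tI : ∀ p x, I (f p) (t x) ↔ I p x := by
    intro p x
    by_cases hx : x ∈ H
    · rw [tH x hx]; exact hf p ⟨x, hx⟩
    · rw [tM x hx]; exact hg2 x hx p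
  have tmem : ∀ x, t x ∈ H ↔ x ∈ H := by
    intro x
    by_cases hx : x ∈ H
    · rw [tH x hx]; exact ⟨fun _ => hx, fun _ => (φ ⟨x, hx⟩).2⟩
    · rw [tM x hx]; exact ⟨fun h => absurd h (hg1 x hx), fun h => absurd h hx⟩
  have tinj : Function.Injective t := by
    intro x y hxy
    have hp : ∀ p, I p x ↔ I p y := by
      intro p
      rw [← tI p x, ← tI p y, hxy]
    -- two points on x
    have h1 : 1 < {p | I p x}.ncard := by
      rw [hG.line_card]; nlinarith
    obtain ⟨p, hpx, q, hqx, hne⟩ := (Set.one_lt_ncard (Set.toFinite _)).mp h1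
    exact hG.unique_line p q hne x y hpx hqx ((hp p).mp hpx) ((hp q).mp hqx)
  refine ⟨f, Equiv.ofBijective t (Finite.injective_iff_bijective.mp tinj), tI, tmem, ?_⟩
  intro l
  exact tH l l.2

theorem Jf_congr {p p' : P} {x x' : L} (h : I p x ↔ I p' x') : Jf I p x = Jf I p' x' := by
  unfold Jf
  by_cases hp : I p' x'
  · rw [if_pos hp, if_pos (h.mpr hp)]
  · rw [if_neg hp, if_neg (fun h' => hp (h.mp h'))]

/-- exotic implies special -/
theorem special_of_exo [Fintype P] [Fintype L] (hs : 3 ≤ s) (hG : IsGQ I s)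
    (hH : IsHemisystem I s H) {f : Equiv.Perm P} {τ : Equiv.Perm L}
    (a : AU (Jf I) (hf H) f τ) {m : L} (hm : m ∉ H) (he : Exo (Jf I) (hf H) f m) :
    IsSpecialSet I s (f '' {p | I p m}) := by
  classical
  have hq := mkGQD hs hG.line_card hG.point_card hG.unique_line hG.one_collinear
  have hh := mkHM (I := I) hH.1 hH.2
  have X := a.toXD hq hh (hf0.mpr hm)
  have hC01 : ∀ l, CC (Jf I) f l m = 0 ∨ CC (Jf I) f l m = 1 := by
    intro l
    rcases hh.h01 l with e | e
    · exact he.1 l e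
    · exact X.CH01 l e
  refine ⟨?_, ?_, ?_⟩
  · rw [Set.ncard_image_of_injective _ f.injective]; exact hG.line_card m
  · rintro _ ⟨p, hp, rfl⟩ _ ⟨q, hq', rfl⟩ hne ⟨l, hl1, hl2⟩
    have hpq : p ≠ q := fun e => hne (by rw [e])
    have e2 : ∑ y ∈ ({p, q} : Finset P), Jf I (f y) l * Jf I y m
        ≤ ∑ y, Jf I (f y) l * Jf I y m :=
      Finset.sum_le_sum_of_subset_of_nonneg (Finset.subset_univ _)
        (fun y _ _ => mul_nonneg (hq.Jnn _ _) (hq.Jnn _ _))
    have hp' : Jf I p m = 1 := Jf1.mpr hp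
    have hq'' : Jf I q m = 1 := Jf1.mpr hq'
    rw [Finset.sum_pair hpq, Jf1.mpr hl1, Jf1.mpr hl2, hp', hq''] at e2
    have e3 : ∑ y, Jf I (f y) l * Jf I y m = CC (Jf I) f l m := rfl
    rw [e3] at e2
    rcases hC01 l with e | e <;> rw [e] at e2 <;> norm_num at e2
  · intro p hp
    set Q : Set P := {q | q ∈ f '' {p | I p m} ∧ ∃ l, I p l ∧ I q l} with hQ
    have hnotin : ¬ I (f⁻¹ p) m := by
      intro h
      exact hp ⟨f⁻¹ p, h, ais f p⟩
    -- counting
    have e1 : (Q.ncard : ℚ) = ∑ l, Jf I p l * CC (Jf I) f l m := by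
      have s1 : ∑ l, Jf I p l * CC (Jf I) f l m
          = ∑ b, Jf I b m * ∑ l, Jf I p l * Jf I (f b) l := by
        unfold CC
        rw [Finset.sum_congr rfl fun l _ => Finset.mul_sum _ _ _, Finset.sum_comm]
        refine Finset.sum_congr rfl fun b _ => ?_
        rw [Finset.mul_sum]
        exact Finset.sum_congr rfl fun l _ => by ring
      have e0 := sum_ind (fun q => q ∈ Q)
      rw [Set.setOf_mem_eq] at e0
      rw [s1, ← e0, ← Equiv.sum_comp f (fun q => if q ∈ Q then (1 : ℚ) else 0)]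
      refine Finset.sum_congr rfl fun b _ => ?_
      by_cases hb : I b m
      · have hpb : p ≠ f b := by
          rintro rfl
          exact hp ⟨b, hb, rfl⟩
        rw [Jf1.mpr hb, one_mul]
        by_cases hex : ∃ l, I p l ∧ I (f b) l
        · have hin : f b ∈ Q := ⟨⟨b, hb, rfl⟩, hex⟩
          rw [if_pos hin]
          obtain ⟨l0, h1, h2⟩ := hex
          rw [Finset.sum_eq_single l0]
          · rw [Jf1.mpr h1, Jf1.mpr h2]; norm_num
          · intro l _ hl
            by_cases h3 : I p l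
            · by_cases h4 : I (f b) l
              · exact absurd (hG.unique_line p (f b) hpb l l0 h3 h4 h1 h2) hl
              · rw [Jf0.mpr h4]; ring
            · rw [Jf0.mpr h3]; ring
          · intro hx; exact absurd (Finset.mem_univ _) hx
        · have hin : f b ∉ Q := fun h => hex h.2
          rw [if_neg hin]
          symm
          apply Finset.sum_eq_zero
          intro l _
          by_cases h3 : I p l
          · by_cases h4 : I (f b) l
            · exact absurd ⟨l, h3, h4⟩ hex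
            · rw [Jf0.mpr h4]; ring
          · rw [Jf0.mpr h3]; ring
      · have hin : f b ∉ Q := by
          rintro ⟨⟨b', hb', e⟩, _⟩
          exact hb (by rw [← f.injective e]; exact hb')
        rw [if_neg hin, Jf0.mpr hb]; ring
    have e2 : ∑ l, Jf I p l * CC (Jf I) f l m
        = 2 * ∑ l, Jf I p l * (hf H l * CC (Jf I) f l m) := by
      have := he.2 p
      have s1 : ∀ l, Jf I p l * CC (Jf I) f l m
          = Jf I p l * ((1 - hf H l) * CC (Jf I) f l m)
            + Jf I p l * (hf H l * CC (Jf I) f l m) := by intro l; ring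
      rw [Finset.sum_congr rfl fun l _ => s1 l, Finset.sum_add_distrib, this]; ring
    have e3 := X.cp0 p (Jf0.mpr hnotin)
    rcases e3 with e3 | e3
    · left
      have : (Q.ncard : ℚ) = 0 := by rw [e1, e2, e3]; ring
      exact_mod_cast this
    · right
      have : (Q.ncard : ℚ) = 2 := by rw [e1, e2, e3]; ring
      exact_mod_cast this

/-- if `φ` is not induced then it is exotic everywhere -/
theorem exo_of_not_induced [Fintype P] [Fintype L] (hs : 3 ≤ s) (hG : IsGQ I s)
    (hH : IsHemisystem I s H) (φ : gammaGraph I H ≃g gammaGraph I H) (f : Equiv.Perm P)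
    (hf' : ∀ p (l : H), I (f p) (φ l) ↔ I p l) (hn : ¬ IsInduced I H φ) :
    (∃ m, m ∉ H) ∧ ∀ m, hf H m = 0 → Exo (Jf I) (hf H) f m := by
  have hq := mkGQD hs hG.line_card hG.point_card hG.unique_line hG.one_collinear
  have hh := mkHM (I := I) hH.1 hH.2
  have a := mkAU φ f hf'
  have hex : ∃ m, m ∉ H ∧ ¬ Triv (Jf I) (hf H) f m := by
    by_contra hcon
    push Not at hcon
    apply hn
    apply induced_of_triv hs hG φ f hf'
    intro m hm
    obtain ⟨m', hm', hp⟩ := hcon m hm
    refine ⟨m', hf0.mp hm', fun p => ?_⟩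
    have := hp p
    constructor
    · intro h
      rw [Jf1.mpr h] at this
      exact Jf1.mp this.symm
    · intro h
      rw [Jf1.mpr h] at this
      exact Jf1.mp this
  obtain ⟨m0, hm0, hnt⟩ := hex
  refine ⟨⟨m0, hm0⟩, fun m hm => ?_⟩
  have hE0 : Exo (Jf I) (hf H) f m0 := (a.dich hq hh (hf0.mpr hm0)).resolve_left hnt
  rcases a.dich hq hh hm with ht | he
  · exact absurd (AU.aon hq hh a hm (hf0.mpr hm0) ht hE0) (by simp)
  · exact he

end

/-- Every automorphism that is not induced maps every line outside `H` to a special set. -/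
theorem special_main {P L : Type} [Finite P] [Finite L] (I : P → L → Prop) (s : ℕ) (H : Set L)
    (hs : 3 ≤ s) (hG : IsGQ I s) (hH : IsHemisystem I s H)
    (φ : gammaGraph I H ≃g gammaGraph I H) :
    ∃ σ : Equiv.Perm P, (∀ p (l : H), I (σ p) (φ l) ↔ I p l) ∧
      (IsInduced I H φ ∨ ((∃ m, m ∉ H) ∧ ∀ m, m ∉ H → IsSpecialSet I s (σ '' {p | I p m}))) := by
  have := Fintype.ofFinite P
  have := Fintype.ofFinite L
  obtain ⟨σ, hσ⟩ := exists_hom hs hG hH
  refine ⟨σ φ, hσ φ, ?_⟩
  by_cases hφ : IsInduced I H φ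
  · exact Or.inl hφ
  · right
    obtain ⟨hex, e⟩ := exo_of_not_induced hs hG hH φ (σ φ) (hσ φ) hφ
    exact ⟨hex, fun m hm =>
      special_of_exo hs hG hH (mkAU φ (σ φ) (hσ φ)) hm (e m (hf0.mpr hm))⟩

/-- The group of induced automorphisms has index at most two. -/
theorem index_main {P L : Type} [Finite P] [Finite L] (I : P → L → Prop) (s : ℕ) (H : Set L)
    (hs : 3 ≤ s) (hG : IsGQ I s) (hH : IsHemisystem I s H) :
    (inducedGroup I H).index = 1 ∨ (inducedGroup I H).index = 2 := by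
  have := Fintype.ofFinite P
  have := Fintype.ofFinite L
  have hq := mkGQD hs hG.line_card hG.point_card hG.unique_line hG.one_collinear
  have hh := mkHM (I := I) hH.1 hH.2
  obtain ⟨σ, hσ⟩ := exists_hom hs hG hH
  by_cases hall : ∀ φ, φ ∈ inducedGroup I H
  · left
    have : inducedGroup I H = ⊤ := (Subgroup.eq_top_iff' _).mpr hall
    rw [this]; exact Subgroup.index_top
  · right
    push Not at hall
    obtain ⟨α, hα⟩ := hall
    rw [Subgroup.index_eq_two_iff]
    refine ⟨α, fun β => ?_⟩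
    by_cases hβ : β ∈ inducedGroup I H
    · right
      refine ⟨hβ, fun hba => hα ?_⟩
      have := (inducedGroup I H).mul_mem ((inducedGroup I H).inv_mem hβ) hba
      rwa [← mul_assoc, inv_mul_cancel, one_mul] at this
    · left
      refine ⟨?_, hβ⟩
      by_contra hba
      obtain ⟨⟨m, hm⟩, e1⟩ := exo_of_not_induced hs hG hH α (σ α) (hσ α) hα
      obtain ⟨_, e2⟩ := exo_of_not_induced hs hG hH β (σ β) (hσ β) hβ
      obtain ⟨_, e3⟩ := exo_of_not_induced hs hG hH (β * α) (σ (β * α)) (hσ (β * α)) hba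
      rw [map_mul] at e3
      have h1 : {p | I p m}.Nonempty := by
        rw [← Set.ncard_pos (Set.toFinite _), hG.line_card]; positivity
      obtain ⟨b0, _⟩ := h1
      exact no_three hs hq hh (mkAU β (σ β) (hσ β)) (mkAU α (σ α) (hσ α)) b0 e2 e1 e3

end Pool.Agent.helper56.Hemi
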