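import Pool.Agent.helper56.Hemi.Moments
import Pool.Agent.helper56.Hemi.Final

set_option autoImplicit false

namespace Pool.Agent.helper56.Hemi

open Finset

/-- Two lines meet (every line with a point meets itself). -/
def Meets {P L : Type} (I : P → L → Prop) (l m : L) : Prop := ∃ p, I p l ∧ I p m

/-- 3-regularity of the lines: for any three pairwise disjoint lines `x, y, z` there are exactly
`s + 1` lines that meet every line meeting all of `x, y, z`. -/
def IsThreeRegular {P L : Type} (I : P → L → Prop) (s : ℕ) : Prop :=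
  ∀ x y z : L, ¬ Meets I x y → ¬ Meets I x z → ¬ Meets I y z →
    {w | ∀ t, Meets I t x → Meets I t y → Meets I t z → Meets I t w}.ncard = s + 1

section
variable {P L : Type} [Fintype P] [Fintype L] {q : ℚ} {J : P → L → ℚ} {A : L → L → ℚ}
  {hh : L → ℚ} {σ : Equiv.Perm P} {τ : Equiv.Perm L}

/-- transported quadrangle -/
theorem map_GQD (h : GQD q J A) (σ : Equiv.Perm P) (τ : Equiv.Perm L) :
    GQD q (fun p w => J (σ⁻¹ p) (τ⁻¹ w)) (fun v w => A (τ⁻¹ v) (τ⁻¹ w)) where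
  qge := h.qge
  J01 p x := h.J01 _ _
  A01 x y := h.A01 _ _
  Axx x := h.Axx _
  Asymm x y := h.Asymm _ _
  sumJP x := by
    rw [Equiv.sum_comp σ⁻¹ (fun p => J p (τ⁻¹ x))]; exact h.sumJP _
  sumJL p := by
    rw [Equiv.sum_comp τ⁻¹ (fun x => J (σ⁻¹ p) x)]; exact h.sumJL _
  JJ x y := by
    rw [Equiv.sum_comp σ⁻¹ (fun p => J p (τ⁻¹ x) * J p (τ⁻¹ y)), h.JJ, AU.dl_map]
  JA p x := by
    rw [Equiv.sum_comp τ⁻¹ (fun y => J (σ⁻¹ p) y * A y (τ⁻¹ x))]; exact h.JA _ _

theorem map_HM (H : HM q J hh) (a : AU J hh σ τ) :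
    HM q (fun p w => J (σ⁻¹ p) (τ⁻¹ w)) hh where
  h01 := H.h01
  sumH p := by
    rw [← H.sumH (σ⁻¹ p), ← Equiv.sum_comp τ⁻¹ (fun x => J (σ⁻¹ p) x * hh x)]
    exact Finset.sum_congr rfl fun x _ => by rw [a.inv.hτ]

theorem map_Triad {x y z : L} (T : Triad (fun v w => A (τ⁻¹ v) (τ⁻¹ w)) x y z) :
    Triad A (τ⁻¹ x) (τ⁻¹ y) (τ⁻¹ z) where
  xy h := T.xy (τ⁻¹.injective h)
  xz h := T.xz (τ⁻¹.injective h)
  yz h := T.yz (τ⁻¹.injective h)
  Axy := T.Axy
  Axz := T.Axz
  Ayz := T.Ayz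

theorem map_Reg (R : Reg q A) (τ : Equiv.Perm L) : Reg q (fun v w => A (τ⁻¹ v) (τ⁻¹ w)) := by
  intro x y z T
  rw [← R _ _ _ (map_Triad T),
    ← Equiv.sum_comp τ⁻¹ (fun w => perp A (tri A (τ⁻¹ x) (τ⁻¹ y) (τ⁻¹ z)) w)]
  refine Finset.sum_congr rfl fun w _ => ?_
  have : (perp (fun v w => A (τ⁻¹ v) (τ⁻¹ w)) (tri (fun v w => A (τ⁻¹ v) (τ⁻¹ w)) x y z) w = 1 ↔
      perp A (tri A (τ⁻¹ x) (τ⁻¹ y) (τ⁻¹ z)) (τ⁻¹ w) = 1) := by
    rw [perp1, perp1]
    constructor
    · intro h v hv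
      have := h (τ v) (by
        unfold tri at hv ⊢
        simp only [ias]
        exact hv)
      simpa only [ias] using this
    · intro h v hv
      exact h (τ⁻¹ v) hv
  rcases perp01 (A := fun v w => A (τ⁻¹ v) (τ⁻¹ w))
    (tri (fun v w => A (τ⁻¹ v) (τ⁻¹ w)) x y z) w with c | c <;>
    rcases perp01 (A := A) (tri A (τ⁻¹ x) (τ⁻¹ y) (τ⁻¹ z)) (τ⁻¹ w) with d | d
  · rw [c, d]
  · rw [this.mpr d] at c; norm_num at c
  · rw [this.mp c] at d; norm_num at d
  · rw [c, d]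

theorem mkTwin (h : GQD q J A) (H : HM q J hh) (a : AU J hh σ τ)
    (he : ∀ m, hh m = 0 → Exo J hh σ m) :
    Twin q J (fun p w => J (σ⁻¹ p) (τ⁻¹ w)) A (fun v w => A (τ⁻¹ v) (τ⁻¹ w)) hh := by
  have hCc : ∀ w e, Cc J (fun p w => J (σ⁻¹ p) (τ⁻¹ w)) w e = CC J σ w (τ⁻¹ e) := by
    intro w e
    unfold Cc CC
    rw [← Equiv.sum_comp σ (fun p => J p w * J (σ⁻¹ p) (τ⁻¹ e))]
    exact Finset.sum_congr rfl fun p _ => by rw [ias]
  exact {
    g1 := h
    g2 := map_GQD h σ τ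
    h1 := H
    h2 := map_HM H a
    JH := fun p x hx => a.inv.hJ p x hx
    C01 := fun m e hm hE => by
      rw [hCc]
      exact (he (τ⁻¹ e) (by rw [a.inv.hτ]; exact hE)).1 m hm
    bs := fun e hE p => by
      have := (he (τ⁻¹ e) (by rw [a.inv.hτ]; exact hE)).2 p
      simp only [hCc]
      exact this }

/-- existence of the base configuration -/
theorem exists_base {J2 : P → L → ℚ} {A2 : L → L → ℚ} (T : Twin q J J2 A A2 hh) {e : L}
    (he : hh e = 0) : ∃ x y, Base A A2 hh x y e := by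
  classical
  have g2 := T.g2
  have hq := g2.qge
  obtain ⟨p, p', hpp, hp, hp'⟩ := exists_two (t := fun p => J2 p e) (fun p => g2.J01 p e)
    (by rw [g2.sumJP]; nlinarith)
  have hex : ∀ b, ∃ x, J2 b x = 1 ∧ hh x = 1 := by
    intro b
    by_contra hn
    have : ∑ x, J2 b x * hh x = 0 := by
      apply Finset.sum_eq_zero
      intro x _
      rcases g2.J01 b x with c | c
      · rw [c]; ring
      rcases T.h1.h01 x with d | d
      · rw [d]; ring
      · exact absurd ⟨x, c, d⟩ hn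
    rw [T.h2.sumH] at this; linarith
  obtain ⟨x, hx, hhx⟩ := hex p
  obtain ⟨y, hy, hhy⟩ := hex p'
  have two : ∀ w, w ≠ e → J2 p w = 1 → J2 p' w = 1 → False := by
    intro w hw h1 h2
    have e1 := g2.JJ w e
    rw [dl_ne hw] at e1
    have e2 : ∑ y ∈ ({p, p'} : Finset P), J2 y w * J2 y e ≤ ∑ y, J2 y w * J2 y e :=
      Finset.sum_le_sum_of_subset_of_nonneg (Finset.subset_univ _)
        (fun y _ _ => mul_nonneg (g2.Jnn _ _) (g2.Jnn _ _))
    have hp1 : J2 p e = 1 := hp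
    have hp2 : J2 p' e = 1 := hp'
    rw [Finset.sum_pair hpp, h1, h2, hp1, hp2, e1] at e2
    rcases g2.A01 w e with c | c <;> rw [c] at e2 <;> norm_num at e2
  have xe : x ≠ e := AU.ne_HM hhx he
  have ye : y ≠ e := AU.ne_HM hhy he
  have axe : A2 x e = 1 := g2.adj_of_block xe hx hp
  have aye : A2 y e = 1 := g2.adj_of_block ye hy hp'
  have hxy : x ≠ y := by
    rintro rfl
    exact two x xe hx hy
  have axy : A2 x y = 0 := by
    rcases g2.A01 x y with c | c
    · exact c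
    · exfalso
      have : J2 p y = 1 := g2.L4 (p := p) (x := x) (z := e) (w := y) xe hx hp
        (by rw [g2.Asymm]; exact c) aye
      exact two y ye this hy
  exact ⟨x, y, hhx, hhy, he, hxy, by rw [← T.AH hhx hhy]; exact axy, axe, aye⟩

end

/-- from the incidence form to `Reg` -/
theorem mkReg {P L : Type} [Fintype P] [Fintype L] {I : P → L → Prop} {s : ℕ} (hs : 3 ≤ s)
    (hG : IsGQ I s) (h3 : IsThreeRegular I s) : Reg (s : ℚ) (Af I) := by
  classical
  have hq := mkGQD hs hG.line_card hG.point_card hG.unique_line hG.one_collinear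
  intro x y z T
  have nm : ∀ {u v : L}, u ≠ v → Af I u v = 0 → ¬ Meets I u v := by
    intro u v h1 h2 h3
    exact (Af0.mp h2) ⟨h1, h3⟩
  have mc : ∀ {u v : L}, Meets I u v → Meets I v u := by
    rintro u v ⟨p, h1, h2⟩; exact ⟨p, h2, h1⟩
  have nxy := nm T.xy T.Axy
  have nxz := nm T.xz T.Axz
  have nyz := nm T.yz T.Ayz
  have hT := h3 x y z nxy nxz nyz
  have htri : ∀ t, tri (Af I) x y z t = 1 ↔ (Meets I t x ∧ Meets I t y ∧ Meets I t z) := by
    intro t
    rw [tri1 hq, Af1, Af1, Af1]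
    constructor
    · rintro ⟨⟨_, h1⟩, ⟨_, h2⟩, ⟨_, h3⟩⟩; exact ⟨h1, h2, h3⟩
    · rintro ⟨h1, h2, h3⟩
      refine ⟨⟨?_, h1⟩, ⟨?_, h2⟩, ⟨?_, h3⟩⟩
      · rintro rfl; exact nxy h2
      · rintro rfl; exact nxy (mc h1)
      · rintro rfl; exact nxz (mc h1)
  have hperp : ∀ w, perp (Af I) (tri (Af I) x y z) w = if
      (∀ t, Meets I t x → Meets I t y → Meets I t z → Meets I t w) then 1 else 0 := by
    intro w
    by_cases hw : ∀ t, Meets I t x → Meets I t y → Meets I t z → Meets I t w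
    · rw [if_pos hw, perp1]
      intro v hv
      have hv' := (htri v).mp hv
      have hm := hw v hv'.1 hv'.2.1 hv'.2.2
      refine Af1.mpr ⟨?_, mc hm⟩
      rintro rfl
      -- another element of T
      obtain ⟨a, b, hab, ha, hb⟩ := exists_two (tri01 hq x y z) (by
        rw [sum_tri hq T]; have := hq.qge; linarith)
      obtain ⟨c, hc, hcw⟩ : ∃ c, tri (Af I) x y z c = 1 ∧ c ≠ w := by
        by_cases hA : a = w
        · exact ⟨b, hb, fun h => hab (hA.trans h.symm)⟩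
        · exact ⟨a, ha, hA⟩
      have hc' := (htri c).mp hc
      have hcm := hw c hc'.1 hc'.2.1 hc'.2.2
      obtain ⟨k1, k2, _⟩ := (tri1 hq).mp hc
      obtain ⟨l1, l2, _⟩ := (tri1 hq).mp hv
      have := nonadj hq T.xy T.Axy k1 k2 l1 l2
      exact (Af0.mp this) ⟨hcw, hcm⟩
    · rw [if_neg hw]
      rcases perp01 (A := Af I) (tri (Af I) x y z) w with c | c
      · exact c
      · exfalso
        apply hw
        intro t h1 h2 h3
        exact mc ((Af1.mp (perp1.mp c t ((htri t).mpr ⟨h1, h2, h3⟩))).2)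
  rw [Finset.sum_congr rfl fun w _ => hperp w,
    sum_ind (fun w => ∀ t, Meets I t x → Meets I t y → Meets I t z → Meets I t w), hT]
  push_cast; ring

/-- For 3-regular quadrangles with `s ≥ 11` every automorphism is induced. -/
theorem classical_main {P L : Type} [Finite P] [Finite L] (I : P → L → Prop) (s : ℕ) (H : Set L)
    (hs : 11 ≤ s) (hG : IsGQ I s) (h3 : IsThreeRegular I s) (hH : IsHemisystem I s H)
    (φ : gammaGraph I H ≃g gammaGraph I H) : IsInduced I H φ := by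
  have := Fintype.ofFinite P
  have := Fintype.ofFinite L
  have hs3 : 3 ≤ s := by omega
  have hq := mkGQD hs3 hG.line_card hG.point_card hG.unique_line hG.one_collinear
  have hh := mkHM (I := I) hH.1 hH.2
  by_contra hn
  obtain ⟨σ, hσ⟩ := exists_hom hs3 hG hH
  obtain ⟨⟨m, hm⟩, he⟩ := exo_of_not_induced hs3 hG hH φ (σ φ) (hσ φ) hn
  have a := mkAU φ (σ φ) (hσ φ)
  have T := mkTwin hq hh a he
  obtain ⟨x, y, b⟩ := exists_base T (hf0.mpr hm)
  have R := mkReg hs3 hG h3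
  exact no_twin hs hH.1 T R (map_Reg R _) b

end Pool.Agent.helper56.Hemi
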