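import Pool.Agent.helper56.Hemi.Twin

set_option autoImplicit false

namespace Pool.Agent.helper56.Hemi

open Finset

section
variable {P L : Type} [Fintype P] [Fintype L] {q : ℚ} {J J2 : P → L → ℚ} {A A2 : L → L → ℚ}
  {hh : L → ℚ}

/-- number of `E`-vertices on the conic -/
def fz (A2 : L → L → ℚ) (hh : L → ℚ) (x y z : L) : ℚ := ∑ v, (1 - hh v) * tri A2 x y z v

/-- good vertices -/
structure Good (q : ℚ) (A2 : L → L → ℚ) (hh : L → ℚ) (x y e z : L) : Prop where
  ze : A2 z e = 1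
  zx : z ≠ x
  zy : z ≠ y
  Azx : A2 z x = 0
  Azy : A2 z y = 0
  f3 : 3 ≤ fz A2 hh x y z
  j3 : 3 ≤ q + 1 - fz A2 hh x y z
  fj : q + 1 - fz A2 hh x y z < fz A2 hh x y z

/-- The base configuration. -/
structure Base (A A2 : L → L → ℚ) (hh : L → ℚ) (x y e : L) : Prop where
  hx : hh x = 1
  hy : hh y = 1
  he : hh e = 0
  ne : x ≠ y
  xy : A x y = 0
  xe : A2 x e = 1
  ye : A2 y e = 1

namespace Twin

theorem base2 (T : Twin q J J2 A A2 hh) {x y e : L} (b : Base A A2 hh x y e) : A2 x y = 0 := by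
  rw [T.AH b.hx b.hy]; exact b.xy

theorem triadZ (T : Twin q J J2 A A2 hh) {x y e z : L} (b : Base A A2 hh x y e)
    (g : Good q A2 hh x y e z) : Triad A2 x y z where
  xy := b.ne
  xz := Ne.symm g.zx
  yz := Ne.symm g.zy
  Axy := T.base2 b
  Axz := by rw [T.g2.Asymm]; exact g.Azx
  Ayz := by rw [T.g2.Asymm]; exact g.Azy

/-- counts of the conic pair of `z`. -/
theorem counts (T : Twin q J J2 A A2 hh) (R2 : Reg q A2) {x y e z : L}
    (b : Base A A2 hh x y e) (g : Good q A2 hh x y e z) :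
    ∑ v, tri A2 x y z v * hh v = q + 1 - fz A2 hh x y z ∧
    ∑ v, perp A2 (tri A2 x y z) v * hh v = fz A2 hh x y z := by
  have tz := T.triadZ b g
  have c2 := triCP T.g2 R2 tz
  have e1 := c2.cp_H T.g2 T.h2
  have e2 : fz A2 hh x y z = ∑ v, tri A2 x y z v - ∑ v, tri A2 x y z v * hh v := by
    unfold fz
    rw [← Finset.sum_sub_distrib]; exact Finset.sum_congr rfl fun v _ => by ring
  rw [c2.ts] at e2
  constructor
  · linarith
  · linarith

/-- a third vertex in a set -/
theorem exists_third {t : L → ℚ} (ht : ∀ w, t w = 0 ∨ t w = 1) (hs : 3 ≤ ∑ w, t w) (x y : L) :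
    ∃ z, z ≠ x ∧ z ≠ y ∧ t z = 1 := by
  classical
  by_contra hcon
  push Not at hcon
  have h1 : ∑ w, t w ≤ ∑ w ∈ ({x, y} : Finset L), t w := by
    rw [← Finset.sum_subset (Finset.subset_univ ({x, y} : Finset L))]
    intro w _ hw
    rw [Finset.mem_insert, Finset.mem_singleton, not_or] at hw
    rcases ht w with e | e
    · exact e
    · exact absurd e (hcon w hw.1 hw.2)
  have h2 : ∑ w ∈ ({x, y} : Finset L), t w ≤ ∑ w ∈ ({x, y} : Finset L), (1 : ℚ) :=
    Finset.sum_le_sum fun w _ => by rcases ht w with e | e <;> rw [e]; norm_num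
  rw [Finset.sum_const, nsmul_eq_mul, mul_one] at h2
  have h3 : ((({x, y} : Finset L).card : ℕ) : ℚ) ≤ 2 := by exact_mod_cast Finset.card_le_two
  linarith

/-- comparison of the conic pairs in both structures. -/
theorem F3 (T : Twin q J J2 A A2 hh) (R1 : Reg q A) (R2 : Reg q A2) {x y e z : L}
    (b : Base A A2 hh x y e) (g : Good q A2 hh x y e z) :
    ∃ z0, Triad A x y z0 ∧ hh z0 = 1 ∧ perp A2 (tri A2 x y z) z0 = 1 ∧
      (∀ v, hh v = 1 → (tri A x y z0 v = 1 ↔ tri A2 x y z v = 1)) ∧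
      (∀ v, hh v = 1 → (perp A (tri A x y z0) v = 1 ↔ perp A2 (tri A2 x y z) v = 1)) ∧
      ∑ v, tri A x y z0 v * ((1 - hh v) * Cc J J2 v e) = fz A2 hh x y z := by
  classical
  have g1 := T.g1
  have g2 := T.g2
  have tz := T.triadZ b g
  have c2 := triCP g2 R2 tz
  obtain ⟨n1, n2⟩ := T.counts R2 b g
  set r := tri A2 x y z with hr
  set r' := perp A2 r with hr'
  have h01 := T.h1.h01
  -- x, y in the perp
  have r'x : r' x = 1 := perp1.mpr fun v hv => by
    rw [g2.Asymm]; exact ((tri1 g2).mp hv).1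
  have r'y : r' y = 1 := perp1.mpr fun v hv => by
    rw [g2.Asymm]; exact ((tri1 g2).mp hv).2.1
  have f3 := g.f3
  have j3 := g.j3
  obtain ⟨z0, z0x, z0y, hz0⟩ := exists_third (t := fun v => r' v * hh v) (by
    intro w
    rcases c2.t01' w with a | a
    · left; show r' w * hh w = 0; rw [a]; ring
    · rcases h01 w with d | d
      · left; show r' w * hh w = 0; rw [d]; ring
      · right; show r' w * hh w = 1; rw [a, d]; ring) (by rw [n2]; exact f3) x y
  have hz0' : r' z0 = 1 ∧ hh z0 = 1 := by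
    have hz00 : r' z0 * hh z0 = 1 := hz0
    rcases c2.t01' z0 with a | a
    · rw [a] at hz00; norm_num at hz00
    · rw [a] at hz00; exact ⟨a, by linarith⟩
  obtain ⟨rz0, hhz0⟩ := hz0'
  have tr : Triad A x y z0 := ⟨b.ne, Ne.symm z0x, Ne.symm z0y, b.xy,
    by rw [← T.AH b.hx hhz0]; exact c2.tt' x z0 r'x rz0,
    by rw [← T.AH b.hy hhz0]; exact c2.tt' y z0 r'y rz0⟩
  have c1 := triCP g1 R1 tr
  set t := tri A x y z0 with ht
  set t' := perp A t with ht'
  -- tri A2 x y z0 = r
  have tr2 : Triad A2 x y z0 := ⟨b.ne, Ne.symm z0x, Ne.symm z0y, T.base2 b,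
    c2.tt' x z0 r'x rz0, c2.tt' y z0 r'y rz0⟩
  have hrr : ∀ v, r v = 1 → tri A2 x y z0 v = 1 := by
    intro v hv
    obtain ⟨a1, a2, _⟩ := (tri1 g2).mp hv
    exact (tri1 g2).mpr ⟨a1, a2, c2.cross v z0 hv rz0⟩
  have hrr' : ∀ v, tri A2 x y z0 v = r v := by
    have e1 : ∑ v, (tri A2 x y z0 v - r v) = 0 := by
      rw [Finset.sum_sub_distrib, sum_tri g2 tr2, c2.ts]; ring
    have nn : ∀ v ∈ univ, 0 ≤ tri A2 x y z0 v - r v := by
      intro v _
      rcases c2.t01 v with a | a
      · rw [a]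
        rcases tri01 g2 x y z0 v with d | d <;> rw [d] <;> norm_num
      · rw [hrr v a, a]; norm_num
    intro v
    have := (Finset.sum_eq_zero_iff_of_nonneg nn).mp e1 v (Finset.mem_univ v)
    linarith
  have hA : ∀ v, hh v = 1 → (t v = 1 ↔ r v = 1) := by
    intro v hv
    rw [← hrr' v, ht]
    unfold tri
    rw [T.AH hv b.hx, T.AH hv b.hy, T.AH hv hhz0]
  -- the common part
  let κ : L → ℚ := fun v => r v * hh v
  have κ01 : ∀ v, κ v = 0 ∨ κ v = 1 := by
    intro w
    rcases c2.t01 w with a | a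
    · left; show r w * hh w = 0; rw [a]; ring
    · rcases h01 w with d | d
      · left; show r w * hh w = 0; rw [d]; ring
      · right; show r w * hh w = 1; rw [a, d]; ring
  have κr : ∀ v, κ v = 1 → r v = 1 ∧ hh v = 1 := by
    intro v hv
    have hv' : r v * hh v = 1 := hv
    rcases c2.t01 v with a | a
    · rw [a] at hv'; norm_num at hv'
    · rw [a] at hv'; exact ⟨a, by linarith⟩
  have κs : 3 ≤ ∑ v, κ v := by
    have : ∑ v, κ v = q + 1 - fz A2 hh x y z := n1
    rw [this]; exact j3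
  have hB : ∀ v, hh v = 1 → (t' v = 1 ↔ r' v = 1) := by
    intro v hv
    constructor
    · intro h
      refine c2.three' g2 κ01 (fun w hw => (κr w hw).1) κs fun w hw => ?_
      obtain ⟨a, d⟩ := κr w hw
      rw [T.AH hv d]
      exact perp1.mp h w ((hA w d).mpr a)
    · intro h
      refine c1.three' g1 κ01 (fun w hw => (hA w (κr w hw).2).mpr (κr w hw).1) κs fun w hw => ?_
      obtain ⟨a, d⟩ := κr w hw
      rw [← T.AH hv d]
      exact perp1.mp h w a
  have re : r e = 1 := (tri1 g2).mpr ⟨by rw [g2.Asymm]; exact b.xe, by rw [g2.Asymm]; exact b.ye,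
    by rw [g2.Asymm]; exact g.ze⟩
  have hF : ∑ v, t' v * hh v = fz A2 hh x y z := by
    rw [← n2]
    refine Finset.sum_congr rfl fun v _ => ?_
    rcases h01 v with d | d
    · rw [d]; ring
    · have := hB v d
      rcases c1.t01' v with a | a <;> rcases c2.t01' v with a' | a'
      · rw [a, a']
      · have := this.mpr a'
        rw [a] at this; norm_num at this
      · have := this.mp a
        rw [a'] at this; norm_num at this
      · rw [a, a']
  refine ⟨z0, tr, hhz0, rz0, hA, hB, ?_⟩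
  refine T.F4 c1 b.he ?_ ?_ hF f3 g.fj
  · intro v hv hv'
    rw [g2.Asymm]
    exact c2.cross e v re ((hB v hv).mp hv')
  · intro v hv hv'
    exact c2.tt v e ((hA v hv).mp hv') re

open Classical in
/-- the set `D` -/
noncomputable def DD (J J2 : P → L → ℚ) (A : L → L → ℚ) (hh : L → ℚ) (x y e : L) : Finset L :=
  univ.filter fun m => hh m = 0 ∧ A x m = 1 ∧ A y m = 1 ∧ Cc J J2 m e = 1

open Classical in
/-- the part of `D` on the conic of `z` -/
noncomputable def Dz (J J2 : P → L → ℚ) (A A2 : L → L → ℚ) (hh : L → ℚ) (x y e z : L) :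
    Finset L :=
  univ.filter fun m => hh m = 0 ∧ Cc J J2 m e = 1 ∧
    ∀ v, hh v = 1 → perp A2 (tri A2 x y z) v = 1 → A m v = 1

theorem mem_DD {x y e m : L} : m ∈ DD J J2 A hh x y e ↔
    (hh m = 0 ∧ A x m = 1 ∧ A y m = 1 ∧ Cc J J2 m e = 1) := by
  unfold DD; simp

theorem mem_Dz {x y e z m : L} : m ∈ Dz J J2 A A2 hh x y e z ↔ (hh m = 0 ∧ Cc J J2 m e = 1 ∧
    ∀ v, hh v = 1 → perp A2 (tri A2 x y z) v = 1 → A m v = 1) := by
  unfold Dz; simp

theorem card_DD (T : Twin q J J2 A A2 hh) {x y e : L} (b : Base A A2 hh x y e) :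
    ((DD J J2 A hh x y e).card : ℚ) = 2 * q := by
  classical
  rw [← T.F1 b.hx b.hy b.ne b.xy b.he b.xe b.ye, Finset.card_eq_sum_ones, Nat.cast_sum]
  rw [← Finset.sum_subset (Finset.subset_univ (DD J J2 A hh x y e))]
  · refine Finset.sum_congr rfl fun m hm => ?_
    obtain ⟨a, b', c, d⟩ := mem_DD.mp hm
    rw [a, b', c, d]; norm_num
  · intro m _ hm
    rw [mem_DD] at hm
    rcases T.h1.h01 m with a | a
    · rcases T.g1.A01 x m with b' | b'
      · rw [b']; ring
      rcases T.g1.A01 y m with c | c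
      · rw [c]; ring
      rcases T.C01 m e a b.he with d | d
      · rw [d]; ring
      · exact absurd ⟨a, b', c, d⟩ hm
    · rw [a]; ring

theorem perp_xy (g2 : GQD q J2 A2) (x y z : L) : perp A2 (tri A2 x y z) x = 1 ∧
    perp A2 (tri A2 x y z) y = 1 ∧ perp A2 (tri A2 x y z) z = 1 :=
  ⟨perp1.mpr fun v hv => by rw [g2.Asymm]; exact ((tri1 g2).mp hv).1,
   perp1.mpr fun v hv => by rw [g2.Asymm]; exact ((tri1 g2).mp hv).2.1,
   perp1.mpr fun v hv => by rw [g2.Asymm]; exact ((tri1 g2).mp hv).2.2⟩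

theorem Dz_sub (T : Twin q J J2 A A2 hh) {x y e z : L} (b : Base A A2 hh x y e) :
    Dz J J2 A A2 hh x y e z ⊆ DD J J2 A hh x y e := by
  intro m hm
  obtain ⟨h1, h2, h3⟩ := mem_Dz.mp hm
  obtain ⟨px, py, _⟩ := perp_xy T.g2 x y z
  exact mem_DD.mpr ⟨h1, by rw [T.g1.Asymm]; exact h3 x b.hx px,
    by rw [T.g1.Asymm]; exact h3 y b.hy py, h2⟩

/-- membership in terms of the first structure -/
theorem mem_Dz' (T : Twin q J J2 A A2 hh) {x y e z z0 m : L} (b : Base A A2 hh x y e)
    (hz0 : hh z0 = 1) (pz0 : perp A2 (tri A2 x y z) z0 = 1)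
    (hB : ∀ v, hh v = 1 → (perp A (tri A x y z0) v = 1 ↔ perp A2 (tri A2 x y z) v = 1)) :
    m ∈ Dz J J2 A A2 hh x y e z ↔ (hh m = 0 ∧ Cc J J2 m e = 1 ∧ tri A x y z0 m = 1) := by
  rw [mem_Dz]
  constructor
  · rintro ⟨h1, h2, h3⟩
    obtain ⟨px, py, _⟩ := perp_xy T.g2 x y z
    exact ⟨h1, h2, (tri1 T.g1).mpr ⟨h3 x b.hx px, h3 y b.hy py, h3 z0 hz0 pz0⟩⟩
  · rintro ⟨h1, h2, h3⟩
    refine ⟨h1, h2, fun v hv hp => ?_⟩
    rw [T.g1.Asymm]
    exact perp1.mp ((hB v hv).mpr hp) m h3

theorem card_Dz (T : Twin q J J2 A A2 hh) (R1 : Reg q A) (R2 : Reg q A2) {x y e z : L}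
    (b : Base A A2 hh x y e) (g : Good q A2 hh x y e z) :
    ((Dz J J2 A A2 hh x y e z).card : ℚ) = fz A2 hh x y z := by
  classical
  obtain ⟨z0, tr, hz0, pz0, hA, hB, hs⟩ := T.F3 R1 R2 b g
  rw [← hs, Finset.card_eq_sum_ones, Nat.cast_sum]
  rw [← Finset.sum_subset (Finset.subset_univ (Dz J J2 A A2 hh x y e z))]
  · refine Finset.sum_congr rfl fun m hm => ?_
    obtain ⟨a, b', c⟩ := (T.mem_Dz' b hz0 pz0 hB).mp hm
    rw [a, b', c]; norm_num
  · intro m _ hm
    rw [T.mem_Dz' b hz0 pz0 hB] at hm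
    rcases T.h1.h01 m with a | a
    · rcases T.C01 m e a b.he with d | d
      · rw [d]; ring
      rcases tri01 T.g1 x y z0 m with c | c
      · rw [c]; ring
      · exact absurd ⟨a, d, c⟩ hm
    · rw [a]; ring

/-- the perp is determined on `H` by three vertices of `Dz`. -/
theorem perp_det (T : Twin q J J2 A A2 hh) (R1 : Reg q A) (R2 : Reg q A2) {x y e z : L}
    (b : Base A A2 hh x y e) (g : Good q A2 hh x y e z) {S : Finset L} (hS : S.card = 3)
    (hSD : S ⊆ Dz J J2 A A2 hh x y e z) {v : L} (hv : hh v = 1) :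
    perp A2 (tri A2 x y z) v = 1 ↔ ∀ m ∈ S, A m v = 1 := by
  classical
  constructor
  · intro h m hm
    exact (mem_Dz.mp (hSD hm)).2.2 v hv h
  · intro h
    obtain ⟨z0, tr, hz0, pz0, hA, hB, hs⟩ := T.F3 R1 R2 b g
    rw [← hB v hv]
    have c1 := triCP T.g1 R1 tr
    refine c1.three' T.g1 (κ := fun m => if m ∈ S then 1 else 0) ?_ ?_ ?_ ?_
    · intro w; by_cases hw : w ∈ S
      · right; exact if_pos hw
      · left; exact if_neg hw
    · intro w hw
      have hwS : w ∈ S := by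
        by_contra hcon
        rw [if_neg hcon] at hw; norm_num at hw
      exact ((T.mem_Dz' b hz0 pz0 hB).mp (hSD hwS)).2.2
    · rw [Finset.sum_ite_mem, Finset.univ_inter, Finset.sum_const, hS]; norm_num
    · intro w hw
      have hwS : w ∈ S := by
        by_contra hcon
        rw [if_neg hcon] at hw; norm_num at hw
      rw [T.g1.Asymm]; exact h w hwS

/-- two good vertices with a common triple -/
theorem det (T : Twin q J J2 A A2 hh) (R1 : Reg q A) (R2 : Reg q A2) {x y e z z' : L}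
    (b : Base A A2 hh x y e) (g : Good q A2 hh x y e z) (g' : Good q A2 hh x y e z')
    {S : Finset L} (hS : S.card = 3)
    (hSD : S ⊆ Dz J J2 A A2 hh x y e z) (hSD' : S ⊆ Dz J J2 A A2 hh x y e z') :
    perp A2 (tri A2 x y z') z = 1 := by
  classical
  have g2 := T.g2
  have c := triCP g2 R2 (T.triadZ b g)
  have c' := triCP g2 R2 (T.triadZ b g')
  obtain ⟨n1, n2⟩ := T.counts R2 b g
  obtain ⟨n1', n2'⟩ := T.counts R2 b g'
  have hp : ∀ v, hh v = 1 → (perp A2 (tri A2 x y z) v = 1 ↔ perp A2 (tri A2 x y z') v = 1) := by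
    intro v hv
    rw [T.perp_det R1 R2 b g hS hSD hv, T.perp_det R1 R2 b g' hS hSD' hv]
  -- tri' ∩ H ⊆ tri
  have ht : ∀ v, hh v = 1 → tri A2 x y z' v = 1 → tri A2 x y z v = 1 := by
    intro v hv hv'
    refine (c.symm g2).three' g2 (κ := fun w => perp A2 (tri A2 x y z) w * hh w) ?_ ?_ ?_ ?_
    · intro w
      rcases perp01 (A := A2) (tri A2 x y z) w with a | a
      · left; show _ * _ = _; rw [a]; ring
      · rcases T.h1.h01 w with d | d
        · left; show _ * _ = _; rw [d]; ring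
        · right; show _ * _ = _; rw [a, d]; ring
    · intro w hw
      rcases perp01 (A := A2) (tri A2 x y z) w with a | a
      · have hw' : perp A2 (tri A2 x y z) w * hh w = 1 := hw
        rw [a] at hw'; norm_num at hw'
      · exact a
    · rw [n2]; exact g.f3
    · intro w hw
      have hw' : perp A2 (tri A2 x y z) w * hh w = 1 := hw
      rcases perp01 (A := A2) (tri A2 x y z) w with a | a
      · rw [a] at hw'; norm_num at hw'
      · rw [a] at hw'
        have hhw : hh w = 1 := by linarith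
        exact c'.cross v w hv' ((hp w hhw).mp a)
  refine c'.three' g2 (κ := fun w => tri A2 x y z' w * hh w) ?_ ?_ ?_ ?_
  · intro w
    rcases tri01 g2 x y z' w with a | a
    · left; show _ * _ = _; rw [a]; ring
    · rcases T.h1.h01 w with d | d
      · left; show _ * _ = _; rw [d]; ring
      · right; show _ * _ = _; rw [a, d]; ring
  · intro w hw
    have hw' : tri A2 x y z' w * hh w = 1 := hw
    rcases tri01 g2 x y z' w with a | a
    · rw [a] at hw'; norm_num at hw'
    · exact a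
  · rw [n1']; exact g'.j3
  · intro w hw
    have hw' : tri A2 x y z' w * hh w = 1 := hw
    rcases tri01 g2 x y z' w with a | a
    · rw [a] at hw'; norm_num at hw'
    · rw [a] at hw'
      have hhw : hh w = 1 := by linarith
      rw [g2.Asymm]
      exact ((tri1 g2).mp (ht w hhw a)).2.2

open Classical in
/-- The double count. -/
theorem double (T : Twin q J J2 A A2 hh) (R1 : Reg q A) (R2 : Reg q A2) {s : ℕ} (hs : q = s)
    {x y e : L} (b : Base A A2 hh x y e) :
    ∑ z ∈ univ.filter (fun z => Good q A2 hh x y e z), (Dz J J2 A A2 hh x y e z).card.choose 3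
      ≤ (2 * s).choose 3 * (s - 1) := by
  have g2 := T.g2
  have hD : (DD J J2 A hh x y e).card = 2 * s := by
    have := T.card_DD b
    rw [hs] at this
    exact_mod_cast this
  set GS := univ.filter (fun z => Good q A2 hh x y e z) with hGS
  have h1 : ∀ z ∈ GS, (Dz J J2 A A2 hh x y e z).card.choose 3
      = ∑ S ∈ (DD J J2 A hh x y e).powersetCard 3,
          if S ⊆ Dz J J2 A A2 hh x y e z then 1 else 0 := by
    intro z _
    rw [← Finset.card_powersetCard, Finset.card_eq_sum_ones, ← Finset.sum_filter]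
    apply Finset.sum_congr _ (fun _ _ => rfl)
    ext S
    rw [Finset.mem_filter, Finset.mem_powersetCard, Finset.mem_powersetCard]
    constructor
    · rintro ⟨h2, h3⟩; exact ⟨⟨h2.trans (T.Dz_sub b), h3⟩, h2⟩
    · rintro ⟨⟨_, h3⟩, h2⟩; exact ⟨h2, h3⟩
  rw [Finset.sum_congr rfl h1, Finset.sum_comm]
  have h2 : ∀ S ∈ (DD J J2 A hh x y e).powersetCard 3,
      (∑ z ∈ GS, if S ⊆ Dz J J2 A A2 hh x y e z then 1 else 0) ≤ s - 1 := by
    intro S hS
    have hS3 := (Finset.mem_powersetCard.mp hS).2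
    rw [← Finset.sum_filter, ← Finset.card_eq_sum_ones]
    rcases (GS.filter fun z => S ⊆ Dz J J2 A A2 hh x y e z).eq_empty_or_nonempty with he | ⟨z', hz'⟩
    · rw [he]; simp
    obtain ⟨hz'1, hz'2⟩ := Finset.mem_filter.mp hz'
    have g' := (Finset.mem_filter.mp hz'1).2
    have tz' := T.triadZ b g'
    set RP := univ.filter (fun w => perp A2 (tri A2 x y z') w = 1) with hRP
    have hRPc : RP.card = s + 1 := by
      have e1 := R2 x y z' tz'
      have e2 : ∑ w, perp A2 (tri A2 x y z') w = (RP.card : ℚ) := by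
        rw [hRP, Finset.card_filter, Nat.cast_sum]
        refine Finset.sum_congr rfl fun w _ => ?_
        rcases perp01 (A := A2) (tri A2 x y z') w with a | a
        · rw [a]; simp
        · rw [a]; simp
      rw [e2, hs] at e1
      exact_mod_cast e1
    obtain ⟨px, py, _⟩ := perp_xy g2 x y z'
    have hxm : x ∈ RP := Finset.mem_filter.mpr ⟨Finset.mem_univ _, px⟩
    have hym : y ∈ RP.erase x := Finset.mem_erase.mpr ⟨Ne.symm b.ne,
      Finset.mem_filter.mpr ⟨Finset.mem_univ _, py⟩⟩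
    have hcard : ((RP.erase x).erase y).card = s - 1 := by
      rw [Finset.card_erase_of_mem hym, Finset.card_erase_of_mem hxm, hRPc]; omega
    rw [← hcard]
    apply Finset.card_le_card
    intro z hz
    obtain ⟨hz1, hz2⟩ := Finset.mem_filter.mp hz
    have g := (Finset.mem_filter.mp hz1).2
    exact Finset.mem_erase.mpr ⟨g.zy, Finset.mem_erase.mpr ⟨g.zx, Finset.mem_filter.mpr
      ⟨Finset.mem_univ _, T.det R1 R2 b g g' hS3 hz2 hz'2⟩⟩⟩
  refine le_trans (Finset.sum_le_sum h2) ?_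
  rw [Finset.sum_const, smul_eq_mul, Finset.card_powersetCard, hD]

end Twin

end

end Pool.Agent.helper56.Hemi
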