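import Pool.Agent.helper56.Hemi.VMinus

set_option autoImplicit false

namespace Pool.Agent.helper56.Hemi

open Finset

/-- The data of a set of blocks that looks, from inside `H`, like the pencil of a vertex
outside `H`. -/
structure XD {P L : Type} [Fintype P] [Fintype L] (q : ℚ) (J : P → L → ℚ) (A : L → L → ℚ)
    (hh : L → ℚ) (ell : P → ℚ) (C : L → ℚ) : Prop where
  ell01 : ∀ p, ell p = 0 ∨ ell p = 1
  sum_ell : ∑ p, ell p = q ^ 2 + 1
  Cdef : ∀ x, C x = ∑ p, ell p * J p x
  CH01 : ∀ x, hh x = 1 → C x = 0 ∨ C x = 1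
  cp1 : ∀ p, ell p = 1 → ∑ x, J p x * (hh x * C x) = (q + 1) / 2
  cp0 : ∀ p, ell p = 0 → ∑ x, J p x * (hh x * C x) = 0 ∨ ∑ x, J p x * (hh x * C x) = 1
  CA : ∀ x, hh x = 1 → ∑ y, A x y * (hh y * C y) = (q ^ 2 + 1) / 2 - (q ^ 2 - q + 2) / 2 * C x

namespace XD

variable {P L : Type} [Fintype P] [Fintype L] {q : ℚ} {J : P → L → ℚ} {A : L → L → ℚ}
  {hh : L → ℚ} {ell : P → ℚ} {C : L → ℚ}

theorem hC2 (H : HM q J hh) (X : XD q J A hh ell C) (x : L) :
    (hh x * C x) * C x = hh x * C x := by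
  rcases H.h01 x with e | e
  · rw [e]; ring
  · rcases X.CH01 x e with e' | e' <;> rw [e'] <;> ring

theorem hC2' (H : HM q J hh) (X : XD q J A hh ell C) (x : L) :
    (hh x * C x) * (hh x * C x) = hh x * C x := by
  rcases H.h01 x with e | e
  · rw [e]; ring
  · rcases X.CH01 x e with e' | e' <;> rw [e, e'] <;> ring

theorem hh2 (H : HM q J hh) (x : L) : hh x * hh x = hh x := by
  rcases H.h01 x with e | e <;> rw [e] <;> ring

/-- the total. -/
theorem sumX (_h : GQD q J A) (H : HM q J hh) (X : XD q J A hh ell C) :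
    ∑ x, hh x * C x = (q + 1) / 2 * (q ^ 2 + 1) := by
  have e : ∀ x, hh x * C x = ∑ p, ell p * (J p x * hh x) := by
    intro x; rw [X.Cdef, Finset.mul_sum]; exact Finset.sum_congr rfl fun p _ => by ring
  rw [Finset.sum_congr rfl fun x _ => e x, Finset.sum_comm,
    Finset.sum_congr rfl fun p _ => (Finset.mul_sum _ _ _).symm,
    Finset.sum_congr rfl fun p _ => by rw [H.sumH p], ← Finset.sum_mul, X.sum_ell]
  ring

theorem sumX' (h : GQD q J A) (H : HM q J hh) (X : XD q J A hh ell C) :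
    ∑ x, (1 - hh x) * C x = (q + 1) / 2 * (q ^ 2 + 1) := by
  have e : ∀ x, (1 - hh x) * C x = ∑ p, ell p * (J p x - J p x * hh x) := by
    intro x; rw [X.Cdef, Finset.mul_sum]; exact Finset.sum_congr rfl fun p _ => by ring
  rw [Finset.sum_congr rfl fun x _ => e x, Finset.sum_comm,
    Finset.sum_congr rfl fun p _ => (Finset.mul_sum _ _ _).symm]
  simp only [Finset.sum_sub_distrib]
  rw [Finset.sum_congr rfl fun p _ => by rw [H.sumH p, h.sumJL p], ← Finset.sum_mul, X.sum_ell]
  ring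

theorem c_sq (X : XD q J A hh ell C) (p : P) :
    (∑ x, J p x * (hh x * C x)) ^ 2
      = ∑ x, J p x * (hh x * C x) + (q + 1) / 2 * ((q + 1) / 2 - 1) * ell p := by
  rcases X.ell01 p with e | e
  · rcases X.cp0 p e with e' | e' <;> rw [e', e] <;> ring
  · rw [X.cp1 p e, e]; ring

theorem c_le (X : XD q J A hh ell C) (p : P) :
    ∑ x, J p x * (hh x * C x) ≤ 1 + ((q + 1) / 2 - 1) * ell p := by
  rcases X.ell01 p with e | e
  · rcases X.cp0 p e with e' | e' <;> rw [e', e] <;> norm_num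
  · rw [X.cp1 p e, e]; linarith

theorem C_nn (h : GQD q J A) (X : XD q J A hh ell C) (x : L) : 0 ≤ C x := by
  rw [X.Cdef]
  refine Finset.sum_nonneg fun p _ => mul_nonneg ?_ (h.Jnn p x)
  rcases X.ell01 p with e | e <;> rw [e] <;> norm_num

/-- the number of neighbours in `X`. -/
def y (A : L → L → ℚ) (hh C : L → ℚ) (m : L) : ℚ := ∑ x, A m x * (hh x * C x)

theorem sum_c (h : GQD q J A) (m : L) (hm : hh m = 0) :
    ∑ p, J p m * ∑ x, J p x * (hh x * C x) = y A hh C m := by
  have := h.sum_A_mul m (fun x => hh x * C x)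
  unfold y
  rw [this, hm]; ring

theorem Ysum (h : GQD q J A) (H : HM q J hh) (X : XD q J A hh ell C) (p : P) :
    ∑ m, J p m * ((1 - hh m) * y A hh C m)
      = (q + 1) / 2 * ((q ^ 2 + 1) / 2) + (q ^ 2 + q) / 2 * ∑ x, J p x * (hh x * C x) := by
  have e1 : ∑ m, J p m * y A hh C m
      = (q + 1) / 2 * (q ^ 2 + 1) + (q - 1) * ∑ x, J p x * (hh x * C x) := by
    have s : ∀ m, J p m * y A hh C m = ∑ x, (hh x * C x) * (J p m * A m x) := by
      intro m; unfold y; rw [Finset.mul_sum]; exact Finset.sum_congr rfl fun x _ => by ring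
    rw [Finset.sum_congr rfl fun m _ => s m, Finset.sum_comm,
      Finset.sum_congr rfl fun x _ => (Finset.mul_sum _ _ _).symm]
    have s2 : ∀ x, hh x * C x * ∑ m, J p m * A m x
        = hh x * C x + (q - 1) * (J p x * (hh x * C x)) := by
      intro x; rw [h.JA]; ring
    rw [Finset.sum_congr rfl fun x _ => s2 x, Finset.sum_add_distrib, ← Finset.mul_sum,
      X.sumX h H]
  have e2 : ∑ m, J p m * (hh m * y A hh C m)
      = (q ^ 2 + 1) / 2 * ((q + 1) / 2)
        - (q ^ 2 - q + 2) / 2 * ∑ x, J p x * (hh x * C x) := by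
    have s : ∀ m, J p m * (hh m * y A hh C m)
        = (q ^ 2 + 1) / 2 * (J p m * hh m) - (q ^ 2 - q + 2) / 2 * (J p m * (hh m * C m)) := by
      intro m
      rcases H.h01 m with e | e
      · rw [e]; ring
      · unfold y; rw [X.CA m e, e]; ring
    rw [Finset.sum_congr rfl fun m _ => s m, Finset.sum_sub_distrib, ← Finset.mul_sum,
      ← Finset.mul_sum, H.sumH]
  have s : ∀ m, J p m * ((1 - hh m) * y A hh C m)
      = J p m * y A hh C m - J p m * (hh m * y A hh C m) := by intro m; ring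
  rw [Finset.sum_congr rfl fun m _ => s m, Finset.sum_sub_distrib, e1, e2]
  ring

theorem Qsum (h : GQD q J A) (H : HM q J hh) (X : XD q J A hh ell C) (m : L) (hm : hh m = 0) :
    ∑ w, A m w * y A hh C w ^ 2
      = (q + 1) * ((q + 1) / 2 * (q ^ 2 + 1)) ^ 2
        - 2 * q * ((q + 1) / 2 * (q ^ 2 + 1)) * y A hh C m + (q - 1) * y A hh C m ^ 2
        + q * ((q + 1) / 2 * (q ^ 2 + 1)) * ((q + 1) / 2 - 1) := by
  set N : ℚ := (q + 1) / 2 * (q ^ 2 + 1) with hN
  set Y : ℚ := y A hh C m with hY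
  have hNs := X.sumX h H
  rw [← hN] at hNs
  have e1 : ∑ w, A m w * y A hh C w ^ 2
      = ∑ x, (hh x * C x) * ∑ z, (hh z * C z) * ∑ w, A w m * A w x * A w z := by
    have s : ∀ w, A m w * y A hh C w ^ 2
        = ∑ x, ∑ z, (hh x * C x) * ((hh z * C z) * (A w m * A w x * A w z)) := by
      intro w
      unfold y
      rw [sq, Finset.sum_mul_sum, Finset.mul_sum]
      refine Finset.sum_congr rfl fun x _ => ?_
      rw [Finset.mul_sum]
      exact Finset.sum_congr rfl fun z _ => by rw [h.Asymm m w]; ring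
    rw [Finset.sum_congr rfl fun w _ => s w, Finset.sum_comm]
    refine Finset.sum_congr rfl fun x _ => ?_
    rw [Finset.sum_comm, Finset.mul_sum]
    refine Finset.sum_congr rfl fun z _ => ?_
    rw [Finset.mul_sum, Finset.mul_sum]
  rw [e1]
  have e2 : ∀ x, (hh x * C x) * ∑ z, (hh z * C z) * ∑ w, A w m * A w x * A w z
      = ((q + 1) * N - q * Y - q * ((q + 1) / 2 - 1) + q * (q - 1)) * (hh x * C x)
        + (-q * N + (q - 1) * Y + (q - 1) * ((q + 1) / 2 - 1) - (q - 1) ^ 2)
          * (A m x * (hh x * C x))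
        + (q - 1) * ((hh x * C x) * ∑ z, A m z * (A x z * (hh z * C z))) := by
    intro x
    rcases H.h01 x with ex | ex
    · rw [ex]; ring
    rcases X.CH01 x ex with cx | cx
    · rw [cx]; ring
    have hmx : dl m x = 0 := by
      apply dl_ne; rintro rfl; rw [hm] at ex; norm_num at ex
    have s : ∀ z, (hh z * C z) * ∑ w, A w m * A w x * A w z
        = ((q + 1) - q * A m x) * (hh z * C z)
          + (-q + (q - 1) * A m x) * (A m z * (hh z * C z))
          + (-q + (q - 1) * A m x) * (A x z * (hh z * C z))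
          + (q - 1) * (A m z * (A x z * (hh z * C z)))
          + (q * (q - 1) - (q - 1) ^ 2 * A m x) * (dl x z * (hh z * C z)) := by
      intro z
      have hmz : dl m z * hh z = 0 := by
        rw [dl_mul, hm]; ring
      rw [h.N3 m x z, hmx]
      linear_combination (q * (q - 1) - (q - 1) ^ 2 * A m x) * C z * hmz
    rw [Finset.sum_congr rfl fun z _ => s z]
    simp only [Finset.sum_add_distrib, ← Finset.mul_sum]
    rw [hNs, X.CA x ex, sum_dl_mul x (fun z => hh z * C z), ex, cx]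
    have hYY : ∑ z, A m z * (hh z * C z) = Y := rfl
    rw [hYY]
    ring
  rw [Finset.sum_congr rfl fun x _ => e2 x]
  simp only [Finset.sum_add_distrib, ← Finset.mul_sum]
  have e3 : ∑ x, (hh x * C x) * ∑ z, A m z * (A x z * (hh z * C z))
      = ((q + 1) / 2 - 1) * Y := by
    rw [Finset.sum_congr rfl fun x _ => Finset.mul_sum _ _ _, Finset.sum_comm]
    have s : ∀ z, ∑ x, (hh x * C x) * (A m z * (A x z * (hh z * C z)))
        = ((q + 1) / 2 - 1) * (A m z * (hh z * C z)) := by
      intro z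
      have s1 : ∑ x, (hh x * C x) * (A m z * (A x z * (hh z * C z)))
          = A m z * ((hh z * C z) * ∑ x, A z x * (hh x * C x)) := by
        rw [Finset.mul_sum, Finset.mul_sum]
        exact Finset.sum_congr rfl fun x _ => by rw [h.Asymm z x]; ring
      rw [s1]
      rcases H.h01 z with ez | ez
      · rw [ez]; ring
      rcases X.CH01 z ez with cz | cz
      · rw [cz]; ring
      rw [X.CA z ez, ez, cz]; ring
    rw [Finset.sum_congr rfl fun z _ => s z, ← Finset.mul_sum]
    rfl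
  have hYY : ∑ z, A m z * (hh z * C z) = Y := rfl
  rw [e3, hNs, hYY]
  ring

theorem Hpart (h : GQD q J A) (H : HM q J hh) (X : XD q J A hh ell C) (m : L) (hm : hh m = 0) :
    ∑ w, A m w * (hh w * y A hh C w ^ 2)
      = ((q ^ 2 + 1) / 2) ^ 2 * ((q + 1) / 2 * (q ^ 2 + 1))
        + (-2 * ((q ^ 2 + 1) / 2) * ((q ^ 2 - q + 2) / 2) + ((q ^ 2 - q + 2) / 2) ^ 2)
          * y A hh C m := by
  have s : ∀ w, A m w * (hh w * y A hh C w ^ 2)
      = ((q ^ 2 + 1) / 2) ^ 2 * (A m w * hh w)
        + (-2 * ((q ^ 2 + 1) / 2) * ((q ^ 2 - q + 2) / 2) + ((q ^ 2 - q + 2) / 2) ^ 2)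
          * (A m w * (hh w * C w)) := by
    intro w
    rcases H.h01 w with e | e
    · rw [e]; ring
    · have : y A hh C w = (q ^ 2 + 1) / 2 - (q ^ 2 - q + 2) / 2 * C w := X.CA w e
      rw [this, e]
      rcases X.CH01 w e with e' | e' <;> rw [e'] <;> ring
  rw [Finset.sum_congr rfl fun w _ => s w, Finset.sum_add_distrib, ← Finset.mul_sum,
    ← Finset.mul_sum, h.degH H, hm]
  unfold y
  ring

/-- the mean used in Cauchy-Schwarz -/
noncomputable def mu (q : ℚ) (J : P → L → ℚ) (A : L → L → ℚ) (hh C : L → ℚ) (m : L) (p : P) : ℚ :=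
  ((q + 1) / 2 * ((q ^ 2 + 1) / 2) + (q ^ 2 + q) / 2 * (∑ x, J p x * (hh x * C x))
    - y A hh C m) / ((q - 1) / 2)

/-- the slack in Cauchy-Schwarz -/
noncomputable def slack (q : ℚ) (J : P → L → ℚ) (A : L → L → ℚ) (hh C : L → ℚ) (m : L) : ℚ :=
  ∑ p, J p m * ∑ w, (J p w * (1 - hh w) * (1 - dl m w)) * (y A hh C w - mu q J A hh C m p) ^ 2

theorem slack_nn (h : GQD q J A) (H : HM q J hh) (m : L) : 0 ≤ slack q J A hh C m := by
  unfold slack
  refine Finset.sum_nonneg fun p _ => mul_nonneg (h.Jnn p m) (Finset.sum_nonneg fun w _ => ?_)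
  refine mul_nonneg (mul_nonneg (mul_nonneg (h.Jnn p w) ?_) ?_) (sq_nonneg _)
  · rcases H.h01 w with e | e <;> rw [e] <;> norm_num
  · by_cases e : m = w
    · rw [e, dl_self]; norm_num
    · rw [dl_ne e]; norm_num

theorem block_slack (h : GQD q J A) (H : HM q J hh) (X : XD q J A hh ell C) (m : L)
    (hm : hh m = 0) (p : P) :
    J p m * ∑ w, (J p w * (1 - hh w) * (1 - dl m w)) * (y A hh C w - mu q J A hh C m p) ^ 2
      = J p m * ∑ w, J p w * ((1 - hh w) * (1 - dl m w) * y A hh C w ^ 2)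
        - J p m * (((q + 1) / 2 * ((q ^ 2 + 1) / 2)
          + (q ^ 2 + q) / 2 * (∑ x, J p x * (hh x * C x)) - y A hh C m) ^ 2 / ((q - 1) / 2)) := by
  rcases h.J01 p m with e | e
  · rw [e]; ring
  rw [e]
  have hq : (q - 1) / 2 ≠ 0 := by have := h.qge; intro h0; linarith
  set μ := mu q J A hh C m p with hμ
  set D : ℚ := (q + 1) / 2 * ((q ^ 2 + 1) / 2)
          + (q ^ 2 + q) / 2 * (∑ x, J p x * (hh x * C x)) - y A hh C m with hD
  have hμD : μ = D / ((q - 1) / 2) := rfl
  have s : ∀ w, (J p w * (1 - hh w) * (1 - dl m w)) * (y A hh C w - μ) ^ 2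
      = J p w * ((1 - hh w) * (1 - dl m w) * y A hh C w ^ 2)
        - 2 * μ * (J p w * ((1 - hh w) * y A hh C w))
        + 2 * μ * (dl m w * (J p w * ((1 - hh w) * y A hh C w)))
        + μ ^ 2 * J p w - μ ^ 2 * (J p w * hh w)
        - μ ^ 2 * (dl m w * (J p w * (1 - hh w))) := by
    intro w; ring
  rw [Finset.sum_congr rfl fun w _ => s w]
  simp only [Finset.sum_add_distrib, Finset.sum_sub_distrib, ← Finset.mul_sum]
  rw [X.Ysum h H p, sum_dl_mul m (fun w => J p w * ((1 - hh w) * y A hh C w)), h.sumJL, H.sumH,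
    sum_dl_mul m (fun w => J p w * (1 - hh w)), e, hm]
  have hD' : (q + 1) / 2 * ((q ^ 2 + 1) / 2)
          + (q ^ 2 + q) / 2 * (∑ x, J p x * (hh x * C x)) = D + y A hh C m := by rw [hD]; ring
  have hDμ : D = (q - 1) / 2 * μ := by rw [hμD, mul_div_cancel₀ _ hq]
  have hDD : D ^ 2 / ((q - 1) / 2) = (q - 1) / 2 * μ ^ 2 := by
    rw [hDμ, div_eq_iff hq]; ring
  rw [hD', hDD]
  linear_combination (-2 * μ) * hDμ

theorem slack_eq (h : GQD q J A) (H : HM q J hh) (X : XD q J A hh ell C) (m : L)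
    (hm : hh m = 0) (w t : ℚ) (hw : w = y A hh C m - q ^ 2 - (q + 1) / 2) (ht : t = C m - 1) :
    (q - 1) / 2 * slack q J A hh C m
      = -((q + 1) * ((q - 1) / 2) * w * ((q - 1) / 2 * t - w)
        + q ^ 2 * ((q + 1) / 2) ^ 3 * ((q - 1) / 2 * t - w)
        + (q + 1) * ((q - 1) / 2) ^ 2 * w * (q ^ 2 - t)) := by
  have hq : (q - 1) / 2 ≠ 0 := by have := h.qge; intro h0; linarith
  unfold slack
  rw [Finset.sum_congr rfl fun p _ => X.block_slack h H m hm p]
  rw [Finset.sum_sub_distrib]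
  -- first part
  have e1 : ∑ p, J p m * ∑ w, J p w * ((1 - hh w) * (1 - dl m w) * y A hh C w ^ 2)
      = ∑ w, A m w * y A hh C w ^ 2 - ∑ w, A m w * (hh w * y A hh C w ^ 2) := by
    have := h.sum_A_mul m (fun w => (1 - hh w) * (1 - dl m w) * y A hh C w ^ 2)
    rw [dl_self] at this
    have e : ∑ p, J p m * ∑ w, J p w * ((1 - hh w) * (1 - dl m w) * y A hh C w ^ 2)
        = ∑ w, A m w * ((1 - hh w) * (1 - dl m w) * y A hh C w ^ 2) := by
      rw [this]; ring
    rw [e, ← Finset.sum_sub_distrib]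
    refine Finset.sum_congr rfl fun w _ => ?_
    have hd := h.dl_A m w
    linear_combination (-(1 - hh w) * y A hh C w ^ 2) * hd
  rw [e1, X.Qsum h H m hm, X.Hpart h H m hm]
  -- second part
  have e2 : ∑ p, J p m * (((q + 1) / 2 * ((q ^ 2 + 1) / 2)
          + (q ^ 2 + q) / 2 * (∑ x, J p x * (hh x * C x)) - y A hh C m) ^ 2 / ((q - 1) / 2))
      = ((q ^ 2 + 1) * ((q + 1) / 2 * ((q ^ 2 + 1) / 2) - y A hh C m) ^ 2
        + 2 * ((q + 1) / 2 * ((q ^ 2 + 1) / 2) - y A hh C m) * ((q ^ 2 + q) / 2) * y A hh C m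
        + ((q ^ 2 + q) / 2) ^ 2 * (y A hh C m + (q + 1) / 2 * ((q + 1) / 2 - 1) * C m))
          / ((q - 1) / 2) := by
    have s : ∀ p, J p m * (((q + 1) / 2 * ((q ^ 2 + 1) / 2)
          + (q ^ 2 + q) / 2 * (∑ x, J p x * (hh x * C x)) - y A hh C m) ^ 2 / ((q - 1) / 2))
        = (((q + 1) / 2 * ((q ^ 2 + 1) / 2) - y A hh C m) ^ 2 / ((q - 1) / 2)) * J p m
          + ((2 * ((q + 1) / 2 * ((q ^ 2 + 1) / 2) - y A hh C m) * ((q ^ 2 + q) / 2)
            + ((q ^ 2 + q) / 2) ^ 2) / ((q - 1) / 2)) * (J p m * ∑ x, J p x * (hh x * C x))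
          + (((q ^ 2 + q) / 2) ^ 2 * ((q + 1) / 2 * ((q + 1) / 2 - 1)) / ((q - 1) / 2))
            * (ell p * J p m) := by
      intro p
      have hc := X.c_sq p
      have : ((q + 1) / 2 * ((q ^ 2 + 1) / 2)
          + (q ^ 2 + q) / 2 * (∑ x, J p x * (hh x * C x)) - y A hh C m) ^ 2
          = ((q + 1) / 2 * ((q ^ 2 + 1) / 2) - y A hh C m) ^ 2
            + (2 * ((q + 1) / 2 * ((q ^ 2 + 1) / 2) - y A hh C m) * ((q ^ 2 + q) / 2)
            + ((q ^ 2 + q) / 2) ^ 2) * (∑ x, J p x * (hh x * C x))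
            + ((q ^ 2 + q) / 2) ^ 2 * ((q + 1) / 2 * ((q + 1) / 2 - 1)) * ell p := by
        linear_combination (((q ^ 2 + q) / 2) ^ 2) * hc
      rw [this]; ring
    rw [Finset.sum_congr rfl fun p _ => s p]
    simp only [Finset.sum_add_distrib, ← Finset.mul_sum]
    rw [h.sumJP, sum_c h m hm, ← X.Cdef]
    ring
  rw [e2, mul_sub, mul_div_cancel₀ _ hq]
  rw [hw, ht]
  ring

theorem y_le (h : GQD q J A) (X : XD q J A hh ell C) (m : L) (hm : hh m = 0) :
    y A hh C m ≤ (q ^ 2 + 1) + ((q + 1) / 2 - 1) * C m := by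
  rw [← sum_c h m hm]
  have : ∑ p, J p m * (1 + ((q + 1) / 2 - 1) * ell p)
      = (q ^ 2 + 1) + ((q + 1) / 2 - 1) * C m := by
    have s : ∀ p, J p m * (1 + ((q + 1) / 2 - 1) * ell p)
        = J p m + ((q + 1) / 2 - 1) * (ell p * J p m) := by intro p; ring
    rw [Finset.sum_congr rfl fun p _ => s p, Finset.sum_add_distrib, ← Finset.mul_sum, h.sumJP,
      ← X.Cdef]
  rw [← this]
  exact Finset.sum_le_sum fun p _ => mul_le_mul_of_nonneg_left (X.c_le p) (h.Jnn p m)

theorem C_le (h : GQD q J A) (X : XD q J A hh ell C) (m : L) : C m ≤ q ^ 2 + 1 := by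
  rw [X.Cdef, ← X.sum_ell]
  refine Finset.sum_le_sum fun p _ => ?_
  rcases X.ell01 p with e | e
  · rw [e]; simp
  · rw [e]; rcases h.J01 p m with e' | e' <;> rw [e'] <;> norm_num

/-- If `C m = q^2+1` then the block set is the pencil of `m`. -/
theorem triv_of (h : GQD q J A) (X : XD q J A hh ell C) (m : L) (hC : C m = q ^ 2 + 1) :
    ∀ p, ell p = J p m := by
  have e1 : ∑ p, (ell p - J p m) ^ 2 = 0 := by
    have s : ∀ p, (ell p - J p m) ^ 2 = ell p - 2 * (ell p * J p m) + J p m := by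
      intro p
      rcases X.ell01 p with e | e <;> rcases h.J01 p m with e' | e' <;> rw [e, e'] <;> norm_num
    rw [Finset.sum_congr rfl fun p _ => s p]
    simp only [Finset.sum_add_distrib, Finset.sum_sub_distrib, ← Finset.mul_sum]
    rw [X.sum_ell, ← X.Cdef, hC, h.sumJP]; ring
  intro p
  have e2 := (Finset.sum_eq_zero_iff_of_nonneg (fun p _ => sq_nonneg (ell p - J p m))).mp e1 p
    (Finset.mem_univ p)
  have e3 : ell p - J p m = 0 := pow_eq_zero_iff (two_ne_zero) |>.mp e2
  linarith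

/-- the key step. -/
theorem key (h : GQD q J A) (H : HM q J hh) (X : XD q J A hh ell C) (m : L)
    (hm : hh m = 0) (hC : 1 ≤ C m) (hy : q ^ 2 + (q + 1) / 2 ≤ y A hh C m) :
    C m = q ^ 2 + 1 ∨ (C m = 1 ∧ y A hh C m = q ^ 2 + (q + 1) / 2) := by
  have hq := h.qge
  obtain ⟨w, hw⟩ : ∃ w, w = y A hh C m - q ^ 2 - (q + 1) / 2 := ⟨_, rfl⟩
  obtain ⟨t, ht⟩ : ∃ t, t = C m - 1 := ⟨_, rfl⟩
  have e1 := X.slack_eq h H m hm w t hw ht
  have e2 := slack_nn (C := C) h H m
  have hw0 : 0 ≤ w := by rw [hw]; linarith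
  have ht0 : 0 ≤ t := by rw [ht]; linarith
  have hb1 : 0 ≤ (q - 1) / 2 * t - w := by
    have := X.y_le h m hm
    rw [hw, ht]; linarith
  have hb2 : 0 ≤ q ^ 2 - t := by
    have := X.C_le h m
    rw [ht]; linarith
  have hq1 : 0 < (q - 1) / 2 := by linarith
  have p1 : 0 ≤ (q + 1) * ((q - 1) / 2) * w * ((q - 1) / 2 * t - w) := by positivity
  have p2 : 0 ≤ q ^ 2 * ((q + 1) / 2) ^ 3 * ((q - 1) / 2 * t - w) := by positivity
  have p3 : 0 ≤ (q + 1) * ((q - 1) / 2) ^ 2 * w * (q ^ 2 - t) := by positivity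
  have p0 : 0 ≤ (q - 1) / 2 * slack q J A hh C m := mul_nonneg hq1.le e2
  have z2 : q ^ 2 * ((q + 1) / 2) ^ 3 * ((q - 1) / 2 * t - w) = 0 := by linarith
  have z3 : (q + 1) * ((q - 1) / 2) ^ 2 * w * (q ^ 2 - t) = 0 := by linarith
  have z2' : (q - 1) / 2 * t - w = 0 := by
    rcases mul_eq_zero.mp z2 with e | e
    · exfalso
      have : 0 < q ^ 2 * ((q + 1) / 2) ^ 3 := by positivity
      linarith
    · exact e
  rcases mul_eq_zero.mp z3 with e | e
  · right
    rcases mul_eq_zero.mp e with e | e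
    · exfalso
      have : 0 < (q + 1) * ((q - 1) / 2) ^ 2 := by positivity
      linarith
    · have ht1 : (q - 1) / 2 * t = 0 := by linarith
      rcases mul_eq_zero.mp ht1 with e' | e'
      · exfalso; linarith
      · constructor
        · linarith
        · linarith
  · left; linarith

/-- slack zero means all `y` are the mean. -/
theorem eq_mu (h : GQD q J A) (H : HM q J hh) (m : L) (hs : slack q J A hh C m = 0)
    (p : P) (hp : J p m = 1) (w : L) (hw : J p w = 1) (hhw : hh w = 0) (hne : m ≠ w) :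
    y A hh C w = mu q J A hh C m p := by
  unfold slack at hs
  have nn : ∀ p w, 0 ≤ (J p w * (1 - hh w) * (1 - dl m w)) *
      (y A hh C w - mu q J A hh C m p) ^ 2 := by
    intro p w
    refine mul_nonneg (mul_nonneg (mul_nonneg (h.Jnn p w) ?_) ?_) (sq_nonneg _)
    · rcases H.h01 w with e | e <;> rw [e] <;> norm_num
    · by_cases e : m = w
      · rw [e, dl_self]; norm_num
      · rw [dl_ne e]; norm_num
  have e1 := (Finset.sum_eq_zero_iff_of_nonneg (fun p _ => mul_nonneg (h.Jnn p m)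
    (Finset.sum_nonneg fun w _ => nn p w))).mp hs p (Finset.mem_univ p)
  rw [hp, one_mul] at e1
  have e2 := (Finset.sum_eq_zero_iff_of_nonneg (fun w _ => nn p w)).mp e1 w (Finset.mem_univ w)
  rw [hw, hhw, dl_ne hne] at e2
  have e3 : (y A hh C w - mu q J A hh C m p) ^ 2 = 0 := by linarith
  have e4 : y A hh C w - mu q J A hh C m p = 0 := pow_eq_zero_iff (two_ne_zero) |>.mp e3
  linarith

/-- The dichotomy. -/
theorem dichotomy (h : GQD q J A) (H : HM q J hh) (X : XD q J A hh ell C) :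
    (∃ m, hh m = 0 ∧ ∀ p, ell p = J p m) ∨
    ((∀ w, hh w = 0 → C w = 0 ∨ C w = 1) ∧
      ∀ p, ∑ x, J p x * ((1 - hh x) * C x) = ∑ x, J p x * (hh x * C x)) := by
  by_cases htriv : ∃ m, hh m = 0 ∧ C m = q ^ 2 + 1
  · left
    obtain ⟨m, hm, hC⟩ := htriv
    exact ⟨m, hm, X.triv_of h m hC⟩
  right
  have hq := h.qge
  -- C ≥ 1 on blocks of the set
  have hC1 : ∀ p, ell p = 1 → ∀ m, J p m = 1 → 1 ≤ C m := by
    intro p hp m hm
    rw [X.Cdef]
    have : ell p * J p m ≤ ∑ p, ell p * J p m :=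
      Finset.single_le_sum (f := fun p => ell p * J p m) (fun p _ => by
        rcases X.ell01 p with e | e
        · rw [e]; simp
        · rw [e, one_mul]; exact h.Jnn p m) (Finset.mem_univ p)
    rw [hp, hm] at this; linarith
  -- on such blocks, y is constant
  have hyb : ∀ p, ell p = 1 → ∀ m, J p m = 1 → hh m = 0 →
      y A hh C m = q ^ 2 + (q + 1) / 2 := by
    intro p hp
    have hle : ∀ m, J p m = 1 → hh m = 0 → y A hh C m ≤ q ^ 2 + (q + 1) / 2 := by
      intro m hm hhm
      by_contra hcon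
      push Not at hcon
      rcases X.key h H m hhm (hC1 p hp m hm) hcon.le with e | e
      · exact htriv ⟨m, hhm, e⟩
      · linarith [e.2]
    have hsum : ∑ m, J p m * ((1 - hh m) * (q ^ 2 + (q + 1) / 2 - y A hh C m)) = 0 := by
      have s : ∀ m, J p m * ((1 - hh m) * (q ^ 2 + (q + 1) / 2 - y A hh C m))
          = (q ^ 2 + (q + 1) / 2) * J p m - (q ^ 2 + (q + 1) / 2) * (J p m * hh m)
            - J p m * ((1 - hh m) * y A hh C m) := by intro m; ring
      rw [Finset.sum_congr rfl fun m _ => s m]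
      simp only [Finset.sum_sub_distrib, ← Finset.mul_sum]
      rw [h.sumJL, H.sumH, X.Ysum h H, X.cp1 p hp]; ring
    intro m hm hhm
    have nn : ∀ m ∈ Finset.univ, 0 ≤ J p m * ((1 - hh m) * (q ^ 2 + (q + 1) / 2 - y A hh C m)) := by
      intro m _
      rcases h.J01 p m with e | e
      · rw [e]; simp
      rcases H.h01 m with e' | e'
      · rw [e, e']
        have := hle m e e'
        linarith
      · rw [e']; simp
    have e1 := (Finset.sum_eq_zero_iff_of_nonneg nn).mp hsum m (Finset.mem_univ m)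
    rw [hm, hhm] at e1
    linarith
  have hCb : ∀ p, ell p = 1 → ∀ m, J p m = 1 → hh m = 0 → C m = 1 := by
    intro p hp m hm hhm
    rcases X.key h H m hhm (hC1 p hp m hm) (hyb p hp m hm hhm).ge with e | e
    · exact absurd ⟨m, hhm, e⟩ htriv
    · exact e.1
  -- E1
  have E1 : ∀ w, hh w = 0 → C w = 0 ∨ C w = 1 := by
    intro w hw
    by_cases hex : ∃ p, ell p = 1 ∧ J p w = 1
    · obtain ⟨p, hp, hpw⟩ := hex
      exact Or.inr (hCb p hp w hpw hw)
    · left
      rw [X.Cdef]
      apply Finset.sum_eq_zero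
      intro p _
      rcases X.ell01 p with e | e
      · rw [e]; ring
      · rcases h.J01 p w with e' | e'
        · rw [e']; ring
        · exact absurd ⟨p, e, e'⟩ hex
  have hyC : ∀ w, hh w = 0 → C w = 1 → y A hh C w = q ^ 2 + (q + 1) / 2 := by
    intro w hw hC
    have : ∃ p, ell p = 1 ∧ J p w = 1 := by
      by_contra hex
      have : C w = 0 := by
        rw [X.Cdef]
        apply Finset.sum_eq_zero
        intro p _
        rcases X.ell01 p with e | e
        · rw [e]; ring
        · rcases h.J01 p w with e' | e'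
          · rw [e']; ring
          · exact absurd ⟨p, e, e'⟩ hex
      rw [this] at hC; norm_num at hC
    obtain ⟨p, hp, hpw⟩ := this
    exact hyb p hp w hpw hw
  refine ⟨E1, ?_⟩
  -- blocks of the set
  have hd1 : ∀ p, ell p = 1 → ∑ x, J p x * ((1 - hh x) * C x) = (q + 1) / 2 := by
    intro p hp
    have s : ∀ x, J p x * ((1 - hh x) * C x) = J p x - J p x * hh x := by
      intro x
      rcases h.J01 p x with e | e
      · rw [e]; ring
      rcases H.h01 x with e' | e'
      · rw [hCb p hp x e e', e']; ring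
      · rw [e']; ring
    rw [Finset.sum_congr rfl fun x _ => s x, Finset.sum_sub_distrib, h.sumJL, H.sumH]; ring
  -- other blocks
  have hd0 : ∀ p, ell p = 0 →
      ∑ x, J p x * ((1 - hh x) * C x) ≤ ∑ x, J p x * (hh x * C x) := by
    intro p hp
    by_cases hex : ∃ m, J p m = 1 ∧ hh m = 0 ∧ C m = 1
    · obtain ⟨m, hpm, hhm, hCm⟩ := hex
      have hym := hyC m hhm hCm
      -- c p = 1
      have hcp : ∑ x, J p x * (hh x * C x) = 1 := by
        have e1 : ∑ p, J p m * (1 + ((q + 1) / 2 - 1) * ell p - ∑ x, J p x * (hh x * C x)) = 0 := by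
          have s : ∀ p, J p m * (1 + ((q + 1) / 2 - 1) * ell p - ∑ x, J p x * (hh x * C x))
              = J p m + ((q + 1) / 2 - 1) * (ell p * J p m)
                - J p m * ∑ x, J p x * (hh x * C x) := by intro p; ring
          rw [Finset.sum_congr rfl fun p _ => s p]
          simp only [Finset.sum_sub_distrib, Finset.sum_add_distrib, ← Finset.mul_sum]
          rw [h.sumJP, ← X.Cdef, sum_c h m hhm, hym, hCm]; ring
        have e2 := (Finset.sum_eq_zero_iff_of_nonneg (fun p _ => mul_nonneg (h.Jnn p m)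
          (sub_nonneg.mpr (X.c_le p)))).mp e1 p (Finset.mem_univ p)
        rw [hpm, hp] at e2
        linarith
      -- slack zero
      have hs : slack q J A hh C m = 0 := by
        have e1 := X.slack_eq h H m hhm 0 0 (by rw [hym]; ring) (by rw [hCm]; ring)
        have hq1 : (q - 1) / 2 ≠ 0 := by intro h0; linarith
        have e2 : (q - 1) / 2 * slack q J A hh C m = 0 := by rw [e1]; ring
        rcases mul_eq_zero.mp e2 with e | e
        · exact absurd e hq1
        · exact e
      have hother : ∀ w, J p w = 1 → hh w = 0 → m ≠ w → C w = 0 := by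
        intro w hpw hhw hne
        rcases E1 w hhw with e | e
        · exact e
        · exfalso
          have e1 := eq_mu h H m hs p hpm w hpw hhw hne
          rw [hyC w hhw e] at e1
          unfold mu at e1
          rw [hcp, hym] at e1
          have hq1 : (q - 1) / 2 ≠ 0 := by intro h0; linarith
          rw [eq_div_iff hq1] at e1
          have : (q - 1) * (q + 1) * q = 0 := by linear_combination 4 * e1
          have h3 : 0 < (q - 1) * (q + 1) * q := by
            have : 0 < q - 1 := by linarith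
            have : 0 < q + 1 := by linarith
            have : 0 < q := by linarith
            positivity
          linarith
      rw [hcp]
      have : ∑ x, J p x * ((1 - hh x) * C x) = 1 := by
        have s : ∀ x, J p x * ((1 - hh x) * C x) = dl m x * 1 := by
          intro x
          by_cases e : m = x
          · subst e; rw [dl_self, hpm, hhm, hCm]; ring
          rw [dl_ne e]
          rcases h.J01 p x with e' | e'
          · rw [e']; ring
          rcases H.h01 x with e'' | e''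
          · rw [hother x e' e'' e]; ring
          · rw [e'']; ring
        rw [Finset.sum_congr rfl fun x _ => s x, sum_dl_mul m (fun _ => 1)]
      rw [this]
    · have : ∑ x, J p x * ((1 - hh x) * C x) = 0 := by
        apply Finset.sum_eq_zero
        intro x _
        rcases h.J01 p x with e' | e'
        · rw [e']; ring
        rcases H.h01 x with e'' | e''
        · rcases E1 x e'' with e | e
          · rw [e]; ring
          · exact absurd ⟨x, e', e'', e⟩ hex
        · rw [e'']; ring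
      rw [this]
      rcases X.cp0 p hp with e | e <;> rw [e]; norm_num
  -- total counts
  have htot : ∑ p, (∑ x, J p x * (hh x * C x) - ∑ x, J p x * ((1 - hh x) * C x)) = 0 := by
    rw [Finset.sum_sub_distrib, h.sum_blocks, h.sum_blocks, X.sumX h H, X.sumX' h H]; ring
  intro p
  have nn : ∀ p ∈ Finset.univ,
      0 ≤ ∑ x, J p x * (hh x * C x) - ∑ x, J p x * ((1 - hh x) * C x) := by
    intro p _
    rcases X.ell01 p with e | e
    · linarith [hd0 p e]
    · rw [hd1 p e, X.cp1 p e]; linarith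
  have e1 := (Finset.sum_eq_zero_iff_of_nonneg nn).mp htot p (Finset.mem_univ p)
  linarith

end XD

end Pool.Agent.helper56.Hemi
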