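import Pool.Agent.helper56.Hemi.Three

set_option autoImplicit false

namespace Pool.Agent.helper56.Hemi

open Finset

open Classical in
/-- incidence function -/
noncomputable def Jf {P L : Type} (I : P → L → Prop) (p : P) (x : L) : ℚ :=
  if I p x then 1 else 0

open Classical in
/-- concurrency function -/
noncomputable def Af {P L : Type} (I : P → L → Prop) (x y : L) : ℚ :=
  if x ≠ y ∧ ∃ p, I p x ∧ I p y then 1 else 0

open Classical in
/-- indicator function of `H` -/
noncomputable def hf {L : Type} (H : Set L) (x : L) : ℚ := if x ∈ H then 1 else 0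

theorem Jf1 {P L : Type} {I : P → L → Prop} {p : P} {x : L} : Jf I p x = 1 ↔ I p x := by
  unfold Jf; split_ifs with h <;> simp [h]

theorem Jf0 {P L : Type} {I : P → L → Prop} {p : P} {x : L} : Jf I p x = 0 ↔ ¬ I p x := by
  unfold Jf; split_ifs with h <;> simp [h]

theorem Af1 {P L : Type} {I : P → L → Prop} {x y : L} :
    Af I x y = 1 ↔ (x ≠ y ∧ ∃ p, I p x ∧ I p y) := by
  unfold Af; split_ifs with h <;> simp [h]

theorem Af0 {P L : Type} {I : P → L → Prop} {x y : L} :
    Af I x y = 0 ↔ ¬ (x ≠ y ∧ ∃ p, I p x ∧ I p y) := by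
  unfold Af; split_ifs with h <;> simp [h]

theorem hf1 {L : Type} {H : Set L} {x : L} : hf H x = 1 ↔ x ∈ H := by
  unfold hf; split_ifs with h <;> simp [h]

theorem hf0 {L : Type} {H : Set L} {x : L} : hf H x = 0 ↔ x ∉ H := by
  unfold hf; split_ifs with h <;> simp [h]

theorem sum_ind {X : Type} [Fintype X] (p : X → Prop) [DecidablePred p] :
    ∑ x, (if p x then (1 : ℚ) else 0) = ({x | p x}.ncard : ℚ) := by
  rw [Finset.sum_boole, Set.ncard_eq_toFinset_card']
  simp [Set.toFinset_setOf]

section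
variable {P L : Type} [Fintype P] [Fintype L] {I : P → L → Prop} {s : ℕ} {H : Set L}

theorem mkGQD (hs : 3 ≤ s) (line_card : ∀ l, {p | I p l}.ncard = s ^ 2 + 1)
    (point_card : ∀ p, {l | I p l}.ncard = s + 1)
    (unique_line : ∀ p q, p ≠ q → ∀ l m, I p l → I q l → I p m → I q m → l = m)
    (one_collinear : ∀ p l, ¬ I p l → ∃! q, I q l ∧ ∃ m, I p m ∧ I q m) :
    GQD (s : ℚ) (Jf I) (Af I) where
  qge := by exact_mod_cast hs
  J01 p x := by unfold Jf; split_ifs <;> simp
  A01 x y := by unfold Af; split_ifs <;> simp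
  Axx x := by rw [Af0]; simp
  Asymm x y := by
    unfold Af
    congr 1
    apply propext
    constructor
    · rintro ⟨h, p, h1, h2⟩; exact ⟨h.symm, p, h2, h1⟩
    · rintro ⟨h, p, h1, h2⟩; exact ⟨h.symm, p, h2, h1⟩
  sumJP x := by
    classical
    have := sum_ind (fun p => I p x)
    unfold Jf
    rw [this, line_card]; push_cast; ring
  sumJL p := by
    classical
    have := sum_ind (fun x => I p x)
    unfold Jf
    rw [this, point_card]; push_cast; ring
  JJ x y := by
    classical
    by_cases e : x = y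
    · subst e
      have h0 : Af I x x = 0 := by rw [Af0]; simp
      have h1 : ∀ p, Jf I p x * Jf I p x = if I p x then (1 : ℚ) else 0 := by
        intro p; unfold Jf; split_ifs <;> norm_num
      rw [dl_self, h0, Finset.sum_congr rfl fun p _ => h1 p, sum_ind (fun p => I p x), line_card]
      push_cast; ring
    · rw [dl_ne e]
      by_cases hex : ∃ p, I p x ∧ I p y
      · have h1 : Af I x y = 1 := Af1.mpr ⟨e, hex⟩
        obtain ⟨p0, hx, hy⟩ := hex
        rw [h1, Finset.sum_eq_single p0]
        · rw [Jf1.mpr hx, Jf1.mpr hy]; ring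
        · intro p _ hp
          by_cases hpx : I p x
          · by_cases hpy : I p y
            · exact absurd (unique_line p p0 hp x y hpx hx hpy hy) e
            · rw [Jf0.mpr hpy]; ring
          · rw [Jf0.mpr hpx]; ring
        · intro hx; exact absurd (Finset.mem_univ _) hx
      · have h1 : Af I x y = 0 := Af0.mpr (fun h => hex h.2)
        rw [h1, Finset.sum_eq_zero]
        · ring
        · intro p _
          by_cases hpx : I p x
          · by_cases hpy : I p y
            · exact absurd ⟨p, hpx, hpy⟩ hex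
            · rw [Jf0.mpr hpy]; ring
          · rw [Jf0.mpr hpx]; ring
  JA p x := by
    classical
    by_cases hpx : I p x
    · have h1 : ∀ y, Jf I p y * Af I y x = Jf I p y - dl x y * Jf I p y := by
        intro y
        by_cases hpy : I p y
        · by_cases e : x = y
          · subst e
            have h0 : Af I x x = 0 := by rw [Af0]; simp
            rw [h0, dl_self]; ring
          · have h0 : Af I y x = 1 := Af1.mpr ⟨Ne.symm e, p, hpy, hpx⟩
            rw [h0, dl_ne e]; ring
        · rw [Jf0.mpr hpy]; ring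
      rw [Finset.sum_congr rfl fun y _ => h1 y, Finset.sum_sub_distrib, sum_dl_mul,
        Jf1.mpr hpx]
      have := sum_ind (fun x => I p x)
      have h2 : ∑ x, Jf I p x = s + 1 := by
        unfold Jf
        rw [this, point_card]; push_cast; ring
      rw [h2]; ring
    · obtain ⟨r, ⟨hrx, l0, hpl, hrl⟩, hun⟩ := one_collinear p x hpx
      have hpr : p ≠ r := by rintro rfl; exact hpx hrx
      have h1 : ∀ y, Jf I p y * Af I y x = dl l0 y * 1 := by
        intro y
        by_cases e : l0 = y
        · subst e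
          have hne : l0 ≠ x := by rintro rfl; exact hpx hpl
          rw [dl_self, Jf1.mpr hpl, Af1.mpr ⟨hne, r, hrl, hrx⟩]
        · rw [dl_ne e]
          by_cases hpy : I p y
          · have h0 : Af I y x = 0 := by
              rw [Af0]
              rintro ⟨_, r', hr'y, hr'x⟩
              have hr : r' = r := hun r' ⟨hr'x, y, hpy, hr'y⟩
              subst hr
              exact e (unique_line p r' hpr l0 y hpl hrl hpy hr'y)
            rw [h0]; ring
          · rw [Jf0.mpr hpy]; ring
      rw [Finset.sum_congr rfl fun y _ => h1 y, sum_dl_mul l0 (fun _ => 1), Jf0.mpr hpx]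
      ring

theorem mkHM (hodd : Odd s) (hH : ∀ p, {l | l ∈ H ∧ I p l}.ncard = (s + 1) / 2) :
    HM (s : ℚ) (Jf I) (hf H) where
  h01 x := by unfold hf; split_ifs <;> simp
  sumH p := by
    classical
    have h1 : ∀ x, Jf I p x * hf H x = if (x ∈ H ∧ I p x) then (1 : ℚ) else 0 := by
      intro x
      by_cases hx : x ∈ H
      · by_cases hp : I p x
        · rw [Jf1.mpr hp, hf1.mpr hx, if_pos ⟨hx, hp⟩]; ring
        · rw [Jf0.mpr hp, if_neg (fun h => hp h.2)]; ring
      · rw [hf0.mpr hx, if_neg (fun h => hx h.1)]; ring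
    rw [Finset.sum_congr rfl fun x _ => h1 x, sum_ind (fun x => x ∈ H ∧ I p x), hH]
    obtain ⟨k, hk⟩ := hodd
    have : (s + 1) / 2 = k + 1 := by omega
    rw [this, hk]; push_cast; ring

/-- sums of 0/1 functions are natural numbers. -/
theorem sum_nat {X : Type} [Fintype X] {F : X → ℚ} (h : ∀ x, F x = 0 ∨ F x = 1) :
    ∃ N : ℕ, ∑ x, F x = (N : ℚ) := by
  classical
  have h1 : ∀ x, ∃ n : ℕ, F x = n := by
    intro x
    rcases h x with e | e
    · exact ⟨0, by rw [e]; simp⟩
    · exact ⟨1, by rw [e]; simp⟩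
  choose n hn using h1
  exact ⟨∑ x, n x, by push_cast; exact Finset.sum_congr rfl fun x _ => hn x⟩

/-- No three. -/
theorem no_three {A : L → L → ℚ} {J : P → L → ℚ} {hh : L → ℚ} (hs : 3 ≤ s)
    (h : GQD (s : ℚ) J A) (H : HM (s : ℚ) J hh)
    {f g : Equiv.Perm P} {φ γ : Equiv.Perm L} (a : AU J hh f φ) (b : AU J hh g γ) (b0 : P)
    (hf : ∀ m, hh m = 0 → Exo J hh f m) (hg : ∀ m, hh m = 0 → Exo J hh g m)
    (hfg : ∀ m, hh m = 0 → Exo J hh (f * g) m) : False := by
  obtain ⟨p, m1, m3, c⟩ := AU.conf_exists h H b b0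
  have e := AU.three h H a b c (hf m1 c.hm1) (hg m3 c.hm3) (hfg m3 c.hm3)
  have h01 : ∀ w, (1 - hh w) * (A (φ p) w * (CC J f w m1 * CC J (f * g) w m3)) = 0 ∨
      (1 - hh w) * (A (φ p) w * (CC J f w m1 * CC J (f * g) w m3)) = 1 := by
    intro w
    rcases H.h01 w with e0 | e0
    · rcases h.A01 (φ p) w with e1 | e1
      · left; rw [e1]; ring
      rcases (hf m1 c.hm1).1 w e0 with e2 | e2
      · left; rw [e2]; ring
      rcases (hfg m3 c.hm3).1 w e0 with e3 | e3
      · left; rw [e3]; ring
      · right; rw [e0, e1, e2, e3]; ring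
    · left; rw [e0]; ring
  obtain ⟨N, hN⟩ := sum_nat h01
  have hε : ∃ ε : ℕ, CC J g m1 m3 = ε := by
    rcases (hg m3 c.hm3).1 m1 c.hm1 with e | e
    · exact ⟨0, by rw [e]; simp⟩
    · exact ⟨1, by rw [e]; simp⟩
  obtain ⟨ε, hε⟩ := hε
  rw [hN, hε] at e
  have e' : ((s : ℤ) + 1) * N = 2 * (s : ℤ) ^ 2 + ((s : ℤ) + 1) * s * ε := by exact_mod_cast e
  have e2 : ((s : ℤ) + 1) * (N - s * ε - 2 * (s - 1)) = 2 := by linear_combination e'
  have e3 : ((s : ℤ) + 1) ∣ 2 := ⟨_, e2.symm⟩
  have e4 := Int.le_of_dvd (by norm_num) e3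
  have : (3 : ℤ) ≤ s := by exact_mod_cast hs
  linarith

end

end Pool.Agent.helper56.Hemi
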