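import Pool.Agent.helper56.Hemi.Count
import Pool.Agent.helper56.Hemi.Glue

set_option autoImplicit false

namespace Pool.Agent.helper56.Hemi

open Finset

section
variable {P L : Type} [Fintype P] [Fintype L] {q : ℚ} {J : P → L → ℚ} {A : L → L → ℚ}
  {hh : L → ℚ}

/-- indicator of the vertices `z` adjacent to `e` and not to `x`, `y` -/
noncomputable def ze (A : L → L → ℚ) (x y e z : L) : ℚ :=
  A z e - A z e * A z x - A z e * A z y - dl x z - dl y z

/-- indicator of the other common neighbours of `x`, `y` -/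
noncomputable def be (A : L → L → ℚ) (hh : L → ℚ) (x y e w : L) : ℚ :=
  (1 - hh w) * (1 - dl e w) * (A w x * A w y)

theorem ze_cases (h : GQD q J A) {x y e : L} (hne : x ≠ y) (hxy : A x y = 0) (hxe : A x e = 1)
    (hye : A y e = 1) (z : L) :
    ze A x y e z = 0 ∨ (ze A x y e z = 1 ∧ A z e = 1 ∧ z ≠ x ∧ z ≠ y ∧ A z x = 0 ∧ A z y = 0) := by
  have hex : A e x = 1 := by rw [h.Asymm]; exact hxe
  have hey : A e y = 1 := by rw [h.Asymm]; exact hye
  unfold ze
  by_cases e1 : z = x
  · left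
    rw [e1, hxe, h.Axx, hxy, dl_self, dl_ne (Ne.symm hne)]; ring
  by_cases e2 : z = y
  · left
    rw [e2, hye, h.Axx, h.Asymm y x, hxy, dl_self, dl_ne hne]; ring
  rw [dl_ne (Ne.symm e1), dl_ne (Ne.symm e2)]
  rcases h.A01 z e with a | a
  · left; rw [a]; ring
  rcases h.A01 z x with b | b
  · rcases h.A01 z y with c | c
    · right
      refine ⟨?_, a, e1, e2, b, c⟩
      rw [a, b, c]; ring
    · left; rw [a, b, c]; ring
  · rcases h.A01 z y with c | c
    · left; rw [a, b, c]; ring
    · exfalso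
      have := nonadj h hne hxy b c hex hey
      rw [a] at this; norm_num at this

theorem be_cases (h : GQD q J A) (H : HM q J hh) {x y e : L} (w : L) :
    be A hh x y e w = 0 ∨
      (be A hh x y e w = 1 ∧ hh w = 0 ∧ e ≠ w ∧ A w x = 1 ∧ A w y = 1) := by
  unfold be
  rcases H.h01 w with a | a
  · by_cases e1 : e = w
    · left; rw [e1, dl_self]; ring
    rcases h.A01 w x with b | b
    · left; rw [b]; ring
    rcases h.A01 w y with c | c
    · left; rw [c]; ring
    right
    refine ⟨?_, a, e1, b, c⟩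
    rw [a, b, c, dl_ne e1]; ring
  · left; rw [a]; ring

theorem m0 (h : GQD q J A) {x y e : L} (hxe : A x e = 1)
    (hye : A y e = 1) : ∑ z, ze A x y e z = q ^ 3 - q := by
  have hex : A e x = 1 := by rw [h.Asymm]; exact hxe
  have hey : A e y = 1 := by rw [h.Asymm]; exact hye
  unfold ze
  simp only [Finset.sum_sub_distrib]
  have e1 : ∑ z, A z e = q * (q ^ 2 + 1) := by
    rw [← h.deg e]; exact Finset.sum_congr rfl fun z _ => h.Asymm z e
  rw [e1, h.A2', h.A2', hex, hey, dl_ne (h.ne_of_adj hex), dl_ne (h.ne_of_adj hey), sum_dl, sum_dl]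
  ring

theorem mb (h : GQD q J A) (H : HM q J hh) {x y e : L} (hx : hh x = 1) (hy : hh y = 1)
    (he : hh e = 0) (hne : x ≠ y) (hxy : A x y = 0) (hxe : A x e = 1) (hye : A y e = 1) :
    ∑ w, be A hh x y e w = (q + 1) ^ 2 / 2 - 1 := by
  have s : ∀ w, be A hh x y e w
      = (1 - hh w) * (A x w * A y w) - dl e w * ((1 - hh w) * (A x w * A y w)) := by
    intro w; unfold be; rw [h.Asymm w x, h.Asymm w y]; ring
  rw [Finset.sum_congr rfl fun w _ => s w, Finset.sum_sub_distrib, kM h H hx hy hne hxy,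
    sum_dl_mul e (fun w => (1 - hh w) * (A x w * A y w)), hxe, hye, he]
  ring

theorem mz (h : GQD q J A) {x y e w : L} (hne : x ≠ y) (hxy : A x y = 0) (hxe : A x e = 1)
    (hye : A y e = 1) (hew : e ≠ w) (hwx : A w x = 1) (hwy : A w y = 1) :
    ∑ z, ze A x y e z * A w z = q ^ 2 - 1 := by
  have hex : A e x = 1 := by rw [h.Asymm]; exact hxe
  have hey : A e y = 1 := by rw [h.Asymm]; exact hye
  have hAew : A e w = 0 := nonadj h hne hxy hex hey hwx hwy
  have s : ∀ z, ze A x y e z * A w z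
      = A e z * A z w - A z e * A z x * A z w - A z e * A z y * A z w - dl x z * A w z
        - dl y z * A w z := by
    intro z; unfold ze; rw [h.Asymm w z, h.Asymm e z]; ring
  rw [Finset.sum_congr rfl fun z _ => s z]
  simp only [Finset.sum_sub_distrib]
  rw [h.A2, h.N3, h.N3, sum_dl_mul x (fun z => A w z), sum_dl_mul y (fun z => A w z), hwx, hwy,
    hex, hey, hAew, dl_ne hew, dl_ne (h.ne_of_adj hex), dl_ne (h.ne_of_adj hey), h.Asymm x w,
    h.Asymm y w, hwx, hwy, dl_ne (Ne.symm (h.ne_of_adj hwx)), dl_ne (Ne.symm (h.ne_of_adj hwy))]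
  ring

theorem mz2 (h : GQD q J A) {x y e w w' : L} (hne : x ≠ y) (hxy : A x y = 0) (hxe : A x e = 1)
    (hye : A y e = 1) (hew : e ≠ w) (hwx : A w x = 1) (hwy : A w y = 1) (hew' : e ≠ w')
    (hwx' : A w' x = 1) (hwy' : A w' y = 1) :
    ∑ z, ze A x y e z * (A w z * A w' z) = (q - 1) + (q ^ 2 - q) * dl w w' := by
  have hex : A e x = 1 := by rw [h.Asymm]; exact hxe
  have hey : A e y = 1 := by rw [h.Asymm]; exact hye
  by_cases hww : w = w'
  · subst hww
    rw [dl_self, Finset.sum_congr rfl fun z _ => by rw [h.Asq], mz h hne hxy hxe hye hew hwx hwy]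
    ring
  have hAew : A e w = 0 := nonadj h hne hxy hex hey hwx hwy
  have hAew' : A e w' = 0 := nonadj h hne hxy hex hey hwx' hwy'
  have hAww : A w w' = 0 := nonadj h hne hxy hwx hwy hwx' hwy'
  have hz : ∀ v z, A e v = 1 → A w v = 1 → A z e * A z v * (A w z * A w' z) = 0 := by
    intro v z hv1 hv2
    rcases h.A01 z e with a | a
    · rw [a]; ring
    rcases h.A01 w z with b | b
    · rw [b]; ring
    have := nonadj h hew hAew a (by rw [h.Asymm]; exact b : A z w = 1)
      (by rw [h.Asymm]; exact hv1 : A v e = 1) (by rw [h.Asymm]; exact hv2 : A v w = 1)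
    rw [this]; ring
  have s : ∀ z, ze A x y e z * (A w z * A w' z)
      = A z e * A z w * A z w' - dl x z * (A w z * A w' z) - dl y z * (A w z * A w' z) := by
    intro z
    have z1 := hz x z hex hwx
    have z2 := hz y z hey hwy
    unfold ze
    rw [h.Asymm z w, h.Asymm z w']
    linear_combination -z1 - z2
  rw [Finset.sum_congr rfl fun z _ => s z]
  simp only [Finset.sum_sub_distrib]
  rw [h.N3, sum_dl_mul x (fun z => A w z * A w' z), sum_dl_mul y (fun z => A w z * A w' z), hwx,
    hwy, hwx', hwy', hAew, hAew', hAww, dl_ne hew, dl_ne hew', dl_ne hww]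
  ring

/-- `F` -/
noncomputable def Fe (A : L → L → ℚ) (hh : L → ℚ) (x y e z : L) : ℚ :=
  ∑ w, be A hh x y e w * A w z

theorem Fe_eq (h : GQD q J A) {x y e z : L} (he : hh e = 0) (hxe : A x e = 1)
    (hye : A y e = 1) (hz : A z e = 1) : fz A hh x y z = 1 + Fe A hh x y e z := by
  have s : ∀ w, be A hh x y e w * A w z
      = (1 - hh w) * tri A x y z w - dl e w * ((1 - hh w) * tri A x y z w) := by
    intro w; unfold be tri; ring
  unfold Fe fz
  rw [Finset.sum_congr rfl fun w _ => s w, Finset.sum_sub_distrib,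
    sum_dl_mul e (fun w => (1 - hh w) * tri A x y z w)]
  have : tri A x y z e = 1 := (tri1 h).mpr
    ⟨by rw [h.Asymm]; exact hxe, by rw [h.Asymm]; exact hye, by rw [h.Asymm]; exact hz⟩
  rw [this, he]; ring

theorem m1 (h : GQD q J A) (H : HM q J hh) {x y e : L} (hne : x ≠ y) (hxy : A x y = 0)
    (hxe : A x e = 1) (hye : A y e = 1) :
    ∑ z, ze A x y e z * Fe A hh x y e z = (q ^ 2 - 1) * ∑ w, be A hh x y e w := by
  have s : ∀ z, ze A x y e z * Fe A hh x y e z
      = ∑ w, be A hh x y e w * (ze A x y e z * A w z) := by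
    intro z; unfold Fe; rw [Finset.mul_sum]; exact Finset.sum_congr rfl fun w _ => by ring
  rw [Finset.sum_congr rfl fun z _ => s z, Finset.sum_comm, Finset.mul_sum]
  refine Finset.sum_congr rfl fun w _ => ?_
  rw [← Finset.mul_sum]
  rcases be_cases h H (x := x) (y := y) (e := e) w with a | ⟨a, _, b, c, d⟩
  · rw [a]; ring
  · rw [mz h hne hxy hxe hye b c d]; ring

theorem m2 (h : GQD q J A) (H : HM q J hh) {x y e : L} (hne : x ≠ y) (hxy : A x y = 0)
    (hxe : A x e = 1) (hye : A y e = 1) :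
    ∑ z, ze A x y e z * Fe A hh x y e z ^ 2
      = (q - 1) * (∑ w, be A hh x y e w) ^ 2 + (q ^ 2 - q) * ∑ w, be A hh x y e w := by
  have s : ∀ z, ze A x y e z * Fe A hh x y e z ^ 2
      = ∑ w, ∑ w', be A hh x y e w * (be A hh x y e w' * (ze A x y e z * (A w z * A w' z))) := by
    intro z; unfold Fe; rw [sq, Finset.sum_mul_sum, Finset.mul_sum]
    refine Finset.sum_congr rfl fun w _ => ?_
    rw [Finset.mul_sum]; exact Finset.sum_congr rfl fun w' _ => by ring
  rw [Finset.sum_congr rfl fun z _ => s z, Finset.sum_comm]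
  have s2 : ∀ w, ∑ z, ∑ w', be A hh x y e w *
      (be A hh x y e w' * (ze A x y e z * (A w z * A w' z)))
      = (q - 1) * (∑ w', be A hh x y e w') * be A hh x y e w + (q ^ 2 - q) * be A hh x y e w := by
    intro w
    rw [Finset.sum_comm]
    rcases be_cases h H (x := x) (y := y) (e := e) w with a | ⟨a, _, b, c, d⟩
    · rw [a]; simp
    have s3 : ∀ w', ∑ z, be A hh x y e w *
        (be A hh x y e w' * (ze A x y e z * (A w z * A w' z)))
        = (q - 1) * be A hh x y e w' + (q ^ 2 - q) * (dl w w' * be A hh x y e w') := by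
      intro w'
      rw [← Finset.mul_sum, ← Finset.mul_sum, a]
      rcases be_cases h H (x := x) (y := y) (e := e) w' with a' | ⟨a', _, b', c', d'⟩
      · rw [a']; ring
      · rw [mz2 h hne hxy hxe hye b c d b' c' d', a']; ring
    rw [Finset.sum_congr rfl fun w' _ => s3 w', Finset.sum_add_distrib, ← Finset.mul_sum,
      ← Finset.mul_sum, sum_dl_mul, a]
    ring
  rw [Finset.sum_congr rfl fun w _ => s2 w, Finset.sum_add_distrib, ← Finset.mul_sum,
    ← Finset.mul_sum]
  ring

/-- the total of the concave quadratic. -/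
theorem total (h : GQD q J A) (H : HM q J hh) {x y e : L} (hx : hh x = 1) (hy : hh y = 1)
    (he : hh e = 0) (hne : x ≠ y) (hxy : A x y = 0) (hxe : A x e = 1) (hye : A y e = 1) {a : ℚ}
    (ha : q = 2 * a - 1) :
    ∑ z, ze A x y e z * ((fz A hh x y z - a) * (q - 1 - fz A hh x y z))
      = (q - 1) * (4 * a ^ 3 - 22 * a ^ 2 + 16 * a - 2) := by
  have s : ∀ z, ze A x y e z * ((fz A hh x y z - a) * (q - 1 - fz A hh x y z))
      = (q - 3 + a) * (ze A x y e z * Fe A hh x y e z) - ze A x y e z * Fe A hh x y e z ^ 2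
        - (a - 1) * (q - 2) * ze A x y e z := by
    intro z
    rcases ze_cases h hne hxy hxe hye z with b | ⟨b, c, _⟩
    · rw [b]; ring
    · rw [Fe_eq h he hxe hye c]; ring
  rw [Finset.sum_congr rfl fun z _ => s z]
  simp only [Finset.sum_sub_distrib, ← Finset.mul_sum]
  rw [m0 h hxe hye, m1 h H hne hxy hxe hye, m2 h H hne hxy hxe hye,
    mb h H hx hy he hne hxy hxe hye, ha]
  ring

end

/-- the pointwise inequality, in integers -/
theorem pw {a t : ℤ} (ha : 6 ≤ a) (ht : 1 ≤ t) (hta : t ≤ a - 3) :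
    56 * (t * (a - 2 - t)) ≤ (a + t) * (a + t - 1) * (a + t - 2) := by
  rcases lt_or_ge a 8 with h8 | h8
  · have h67 : a = 6 ∨ a = 7 := by omega
    rcases h67 with e | e
    · subst e
      have : t = 1 ∨ t = 2 ∨ t = 3 := by omega
      rcases this with e | e | e <;> subst e <;> norm_num
    · subst e
      have : t = 1 ∨ t = 2 ∨ t = 3 ∨ t = 4 := by omega
      rcases this with e | e | e | e <;> subst e <;> norm_num
  · have h1 : 4 * (t * (a - 2 - t)) ≤ (a - 2) ^ 2 := by nlinarith [sq_nonneg (2 * t - (a - 2))]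
    have h2 : 14 * (a - 2) ^ 2 ≤ (a + 1) * a * (a - 1) := by
      have h3 : (a + 1) * a * (a - 1) - 14 * (a - 2) ^ 2 = (a - 8) * (a ^ 2 - 6 * a + 7) := by ring
      have h4 : 0 ≤ (a - 8) * (a ^ 2 - 6 * a + 7) := by
        apply mul_nonneg
        · linarith
        · nlinarith
      linarith
    have h5 : (a + 1) * a * (a - 1) ≤ (a + t) * (a + t - 1) * (a + t - 2) := by
      have e1 : (a + 1) * a ≤ (a + t) * (a + t - 1) := by nlinarith
      have e2 : a - 1 ≤ a + t - 2 := by linarith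
      have e3 : 0 ≤ a - 1 := by linarith
      have e4 : 0 ≤ (a + t) * (a + t - 1) := by nlinarith
      exact mul_le_mul e1 e2 e3 e4
    linarith

section
variable {P L : Type} [Fintype P] [Fintype L] {J J2 : P → L → ℚ} {A A2 : L → L → ℚ}
  {hh : L → ℚ}

theorem choose3 (n : ℕ) : (6 : ℚ) * (n.choose 3 : ℚ) = n * (n - 1) * (n - 2) := by
  have h : n.choose 3 * 6 = n.descFactorial 3 := by
    rw [Nat.descFactorial_eq_factorial_mul_choose]
    simp [Nat.factorial]; ring
  have h2 : (n.descFactorial 3 : ℚ) = n * (n - 1) * (n - 2) := by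
    rcases n with _ | _ | n
    · simp [Nat.descFactorial]
    · simp [Nat.descFactorial]
    · simp only [Nat.descFactorial_succ, Nat.descFactorial_zero]
      have e1 : n + 1 + 1 - 2 = n := by omega
      have e2 : n + 1 + 1 - 1 = n + 1 := by omega
      rw [e1, e2]
      push_cast; ring
  rw [← h2, ← h]; push_cast; ring

/-- No twins in the 3-regular case. -/
theorem no_twin {s : ℕ} (hs : 11 ≤ s) (hodd : Odd s) (T : Twin (s : ℚ) J J2 A A2 hh)
    (R1 : Reg (s : ℚ) A) (R2 : Reg (s : ℚ) A2) {x y e : L} (b : Base A A2 hh x y e) : False := by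
  classical
  obtain ⟨a', ha'⟩ := hodd
  obtain ⟨a, ha⟩ : ∃ a : ℤ, a = a' + 1 := ⟨_, rfl⟩
  have hsa : (s : ℤ) = 2 * a - 1 := by rw [ha, ha']; push_cast; ring
  have hsq : (s : ℚ) = 2 * (a : ℚ) - 1 := by exact_mod_cast hsa
  have ha6 : 6 ≤ a := by omega
  have ha6q : (6 : ℚ) ≤ a := by exact_mod_cast ha6
  have hxy2 := T.base2 b
  have tot := total T.g2 T.h2 b.hx b.hy b.he b.ne hxy2 b.xe b.ye hsq
  -- pointwise
  have hpt : ∀ z, 56 * (ze A2 x y e z * ((fz A2 hh x y z - a) * (s - 1 - fz A2 hh x y z)))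
      ≤ if Good (s : ℚ) A2 hh x y e z then
        fz A2 hh x y z * (fz A2 hh x y z - 1) * (fz A2 hh x y z - 2) else 0 := by
    intro z
    -- f is a natural number
    have hnat : ∃ N : ℕ, fz A2 hh x y z = N := by
      unfold fz
      apply sum_nat
      intro v
      rcases T.h1.h01 v with c | c
      · rcases tri01 T.g2 x y z v with d | d
        · left; rw [d]; ring
        · right; rw [c, d]; ring
      · left; rw [c]; ring
    obtain ⟨N, hN⟩ := hnat
    rcases ze_cases T.g2 b.ne hxy2 b.xe b.ye z with c | ⟨c, c1', c2, c3, c4, c5⟩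
    · rw [c]
      split_ifs with g
      · have := g.f3
        have e1 : 0 ≤ fz A2 hh x y z * (fz A2 hh x y z - 1) * (fz A2 hh x y z - 2) := by
          have p1 : 0 ≤ fz A2 hh x y z := by linarith
          have p2 : 0 ≤ fz A2 hh x y z - 1 := by linarith
          have p3 : 0 ≤ fz A2 hh x y z - 2 := by linarith
          positivity
        linarith
      · simp
    · rw [c, one_mul]
      split_ifs with g
      · have f3 := g.f3
        have j3 := g.j3
        have fj := g.fj
        rw [hN] at f3 j3 fj ⊢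
        rw [hsq] at j3 fj ⊢
        obtain ⟨t, ht⟩ : ∃ t : ℤ, t = (N : ℤ) - a := ⟨_, rfl⟩
        have hNt : (N : ℚ) = a + t := by rw [ht]; push_cast; ring
        have ht1 : 1 ≤ t := by
          have : (a : ℚ) < N := by linarith
          have : a < (N : ℤ) := by exact_mod_cast this
          omega
        have ht2 : t ≤ a - 3 := by
          have : (N : ℚ) ≤ 2 * a - 3 := by linarith
          have : (N : ℤ) ≤ 2 * a - 3 := by exact_mod_cast this
          omega
        have hp := pw ha6 ht1 ht2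
        have hp' : (56 : ℚ) * (t * (a - 2 - t)) ≤ (a + t) * (a + t - 1) * (a + t - 2) := by
          exact_mod_cast hp
        rw [hNt]
        have e1 : (56 : ℚ) * ((a + t - a) * (2 * a - 1 - 1 - (a + t))) = 56 * (t * (a - 2 - t)) := by
          ring
        rw [e1]; exact hp'
      · -- not good
        have hng : (N : ℚ) < 3 ∨ (s : ℚ) + 1 - N < 3 ∨ (N : ℚ) ≤ s + 1 - N := by
          by_contra hcon
          push Not at hcon
          obtain ⟨k1, k2, k3⟩ := hcon
          exact g ⟨c1', c2, c3, c4, c5, by rw [hN]; exact k1, by rw [hN]; exact k2,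
            by rw [hN]; exact k3⟩
        rw [hN, hsq]
        have key : ((N : ℚ) - a) * (2 * a - 1 - 1 - N) ≤ 0 := by
          rcases hng with k | k | k
          · apply mul_nonpos_of_nonpos_of_nonneg <;> linarith
          · have : (s : ℚ) - 2 < N := by linarith
            have h1 : (s : ℤ) - 2 < (N : ℤ) := by exact_mod_cast this
            have h2 : (s : ℤ) - 1 ≤ N := by omega
            have h3 : (s : ℚ) - 1 ≤ N := by exact_mod_cast h2
            rw [hsq] at h3
            apply mul_nonpos_of_nonneg_of_nonpos <;> linarith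
          · rw [hsq] at k
            apply mul_nonpos_of_nonpos_of_nonneg <;> linarith
        linarith
  have hsum := Finset.sum_le_sum (fun z (_ : z ∈ univ) => hpt z)
  rw [← Finset.mul_sum, tot, ← Finset.sum_filter] at hsum
  -- good sum
  have hdbl := T.double R1 R2 rfl b
  have hgood : ∑ z ∈ univ.filter (fun z => Good (s : ℚ) A2 hh x y e z),
      fz A2 hh x y z * (fz A2 hh x y z - 1) * (fz A2 hh x y z - 2)
      = 6 * ((∑ z ∈ univ.filter (fun z => Good (s : ℚ) A2 hh x y e z),
        (Twin.Dz J J2 A A2 hh x y e z).card.choose 3 : ℕ) : ℚ) := by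
    rw [Nat.cast_sum, Finset.mul_sum]
    refine Finset.sum_congr rfl fun z hz => ?_
    rw [choose3, T.card_Dz R1 R2 b (Finset.mem_filter.mp hz).2]
  rw [hgood] at hsum
  have hdbl' : ((∑ z ∈ univ.filter (fun z => Good (s : ℚ) A2 hh x y e z),
        (Twin.Dz J J2 A A2 hh x y e z).card.choose 3 : ℕ) : ℚ)
      ≤ ((2 * s).choose 3 : ℕ) * ((s : ℚ) - 1) := by
    have h1 : ((s - 1 : ℕ) : ℚ) = (s : ℚ) - 1 := by
      rw [Nat.cast_sub (by omega)]; simp
    rw [← h1]
    exact_mod_cast hdbl
  have h6 := choose3 (2 * s)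
  have hs1 : (0 : ℚ) < (s : ℚ) - 1 := by rw [hsq]; linarith
  have hfin : 56 * (((s : ℚ) - 1) * (4 * a ^ 3 - 22 * a ^ 2 + 16 * a - 2))
      ≤ ((s : ℚ) - 1) * (((2 * s : ℕ) : ℚ) * (((2 * s : ℕ) : ℚ) - 1) * (((2 * s : ℕ) : ℚ) - 2)) := by
    rw [← h6]
    linarith
  have hfin2 : 56 * (4 * (a : ℚ) ^ 3 - 22 * a ^ 2 + 16 * a - 2)
      ≤ ((2 * s : ℕ) : ℚ) * (((2 * s : ℕ) : ℚ) - 1) * (((2 * s : ℕ) : ℚ) - 2) := by
    by_contra hcon
    push Not at hcon
    have := mul_lt_mul_of_pos_left hcon hs1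
    linarith
  have hcast : ((2 * s : ℕ) : ℚ) = 2 * (2 * a - 1) := by push_cast; rw [hsq]
  rw [hcast] at hfin2
  obtain ⟨u, hu⟩ : ∃ u : ℚ, u = a - 6 := ⟨_, rfl⟩
  have hau : (a : ℚ) = u + 6 := by rw [hu]; ring
  have hu0 : 0 ≤ u := by rw [hu]; linarith
  rw [hau] at hfin2
  have hu3 : 0 ≤ u ^ 3 := by positivity
  have hu2 : 0 ≤ u ^ 2 := by positivity
  nlinarith

end

end Pool.Agent.helper56.Hemi
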