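import Pool.Agent.helper56.Hemi.Three

set_option autoImplicit false

namespace Pool.Agent.helper56.Hemi

open Finset

/-- A pair of sets of `q+1` pairwise nonadjacent vertices, all adjacent to each other. -/
structure CP {L : Type} [Fintype L] (q : ℚ) (A : L → L → ℚ) (t t' : L → ℚ) : Prop where
  t01 : ∀ w, t w = 0 ∨ t w = 1
  t01' : ∀ w, t' w = 0 ∨ t' w = 1
  ts : ∑ w, t w = q + 1
  ts' : ∑ w, t' w = q + 1
  tt : ∀ v w, t v = 1 → t w = 1 → A v w = 0
  tt' : ∀ v w, t' v = 1 → t' w = 1 → A v w = 0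
  cross : ∀ v w, t v = 1 → t' w = 1 → A v w = 1

namespace CP

variable {P L : Type} [Fintype P] [Fintype L] {q : ℚ} {J : P → L → ℚ} {A : L → L → ℚ}
  {hh : L → ℚ} {t t' : L → ℚ}

theorem symm (h : GQD q J A) (c : CP q A t t') : CP q A t' t where
  t01 := c.t01'
  t01' := c.t01
  ts := c.ts'
  ts' := c.ts
  tt := c.tt'
  tt' := c.tt
  cross v w hv hw := by rw [h.Asymm]; exact c.cross w v hw hv

theorem disj (h : GQD q J A) (c : CP q A t t') (v : L) : t v * t' v = 0 := by
  rcases c.t01 v with e | e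
  · rw [e]; ring
  rcases c.t01' v with e' | e'
  · rw [e']; ring
  have := c.cross v v e e'
  rw [h.Axx] at this; norm_num at this

/-- the degree into `T` from `T` -/
theorem degT (c : CP q A t t') {v : L} (hv : t v = 1) : ∑ w, A v w * t w = 0 := by
  apply Finset.sum_eq_zero
  intro w _
  rcases c.t01 w with e | e
  · rw [e]; ring
  · rw [c.tt v w hv e]; ring

theorem degT' (c : CP q A t t') {v : L} (hv : t v = 1) : ∑ w, A v w * t' w = q + 1 := by
  rw [← c.ts']
  refine Finset.sum_congr rfl fun w _ => ?_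
  rcases c.t01' w with e | e
  · rw [e]; ring
  · rw [c.cross v w hv e]; ring

theorem un (h : GQD q J A) (c : CP q A t t') (v : L) :
    (t v + t' v) * ∑ w, A v w * (t w + t' w) = (q + 1) * (t v + t' v) := by
  have s : ∑ w, A v w * (t w + t' w) = ∑ w, A v w * t w + ∑ w, A v w * t' w := by
    rw [← Finset.sum_add_distrib]; exact Finset.sum_congr rfl fun w _ => by ring
  rw [s]
  have hd := c.disj h v
  rcases c.t01 v with e | e
  · rcases c.t01' v with e' | e'
    · rw [e, e']; ring
    · rw [(c.symm h).degT e', (c.symm h).degT' e', e, e']; ring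
  · rcases c.t01' v with e' | e'
    · rw [c.degT e, c.degT' e, e, e']; ring
    · rw [e, e'] at hd; norm_num at hd

theorem usq (h : GQD q J A) (c : CP q A t t') (v : L) :
    (t v + t' v) * (t v + t' v) = t v + t' v := by
  have hd := c.disj h v
  have e1 : t v * t v = t v := by rcases c.t01 v with e | e <;> rw [e] <;> norm_num
  have e2 : t' v * t' v = t' v := by rcases c.t01' v with e | e <;> rw [e] <;> norm_num
  linear_combination e1 + e2 + 2 * hd

theorem usum (c : CP q A t t') : ∑ w, (t w + t' w) = 2 * (q + 1) := by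
  rw [Finset.sum_add_distrib, c.ts, c.ts']; ring

/-- every vertex outside has exactly two neighbours in the pair. -/
theorem n2 (h : GQD q J A) (c : CP q A t t') (w : L) :
    ∑ v, A w v * (t v + t' v) = 2 + (q - 1) * (t w + t' w) := by
  set u : L → ℚ := fun v => t v + t' v with hu
  set n : L → ℚ := fun w => ∑ v, A w v * u v with hn
  have hus : ∑ w, u w = 2 * (q + 1) := c.usum
  have huu : ∀ v, u v * u v = u v := c.usq h
  have hun : ∀ v, u v * n v = (q + 1) * u v := c.un h
  have h1 : ∑ w, n w = q * (q ^ 2 + 1) * (2 * (q + 1)) := by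
    simp only [hn]
    rw [Finset.sum_comm]
    have : ∀ v, ∑ w, A w v * u v = q * (q ^ 2 + 1) * u v := by
      intro v
      rw [← Finset.sum_mul]
      have : ∑ w, A w v = q * (q ^ 2 + 1) := by
        rw [← h.deg v]; exact Finset.sum_congr rfl fun w _ => h.Asymm w v
      rw [this]
    rw [Finset.sum_congr rfl fun v _ => this v, ← Finset.mul_sum, hus]
  have h2 : ∑ w, n w * n w = (q ^ 2 + 1) * (2 * (q + 1)) ^ 2 + (q - 1) * (q ^ 2 + 1) * (2 * (q + 1))
      - (q ^ 2 - q + 2) * ((q + 1) * (2 * (q + 1))) := by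
    have e1 : ∀ w, n w * n w = ∑ v, ∑ v', u v * (u v' * (A w v * A w v')) := by
      intro w
      simp only [hn]
      rw [Finset.sum_mul_sum]
      exact Finset.sum_congr rfl fun v _ => Finset.sum_congr rfl fun v' _ => by ring
    rw [Finset.sum_congr rfl fun w _ => e1 w, Finset.sum_comm]
    have e2 : ∀ v, ∑ w, ∑ v', u v * (u v' * (A w v * A w v'))
        = (q ^ 2 + 1) * (2 * (q + 1)) * u v + (q - 1) * (q ^ 2 + 1) * (u v * u v)
          - (q ^ 2 - q + 2) * (u v * n v) := by
      intro v
      rw [Finset.sum_comm]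
      have e3 : ∀ v', ∑ w, u v * (u v' * (A w v * A w v'))
          = (q ^ 2 + 1) * u v * u v' + (q - 1) * (q ^ 2 + 1) * u v * (dl v v' * u v')
            - (q ^ 2 - q + 2) * u v * (A v v' * u v') := by
        intro v'
        rw [← Finset.mul_sum, ← Finset.mul_sum, h.A2']; ring
      rw [Finset.sum_congr rfl fun v' _ => e3 v']
      simp only [Finset.sum_add_distrib, Finset.sum_sub_distrib, ← Finset.mul_sum]
      rw [hus, sum_dl_mul]
      ring
    rw [Finset.sum_congr rfl fun v _ => e2 v]
    simp only [Finset.sum_add_distrib, Finset.sum_sub_distrib, ← Finset.mul_sum]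
    rw [Finset.sum_congr rfl fun v _ => huu v, Finset.sum_congr rfl fun v _ => hun v,
      ← Finset.mul_sum, hus]
    ring
  have h3 : ∑ w, (n w - 2 - (q - 1) * u w) ^ 2 = 0 := by
    have e1 : ∀ w, (n w - 2 - (q - 1) * u w) ^ 2
        = n w * n w - 4 * n w - 2 * (q - 1) * (u w * n w) + 4 * 1 + 4 * (q - 1) * u w
          + (q - 1) ^ 2 * (u w * u w) := by intro w; ring
    rw [Finset.sum_congr rfl fun v _ => e1 v]
    simp only [Finset.sum_add_distrib, Finset.sum_sub_distrib, ← Finset.mul_sum]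
    rw [h2, h1, Finset.sum_congr rfl fun v _ => hun v, Finset.sum_congr rfl fun v _ => huu v,
      ← Finset.mul_sum, hus, h.card w]
    ring
  have h4 := (Finset.sum_eq_zero_iff_of_nonneg
    (fun w _ => sq_nonneg (n w - 2 - (q - 1) * u w))).mp h3 w (Finset.mem_univ w)
  have h5 : n w - 2 - (q - 1) * u w = 0 := pow_eq_zero_iff (two_ne_zero) |>.mp h4
  have h6 : n w = 2 + (q - 1) * u w := by linarith
  exact h6

theorem cp_sum (h : GQD q J A) (c : CP q A t t') {u : L → ℚ} (hu : ZB J u) :
    ∑ v, (t v + t' v) * u v = 0 := by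
  have e1 : ∑ v, (t v + t' v) * ∑ w, A v w * u w = -(q ^ 2 + 1) * ∑ v, (t v + t' v) * u v := by
    rw [Finset.mul_sum]
    exact Finset.sum_congr rfl fun v _ => by rw [h.sum_A_zb hu]; ring
  have e2 : ∑ v, (t v + t' v) * ∑ w, A v w * u w = (q - 1) * ∑ v, (t v + t' v) * u v := by
    rw [Finset.sum_congr rfl fun v _ => Finset.mul_sum _ _ _, Finset.sum_comm]
    have s : ∀ w, ∑ v, (t v + t' v) * (A v w * u w) = 2 * u w + (q - 1) * ((t w + t' w) * u w) := by
      intro w
      have : ∑ v, (t v + t' v) * (A v w * u w) = u w * ∑ v, A w v * (t v + t' v) := by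
        rw [Finset.mul_sum]; exact Finset.sum_congr rfl fun v _ => by rw [h.Asymm v w]; ring
      rw [this, c.n2 h]; ring
    rw [Finset.sum_congr rfl fun w _ => s w]
    simp only [Finset.sum_add_distrib, ← Finset.mul_sum]
    rw [h.sum_zb hu]; ring
  have e3 := e1.symm.trans e2
  have hq := h.qq
  have e4 : (q ^ 2 + q) * ∑ v, (t v + t' v) * u v = 0 := by linear_combination -e3
  rcases mul_eq_zero.mp e4 with e | e
  · exact absurd e hq
  · exact e

theorem cp_H (h : GQD q J A) (H : HM q J hh) (c : CP q A t t') :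
    ∑ v, t v * hh v + ∑ v, t' v * hh v = q + 1 := by
  have e := c.cp_sum h (h.chi_zb H)
  have s : ∀ v, (t v + t' v) * chi hh v = 2 * (t v * hh v) + 2 * (t' v * hh v) - (t v + t' v) := by
    intro v; unfold chi; ring
  rw [Finset.sum_congr rfl fun w _ => s w] at e
  simp only [Finset.sum_add_distrib, Finset.sum_sub_distrib, ← Finset.mul_sum] at e
  rw [c.ts, c.ts'] at e
  linarith

/-- adjacent to three vertices of `T` implies in `T'`. -/
theorem three' (h : GQD q J A) (c : CP q A t t') {κ : L → ℚ} (hκ : ∀ v, κ v = 0 ∨ κ v = 1)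
    (hκt : ∀ v, κ v = 1 → t v = 1) (hκs : 3 ≤ ∑ v, κ v) {w : L}
    (hw : ∀ v, κ v = 1 → A w v = 1) : t' w = 1 := by
  rcases c.t01' w with e | e
  · exfalso
    have hge : ∑ v, κ v ≤ ∑ v, A w v * t v := by
      refine Finset.sum_le_sum fun v _ => ?_
      rcases hκ v with e1 | e1
      · rw [e1]
        refine mul_nonneg (h.Ann w v) ?_
        rcases c.t01 v with e2 | e2 <;> rw [e2]; norm_num
      · rw [e1, hw v e1, hκt v e1]; norm_num
    rcases c.t01 w with e1 | e1
    · have e2 := c.n2 h w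
      rw [e, e1] at e2
      have s : ∑ v, A w v * (t v + t' v) = ∑ v, A w v * t v + ∑ v, A w v * t' v := by
        rw [← Finset.sum_add_distrib]; exact Finset.sum_congr rfl fun w _ => by ring
      rw [s] at e2
      have : 0 ≤ ∑ v, A w v * t' v := Finset.sum_nonneg fun v _ => mul_nonneg (h.Ann w v) (by
        rcases c.t01' v with e2 | e2 <;> rw [e2]; norm_num)
      linarith
    · rw [c.degT e1] at hge
      linarith
  · exact e

end CP

/-- common neighbours of a triple -/
def tri {L : Type} (A : L → L → ℚ) (x y z w : L) : ℚ := A w x * A w y * A w z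

open Classical in
/-- the perp of a set -/
noncomputable def perp {L : Type} (A : L → L → ℚ) (t : L → ℚ) (w : L) : ℚ :=
  if ∀ v, t v = 1 → A w v = 1 then 1 else 0

/-- three pairwise nonadjacent vertices. -/
structure Triad {L : Type} (A : L → L → ℚ) (x y z : L) : Prop where
  xy : x ≠ y
  xz : x ≠ z
  yz : y ≠ z
  Axy : A x y = 0
  Axz : A x z = 0
  Ayz : A y z = 0

/-- 3-regularity -/
def Reg {L : Type} [Fintype L] (q : ℚ) (A : L → L → ℚ) : Prop :=
  ∀ x y z, Triad A x y z → ∑ w, perp A (tri A x y z) w = q + 1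

section
variable {P L : Type} [Fintype P] [Fintype L] {q : ℚ} {J : P → L → ℚ} {A : L → L → ℚ}

theorem perp1 {t : L → ℚ} {w : L} : perp A t w = 1 ↔ ∀ v, t v = 1 → A w v = 1 := by
  unfold perp; split_ifs with h <;> simp only [zero_ne_one, false_iff, true_iff]
  · exact h
  · exact h

theorem tri1 (h : GQD q J A) {x y z w : L} :
    tri A x y z w = 1 ↔ A w x = 1 ∧ A w y = 1 ∧ A w z = 1 := by
  unfold tri
  rcases h.A01 w x with e | e <;> rcases h.A01 w y with e' | e' <;>
    rcases h.A01 w z with e'' | e'' <;> rw [e, e', e''] <;> norm_num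

theorem tri01 (h : GQD q J A) (x y z w : L) : tri A x y z w = 0 ∨ tri A x y z w = 1 := by
  unfold tri
  rcases h.A01 w x with e | e <;> rcases h.A01 w y with e' | e' <;>
    rcases h.A01 w z with e'' | e'' <;> rw [e, e', e''] <;> norm_num

theorem perp01 (t : L → ℚ) (w : L) : perp A t w = 0 ∨ perp A t w = 1 := by
  unfold perp; split_ifs <;> simp

theorem sum_tri (h : GQD q J A) {x y z : L} (T : Triad A x y z) :
    ∑ w, tri A x y z w = q + 1 := by
  unfold tri
  rw [h.N3, T.Axy, T.Axz, T.Ayz, dl_ne T.xy, dl_ne T.xz, dl_ne T.yz]; ring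

/-- common neighbours of nonadjacent vertices are nonadjacent. -/
theorem nonadj (h : GQD q J A) {x y v w : L} (hne : x ≠ y) (hxy : A x y = 0)
    (h1 : A v x = 1) (h2 : A v y = 1) (h3 : A w x = 1) (h4 : A w y = 1) : A v w = 0 := by
  have := h.no_tri (w := v) (z := w) hne hxy
  rw [h1, h2, h3, h4] at this
  linarith

theorem exists_two {t : L → ℚ} (ht : ∀ w, t w = 0 ∨ t w = 1) (hs : 1 < ∑ w, t w) :
    ∃ v w, v ≠ w ∧ t v = 1 ∧ t w = 1 := by
  classical
  by_contra hcon
  have hall : ∀ v w, t v = 1 → t w = 1 → v = w := by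
    intro v w hv hw
    by_contra hne
    exact hcon ⟨v, w, hne, hv, hw⟩
  by_cases hex : ∃ v, t v = 1
  · obtain ⟨v, hv⟩ := hex
    have : ∑ w, t w = 1 := by
      rw [Finset.sum_eq_single v]
      · exact hv
      · intro b _ hb
        rcases ht b with e | e
        · exact e
        · exact absurd (hall b v e hv) hb
      · intro hx; exact absurd (Finset.mem_univ v) hx
    linarith
  · have : ∑ w, t w = 0 := Finset.sum_eq_zero fun w _ => by
      rcases ht w with e | e
      · exact e
      · exact absurd ⟨w, e⟩ hex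
    linarith

theorem triCP (h : GQD q J A) (R : Reg q A) {x y z : L} (T : Triad A x y z) :
    CP q A (tri A x y z) (perp A (tri A x y z)) where
  t01 := tri01 h x y z
  t01' := perp01 _
  ts := sum_tri h T
  ts' := R x y z T
  tt v w hv hw := by
    obtain ⟨h1, h2, _⟩ := (tri1 h).mp hv
    obtain ⟨h3, h4, _⟩ := (tri1 h).mp hw
    exact nonadj h T.xy T.Axy h1 h2 h3 h4
  tt' v w hv hw := by
    have hs : 1 < ∑ w, tri A x y z w := by
      rw [sum_tri h T]; have := h.qge; linarith
    obtain ⟨a, b, hab, ha, hb⟩ := exists_two (tri01 h x y z) hs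
    have hab0 : A a b = 0 := by
      obtain ⟨h1, h2, _⟩ := (tri1 h).mp ha
      obtain ⟨h3, h4, _⟩ := (tri1 h).mp hb
      exact nonadj h T.xy T.Axy h1 h2 h3 h4
    exact nonadj h hab hab0 (perp1.mp hv a ha) (perp1.mp hv b hb) (perp1.mp hw a ha)
      (perp1.mp hw b hb)
  cross v w hv hw := by rw [h.Asymm]; exact perp1.mp hw v hv

end

end Pool.Agent.helper56.Hemi
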