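import Pool.Agent.helper56.Hemi.Auto

set_option autoImplicit false

namespace Pool.Agent.helper56.Hemi

open Finset

namespace AU

variable {P L : Type} [Fintype P] [Fintype L] {q : ℚ} {J : P → L → ℚ} {A : L → L → ℚ}
  {hh : L → ℚ} {f g : Equiv.Perm P} {φ γ : Equiv.Perm L}

theorem sumU_M (h : GQD q J A) (H : HM q J hh) {m : L} (he : Exo J hh f m) :
    ∑ w, (1 - hh w) * U q J hh f m w = 0 := by
  have e1 := h.sum_zb (U_zb h H he)
  have e2 := U_chi h H f m
  have s : ∀ w, (1 - hh w) * U q J hh f m w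
      = 1 / 2 * U q J hh f m w - 1 / 2 * (chi hh w * U q J hh f m w) := by
    intro w; unfold chi; ring
  rw [Finset.sum_congr rfl fun w _ => s w]
  simp only [Finset.sum_sub_distrib, ← Finset.mul_sum]
  rw [e1, e2]; ring

theorem sumG_H (h : GQD q J A) (H : HM q J hh) (x : L) :
    ∑ w, hh w * G q A hh x w = 0 := by
  have e1 := h.sum_zb (h.G_zb H x)
  have e2 := h.G_chi H x
  have s : ∀ w, hh w * G q A hh x w
      = 1 / 2 * G q A hh x w + 1 / 2 * (chi hh w * G q A hh x w) := by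
    intro w; unfold chi; ring
  rw [Finset.sum_congr rfl fun w _ => s w]
  simp only [Finset.sum_add_distrib, ← Finset.mul_sum]
  rw [e1, e2]; ring

/-- transporting `U`. -/
theorem U_map (a : AU J hh f φ) (g : Equiv.Perm P) {x : L} (hx : hh x = 1) (m : L) :
    U q J hh (f * g) m (φ x) = U q J hh g m x := by
  unfold U
  have : chi hh (φ x) = chi hh x := by unfold chi; rw [a.hτ]
  rw [this, a.CC_map g hx]

theorem U_map1 (h : GQD q J A) (a : AU J hh f φ) {x : L} (hx : hh x = 1) {m : L}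
    (hm : hh m = 0) :
    U q J hh f m (φ x) = G q A hh m x := by
  rw [U_H (by rw [a.hτ]; exact hx), a.CC_H h hx hm, G_MH h hx hm, h.Asymm]

theorem G_map (h : GQD q J A) (a : AU J hh f φ) {x p : L} (hx : hh x = 1) (hp : hh p = 1) :
    G q A hh (φ p) (φ x) = G q A hh p x := by
  unfold G
  have e1 : chi hh (φ x) = chi hh x := by unfold chi; rw [a.hτ]
  have e2 : chi hh (φ p) = chi hh p := by unfold chi; rw [a.hτ]
  rw [e1, e2, dl_map, a.mapA h hp hx]

/-- The configuration: a vertex `p` of `H`, `m1`, `m3` outside `H`. -/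
structure Conf (J : P → L → ℚ) (hh : L → ℚ) (g : Equiv.Perm P) (p m1 m3 : L) : Prop where
  hp : hh p = 1
  hm1 : hh m1 = 0
  hm3 : hh m3 = 0
  ex : ∃ b b1 : P, b ≠ b1 ∧ J b p = 1 ∧ J b1 p = 1 ∧ J b1 m1 = 1 ∧ J (g⁻¹ b) m3 = 1

theorem conf_exists (h : GQD q J A) (H : HM q J hh) (a : AU J hh g γ) (b0 : P) :
    ∃ p m1 m3, Conf J hh g p m1 m3 := by
  have hq := h.qge
  -- vertices of both kinds in any block
  have hH : ∀ b, ∃ x, J b x = 1 ∧ hh x = 1 := by
    intro b
    by_contra hn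
    have : ∑ x, J b x * hh x = 0 := by
      apply Finset.sum_eq_zero
      intro x _
      rcases h.J01 b x with e | e
      · rw [e]; ring
      rcases H.h01 x with e' | e'
      · rw [e']; ring
      · exact absurd ⟨x, e, e'⟩ hn
    rw [H.sumH] at this; linarith
  have hM : ∀ b, ∃ x, J b x = 1 ∧ hh x = 0 := by
    intro b
    by_contra hn
    have : ∑ x, J b x = ∑ x, J b x * hh x := by
      refine Finset.sum_congr rfl fun x _ => ?_
      rcases h.J01 b x with e | e
      · rw [e]; ring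
      rcases H.h01 x with e' | e'
      · exact absurd ⟨x, e, e'⟩ hn
      · rw [e']; ring
    rw [H.sumH, h.sumJL] at this; linarith
  obtain ⟨m3, hm3, hm3'⟩ := hM b0
  obtain ⟨p, hp, hp'⟩ := hH (g b0)
  have hb1 : ∃ b1, g b0 ≠ b1 ∧ J b1 p = 1 := by
    classical
    by_contra hn
    push Not at hn
    have : ∑ b, J b p = 1 := by
      rw [Finset.sum_eq_single (g b0)]
      · exact hp
      · intro b _ hb
        rcases h.J01 b p with e | e
        · exact e
        · exact absurd e (hn b hb.symm)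
      · intro hx; exact absurd (Finset.mem_univ _) hx
    rw [h.sumJP] at this
    nlinarith
  obtain ⟨b1, hne, hb1p⟩ := hb1
  obtain ⟨m1, hm1, hm1'⟩ := hM b1
  exact ⟨p, m1, m3, hp', hm1', hm3', g b0, b1, hne, hp, hb1p, hm1, by rw [ias]; exact hm3⟩

/-- values in the configuration. -/
theorem conf_A (h : GQD q J A) {p m1 m3 : L} (c : Conf J hh g p m1 m3) : A p m1 = 1 := by
  obtain ⟨b, b1, hne, h1, h2, h3, h4⟩ := c.ex
  exact h.adj_of_block (ne_HM c.hp c.hm1) h2 h3

theorem conf_C (h : GQD q J A) (a : AU J hh g γ) {p m1 m3 : L} (c : Conf J hh g p m1 m3) :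
    CC J g p m3 = 1 := by
  obtain ⟨b, b1, hne, h1, h2, h3, h4⟩ := c.ex
  rw [a.CC_H' h c.hp c.hm3]
  have e1 : hh (γ⁻¹ p) = 1 := by rw [a.inv.hτ]; exact c.hp
  have e2 : J (g⁻¹ b) (γ⁻¹ p) = 1 := by rw [a.inv.hJ b p c.hp]; exact h1
  exact h.adj_of_block (ne_HM e1 c.hm3) e2 h4

theorem conf_zero (h : GQD q J A) (H : HM q J hh) (a : AU J hh g γ) {p m1 m3 : L}
    (c : Conf J hh g p m1 m3) (x : L) : hh x * (A p x * (A m1 x * CC J g x m3)) = 0 := by
  classical
  have hC := conf_C h a c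
  have X := a.toXD h H c.hm3
  obtain ⟨b, b1, hne, h1, h2, h3, h4⟩ := c.ex
  -- ell b1 = 0
  have hl : J (g⁻¹ b1) m3 = 0 := by
    rcases h.J01 (g⁻¹ b1) m3 with e | e
    · exact e
    · exfalso
      have e1 : CC J g p m3 = ∑ b, J (g⁻¹ b) m3 * J b p := X.Cdef p
      have e2 : ∑ y ∈ ({b, b1} : Finset P), J (g⁻¹ y) m3 * J y p
          ≤ ∑ y, J (g⁻¹ y) m3 * J y p :=
        Finset.sum_le_sum_of_subset_of_nonneg (Finset.subset_univ _)
          (fun y _ _ => mul_nonneg (h.Jnn _ _) (h.Jnn _ _))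
      rw [Finset.sum_pair hne, h4, h1, e, h2, ← e1, hC] at e2
      norm_num at e2
  have hcp := X.cp0 b1 hl
  rcases H.h01 x with ex | ex
  · rw [ex]; ring
  rcases h.A01 p x with ea | ea
  · rw [ea]; ring
  rcases h.A01 m1 x with eb | eb
  · rw [eb]; ring
  rcases X.CH01 x ex with ec | ec
  · have ec' : CC J g x m3 = 0 := ec
    rw [ec']; ring
  exfalso
  have hJx : J b1 x = 1 := h.L4 (ne_HM c.hp c.hm1) h2 h3 (by rw [h.Asymm]; exact ea)
    (by rw [h.Asymm]; exact eb)
  have hpx : p ≠ x := h.ne_of_adj ea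
  have e2 : ∑ y ∈ ({p, x} : Finset L), J b1 y * (hh y * CC J g y m3)
      ≤ ∑ y, J b1 y * (hh y * CC J g y m3) :=
    Finset.sum_le_sum_of_subset_of_nonneg (Finset.subset_univ _)
      (fun y _ _ => mul_nonneg (h.Jnn _ _) (by
        rcases H.h01 y with e | e
        · rw [e]; simp
        · rw [e, one_mul]; exact X.C_nn h y))
  have ec' : CC J g x m3 = 1 := ec
  rw [Finset.sum_pair hpx, h2, c.hp, hC, hJx, ex, ec'] at e2
  have hcp' : ∑ x, J b1 x * (hh x * CC J g x m3) = 0 ∨ ∑ x, J b1 x * (hh x * CC J g x m3) = 1 :=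
    hcp
  rcases hcp' with e | e <;> rw [e] at e2 <;> norm_num at e2

/-- The value of the count `h_2`. -/
theorem three (h : GQD q J A) (H : HM q J hh) (a : AU J hh f φ) (b : AU J hh g γ)
    {p m1 m3 : L} (c : Conf J hh g p m1 m3) (hf : Exo J hh f m1) (hg : Exo J hh g m3)
    (hfg : Exo J hh (f * g) m3) :
    (q + 1) * ∑ w, (1 - hh w) * (A (φ p) w * (CC J f w m1 * CC J (f * g) w m3))
      = 2 * q ^ 2 + (q + 1) * q * CC J g m1 m3 := by
  have hp := c.hp
  have hm1 := c.hm1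
  have hm3 := c.hm3
  have hφp : hh (φ p) = 1 := by rw [a.hτ]; exact hp
  have hA := conf_A h c
  have hC := conf_C h b c
  have Zf := U_zb h H hf
  have Zg := U_zb h H hg
  have Zfg := U_zb h H hfg
  have ZG := h.G_zb H (φ p)
  obtain ⟨k, hk⟩ : ∃ k, k = c1 q := ⟨_, rfl⟩
  obtain ⟨ε, hε⟩ : ∃ ε, ε = CC J g m1 m3 := ⟨_, rfl⟩
  -- the H sum, transported
  have hS : ∑ w, hh w * (G q A hh (φ p) w * U q J hh f m1 w * U q J hh (f * g) m3 w)
      = ∑ x, hh x * (G q A hh p x * G q A hh m1 x * U q J hh g m3 x) := by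
    rw [← Equiv.sum_comp φ (fun w => hh w * (G q A hh (φ p) w * U q J hh f m1 w *
      U q J hh (f * g) m3 w))]
    refine Finset.sum_congr rfl fun x _ => ?_
    rw [a.hτ]
    rcases H.h01 x with ex | ex
    · rw [ex]; ring
    · rw [G_map h a ex hp, U_map1 h a ex hm1, U_map a g ex]
  -- T0
  have hT := h.T0 ZG Zf Zfg
  have hT' : ∑ w, (1 - hh w) * (G q A hh (φ p) w * U q J hh f m1 w * U q J hh (f * g) m3 w)
      = -∑ x, hh x * (G q A hh p x * G q A hh m1 x * U q J hh g m3 x) := by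
    rw [← hS]
    have s : ∀ w, (1 - hh w) * (G q A hh (φ p) w * U q J hh f m1 w * U q J hh (f * g) m3 w)
        = G q A hh (φ p) w * U q J hh f m1 w * U q J hh (f * g) m3 w
          - hh w * (G q A hh (φ p) w * U q J hh f m1 w * U q J hh (f * g) m3 w) := by
      intro w; ring
    rw [Finset.sum_congr rfl fun w _ => s w, Finset.sum_sub_distrib, hT]; ring
  -- evaluation of the H sum
  have r1 := h.rep_H H Zg (U_chi h H g m3) p
  rw [U_H hp, hC] at r1
  have r2 := h.rep_H H Zg (U_chi h H g m3) m1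
  rw [U_M hm1] at r2
  have r3 := h.rep_H H (h.G_zb H m1) (h.G_chi H m1) p
  rw [G_MH h hp hm1, h.Asymm m1 p, hA] at r3
  have y1 := y_exo h H hg hm1
  have hS0 : ∑ x, hh x * (G q A hh p x * G q A hh m1 x * U q J hh g m3 x)
      = 2 * c1 q * ((q ^ 2 + q) / 2 * (c1 q - 1)) + (q - 1)
        + (1 / (q + 1) - q / (q ^ 3 + 1)) * ((q ^ 2 + 1) / 2 + (q ^ 2 + q) / 2 * CC J g m1 m3) := by
    have s : ∀ x, hh x * (G q A hh p x * G q A hh m1 x * U q J hh g m3 x)
        = (q - 1) * (dl p x * (hh x * (A m1 x * CC J g x m3)))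
          - hh x * (A p x * (A m1 x * CC J g x m3))
          + (1 / (q + 1) - q / (q ^ 3 + 1)) * (hh x * (A m1 x * CC J g x m3))
          + c1 q * (hh x * (G q A hh p x * G q A hh m1 x))
          + c1 q * (hh x * (G q A hh p x * U q J hh g m3 x))
          - c1 q ^ 2 * (hh x * G q A hh p x) := by
      intro x
      rcases H.h01 x with ex | ex
      · rw [ex]; ring
      · rw [G_MH h ex hm1, U_H ex, ex]
        have hG : G q A hh p x = (q - 1) * dl p x - A p x + (1 / (q + 1) - q / (q ^ 3 + 1)) := by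
          unfold G; rw [chiH hp, chiH ex]; ring
        rw [hG]; ring
    rw [Finset.sum_congr rfl fun x _ => s x]
    simp only [Finset.sum_add_distrib, Finset.sum_sub_distrib, ← Finset.mul_sum]
    rw [sum_dl_mul p (fun x => hh x * (A m1 x * CC J g x m3)),
      Finset.sum_eq_zero (fun x _ => conf_zero h H b c x), y1, r1, r3, sumG_H h H, hp, hC,
      h.Asymm m1 p, hA]
    ring
  -- evaluation of the M sum
  have v1 := h.rep_M H Zf (U_chi h H f m1) (φ p)
  have v2 := h.rep_M H Zfg (U_chi h H (f * g) m3) (φ p)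
  have hU1 : U q J hh f m1 (φ p) = c1 q - 1 := by
    rw [U_map1 h a hp hm1, G_MH h hp hm1, h.Asymm m1 p, hA]
  have hU2 : U q J hh (f * g) m3 (φ p) = c1 q - 1 := by
    rw [U_map a g hp, U_H hp, hC]
  rw [hU1] at v1
  rw [hU2] at v2
  have w1 : ∑ w, (1 - hh w) * (A (φ p) w * U q J hh f m1 w)
      = (q ^ 2 + q) / 2 * (1 - c1 q) := by
    have s : ∀ w, (1 - hh w) * (A (φ p) w * U q J hh f m1 w)
        = c1 q * ((1 - hh w) * U q J hh f m1 w)
          - (1 - hh w) * (G q A hh (φ p) w * U q J hh f m1 w) := by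
      intro w
      rcases H.h01 w with e | e
      · rw [G_HM h hφp e]; ring
      · rw [e]; ring
    rw [Finset.sum_congr rfl fun x _ => s x]
    simp only [Finset.sum_sub_distrib, ← Finset.mul_sum]
    rw [sumU_M h H hf, v1]; ring
  have w2 : ∑ w, (1 - hh w) * (A (φ p) w * U q J hh (f * g) m3 w)
      = (q ^ 2 + q) / 2 * (1 - c1 q) := by
    have s : ∀ w, (1 - hh w) * (A (φ p) w * U q J hh (f * g) m3 w)
        = c1 q * ((1 - hh w) * U q J hh (f * g) m3 w)
          - (1 - hh w) * (G q A hh (φ p) w * U q J hh (f * g) m3 w) := by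
      intro w
      rcases H.h01 w with e | e
      · rw [G_HM h hφp e]; ring
      · rw [e]; ring
    rw [Finset.sum_congr rfl fun x _ => s x]
    simp only [Finset.sum_sub_distrib, ← Finset.mul_sum]
    rw [sumU_M h H hfg, v2]; ring
  have w3 : ∑ w, (1 - hh w) * (U q J hh f m1 w * U q J hh (f * g) m3 w)
      = (q ^ 2 + q) / 2 * (CC J g m1 m3 - c1 q) := by
    rw [h.sum_M H Zf Zfg, ← h.sum_H H Zf Zfg, ← r2,
      ← Equiv.sum_comp φ (fun w => hh w * (U q J hh f m1 w * U q J hh (f * g) m3 w))]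
    refine Finset.sum_congr rfl fun x _ => ?_
    rw [a.hτ]
    rcases H.h01 x with ex | ex
    · rw [ex]; ring
    · rw [U_map1 h a ex hm1, U_map a g ex]
  have w4 : ∑ w, (1 - hh w) * A (φ p) w = (q ^ 2 + 1) * ((q + 1) / 2) := by
    have s : ∀ w, (1 - hh w) * A (φ p) w = A (φ p) w - A (φ p) w * hh w := by intro w; ring
    rw [Finset.sum_congr rfl fun x _ => s x, Finset.sum_sub_distrib, h.deg, h.degH H, hφp]; ring
  have hM : ∑ w, (1 - hh w) * (G q A hh (φ p) w * U q J hh f m1 w * U q J hh (f * g) m3 w)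
      = c1 q * ((q ^ 2 + q) / 2 * (CC J g m1 m3 - c1 q))
        - ∑ w, (1 - hh w) * (A (φ p) w * (CC J f w m1 * CC J (f * g) w m3))
        + 2 * c1 q * ((q ^ 2 + q) / 2 * (1 - c1 q)) + c1 q ^ 2 * ((q ^ 2 + 1) * ((q + 1) / 2)) := by
    have s : ∀ w, (1 - hh w) * (G q A hh (φ p) w * U q J hh f m1 w * U q J hh (f * g) m3 w)
        = c1 q * ((1 - hh w) * (U q J hh f m1 w * U q J hh (f * g) m3 w))
          - (1 - hh w) * (A (φ p) w * (CC J f w m1 * CC J (f * g) w m3))
          + c1 q * ((1 - hh w) * (A (φ p) w * U q J hh f m1 w))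
          + c1 q * ((1 - hh w) * (A (φ p) w * U q J hh (f * g) m3 w))
          + c1 q ^ 2 * ((1 - hh w) * A (φ p) w) := by
      intro w
      rcases H.h01 w with e | e
      · rw [G_HM h hφp e, U_M e, U_M e, e]; ring
      · rw [e]; ring
    rw [Finset.sum_congr rfl fun x _ => s x]
    simp only [Finset.sum_add_distrib, Finset.sum_sub_distrib, ← Finset.mul_sum]
    rw [w1, w2, w3, w4]; ring
  rw [hM, hS0] at hT'
  have q1 := h.q1
  have q3 := h.q3
  have e3 : c1 q * (q + 1) * (q ^ 2 - q + 1) = q ^ 2 + 1 := by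
    unfold c1; field_simp; ring
  have e4 : (1 / (q + 1) - q / (q ^ 3 + 1)) * (q + 1) = 2 - c1 q * (q + 1) := by
    unfold c1; field_simp; ring
  linear_combination (-(q + 1)) * hT' + ((q ^ 2 + 1) / 2 + (q ^ 2 + q) / 2 * CC J g m1 m3) * e4
    + (c1 q * (q + 1) / 2) * e3

end AU

end Pool.Agent.helper56.Hemi
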