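import Pool.Agent.helper56.Hemi.Reg

set_option autoImplicit false

namespace Pool.Agent.helper56.Hemi

open Finset

/-- the relation between the two structures. -/
def Cc {P L : Type} [Fintype P] (J J2 : P → L → ℚ) (w e : L) : ℚ := ∑ p, J p w * J2 p e

/-- Two quadrangles on the same blocks sharing a hemisystem. -/
structure Twin {P L : Type} [Fintype P] [Fintype L] (q : ℚ) (J J2 : P → L → ℚ)
    (A A2 : L → L → ℚ) (hh : L → ℚ) : Prop where
  g1 : GQD q J A
  g2 : GQD q J2 A2
  h1 : HM q J hh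
  h2 : HM q J2 hh
  JH : ∀ p x, hh x = 1 → J2 p x = J p x
  C01 : ∀ m e, hh m = 0 → hh e = 0 → Cc J J2 m e = 0 ∨ Cc J J2 m e = 1
  bs : ∀ e, hh e = 0 → ∀ p,
    ∑ x, J p x * ((1 - hh x) * Cc J J2 x e) = ∑ x, J p x * (hh x * Cc J J2 x e)

/-- the transported function -/
def UT {P L : Type} [Fintype P] (q : ℚ) (J J2 : P → L → ℚ) (hh : L → ℚ)
    (e w : L) : ℚ := -chi hh w * (Cc J J2 w e - c1 q)

namespace Twin

variable {P L : Type} [Fintype P] [Fintype L] {q : ℚ} {J J2 : P → L → ℚ} {A A2 : L → L → ℚ}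
  {hh : L → ℚ}

theorem CcH (T : Twin q J J2 A A2 hh) {x e : L} (hx : hh x = 1) (he : hh e = 0) :
    Cc J J2 x e = A2 x e := by
  have e1 := T.g2.JJ x e
  rw [dl_ne (AU.ne_HM hx he)] at e1
  have e2 : Cc J J2 x e = ∑ p, J2 p x * J2 p e := by
    unfold Cc; exact Finset.sum_congr rfl fun p _ => by rw [T.JH p x hx]
  rw [e2, e1]; ring

theorem AH (T : Twin q J J2 A A2 hh) {x y : L} (hx : hh x = 1) (hy : hh y = 1) :
    A2 x y = A x y := by
  have e1 := T.g1.JJ x y
  have e2 := T.g2.JJ x y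
  have e3 : ∑ p, J2 p x * J2 p y = ∑ p, J p x * J p y :=
    Finset.sum_congr rfl fun p _ => by rw [T.JH p x hx, T.JH p y hy]
  rw [e3] at e2
  linarith

theorem zb (T : Twin q J J2 A A2 hh) {e : L} (he : hh e = 0) : ZB J (UT q J J2 hh e) := by
  intro p
  have e1 := T.bs e he p
  have c := T.g1.chi_zb T.h1 p
  have s : ∀ w, J p w * UT q J J2 hh e w
      = J p w * ((1 - hh w) * Cc J J2 w e) - J p w * (hh w * Cc J J2 w e)
        + c1 q * (J p w * chi hh w) := by
    intro w; unfold UT chi; ring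
  rw [Finset.sum_congr rfl fun w _ => s w]
  simp only [Finset.sum_add_distrib, Finset.sum_sub_distrib, ← Finset.mul_sum]
  rw [e1, c]; ring

theorem sumC (T : Twin q J J2 A A2 hh) (e : L) : ∑ w, Cc J J2 w e = (q ^ 2 + 1) * (q + 1) := by
  unfold Cc
  rw [Finset.sum_comm, Finset.sum_congr rfl fun p _ => (Finset.sum_mul _ _ _).symm,
    Finset.sum_congr rfl fun p _ => by rw [T.g1.sumJL p], ← Finset.mul_sum, T.g2.sumJP]
  ring

theorem uchi (T : Twin q J J2 A A2 hh) (e : L) : ∑ w, chi hh w * UT q J J2 hh e w = 0 := by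
  have s : ∀ w, chi hh w * UT q J J2 hh e w = c1 q * 1 - Cc J J2 w e := by
    intro w; unfold UT
    linear_combination (-(Cc J J2 w e - c1 q)) * GQD.chi_sq T.h1 w
  rw [Finset.sum_congr rfl fun w _ => s w]
  simp only [Finset.sum_sub_distrib, ← Finset.mul_sum]
  rw [T.g1.card e, T.sumC]
  unfold c1
  have := T.g1.q3
  field_simp
  ring

theorem UH {x : L} (hx : hh x = 1) (e : L) : UT q J J2 hh e x = c1 q - Cc J J2 x e := by
  unfold UT; rw [AU.chiH hx]; ring

theorem UM {x : L} (hx : hh x = 0) (e : L) : UT q J J2 hh e x = Cc J J2 x e - c1 q := by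
  unfold UT; rw [AU.chiM hx]; ring

theorem umM (T : Twin q J J2 A A2 hh) {e : L} (he : hh e = 0) :
    ∑ w, (1 - hh w) * UT q J J2 hh e w = 0 := by
  have e1 := T.g1.sum_zb (T.zb he)
  have e2 := T.uchi e
  have s : ∀ w, (1 - hh w) * UT q J J2 hh e w
      = 1 / 2 * UT q J J2 hh e w - 1 / 2 * (chi hh w * UT q J J2 hh e w) := by
    intro w; unfold chi; ring
  rw [Finset.sum_congr rfl fun w _ => s w]
  simp only [Finset.sum_sub_distrib, ← Finset.mul_sum]
  rw [e1, e2]; ring

end Twin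

/-- sum of `G` over the other side -/
theorem sumG_M {P L : Type} [Fintype P] [Fintype L] {q : ℚ} {J : P → L → ℚ} {A : L → L → ℚ}
    {hh : L → ℚ} (h : GQD q J A) (H : HM q J hh) (x : L) :
    ∑ w, (1 - hh w) * G q A hh x w = 0 := by
  have e1 := h.sum_zb (h.G_zb H x)
  have e2 := AU.sumG_H h H x
  have s : ∀ w, (1 - hh w) * G q A hh x w = G q A hh x w - hh w * G q A hh x w := by
    intro w; ring
  rw [Finset.sum_congr rfl fun w _ => s w, Finset.sum_sub_distrib, e1, e2]; ring

/-- common neighbours outside `H` of two nonadjacent vertices of `H`. -/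
theorem kM {P L : Type} [Fintype P] [Fintype L] {q : ℚ} {J : P → L → ℚ} {A : L → L → ℚ}
    {hh : L → ℚ} (h : GQD q J A) (H : HM q J hh) {x y : L} (hx : hh x = 1) (hy : hh y = 1)
    (hne : x ≠ y) (hxy : A x y = 0) :
    ∑ w, (1 - hh w) * (A x w * A y w) = (q + 1) ^ 2 / 2 := by
  have e1 := h.H2 H x y
  rw [AU.chiH hx, AU.chiH hy, dl_ne hne, hxy] at e1
  have e2 : ∑ w, A x w * A y w = q ^ 2 + 1 := by
    have := h.A2 x y
    rw [dl_ne hne, hxy] at this
    rw [Finset.sum_congr rfl fun w _ => by rw [h.Asymm y w], this]; ring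
  have s : ∀ w, (1 - hh w) * (A x w * A y w) = A x w * A y w - hh w * (A x w * A y w) := by
    intro w; ring
  rw [Finset.sum_congr rfl fun w _ => s w, Finset.sum_sub_distrib, e2]
  linarith

namespace Twin

variable {P L : Type} [Fintype P] [Fintype L] {q : ℚ} {J J2 : P → L → ℚ} {A A2 : L → L → ℚ}
  {hh : L → ℚ}

/-- The set `D` has size `2q`. -/
theorem F1 (T : Twin q J J2 A A2 hh) {x y e : L} (hx : hh x = 1) (hy : hh y = 1)
    (hne : x ≠ y) (hxy : A x y = 0) (he : hh e = 0) (hxe : A2 x e = 1) (hye : A2 y e = 1) :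
    ∑ m, (1 - hh m) * (A x m * A y m * Cc J J2 m e) = 2 * q := by
  have g1 := T.g1
  have g2 := T.g2
  have h1 := T.h1
  have h2 := T.h2
  have hxy2 : A2 x y = 0 := by rw [T.AH hx hy]; exact hxy
  have ZU := T.zb he
  -- T0 in both
  have t1 := g1.T0 (g1.G_zb h1 x) (g1.G_zb h1 y) ZU
  have t2 := g2.T0 (g2.G_zb h2 x) (g2.G_zb h2 y) (g2.G_zb h2 e)
  have hHH : ∀ w, hh w * (G q A hh x w * G q A hh y w * UT q J J2 hh e w)
      = hh w * (G q A2 hh x w * G q A2 hh y w * G q A2 hh e w) := by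
    intro w
    rcases h1.h01 w with ew | ew
    · rw [ew]; ring
    · have a1 : G q A hh x w = G q A2 hh x w := by unfold G; rw [T.AH hx ew]
      have a2 : G q A hh y w = G q A2 hh y w := by unfold G; rw [T.AH hy ew]
      have a3 : UT q J J2 hh e w = G q A2 hh e w := by
        rw [UH ew, T.CcH ew he, AU.G_MH g2 ew he, g2.Asymm]
      rw [a1, a2, a3]
  have hMM : ∑ w, (1 - hh w) * (G q A hh x w * G q A hh y w * UT q J J2 hh e w)
      = ∑ w, (1 - hh w) * (G q A2 hh x w * G q A2 hh y w * G q A2 hh e w) := by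
    have s1 : ∀ w, (1 - hh w) * (G q A hh x w * G q A hh y w * UT q J J2 hh e w)
        = G q A hh x w * G q A hh y w * UT q J J2 hh e w
          - hh w * (G q A2 hh x w * G q A2 hh y w * G q A2 hh e w) := by
      intro w; rw [← hHH w]; ring
    have s2 : ∀ w, (1 - hh w) * (G q A2 hh x w * G q A2 hh y w * G q A2 hh e w)
        = G q A2 hh x w * G q A2 hh y w * G q A2 hh e w
          - hh w * (G q A2 hh x w * G q A2 hh y w * G q A2 hh e w) := by
      intro w; ring
    rw [Finset.sum_congr rfl fun w _ => s1 w, Finset.sum_congr rfl fun w _ => s2 w,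
      Finset.sum_sub_distrib, Finset.sum_sub_distrib, t1, t2]
  -- pair sums, first structure
  have pair1 : ∀ z, hh z = 1 → A2 z e = 1 →
      ∑ w, (1 - hh w) * (A z w * UT q J J2 hh e w) = (q ^ 2 + q) / 2 * (1 - c1 q) := by
    intro z hz hze
    have v := g1.rep_M h1 ZU (T.uchi e) z
    rw [UH hz, T.CcH hz he, hze] at v
    have s : ∀ w, (1 - hh w) * (A z w * UT q J J2 hh e w)
        = c1 q * ((1 - hh w) * UT q J J2 hh e w)
          - (1 - hh w) * (G q A hh z w * UT q J J2 hh e w) := by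
      intro w
      rcases h1.h01 w with ew | ew
      · rw [AU.G_HM g1 hz ew]; ring
      · rw [ew]; ring
    rw [Finset.sum_congr rfl fun w _ => s w]
    simp only [Finset.sum_sub_distrib, ← Finset.mul_sum]
    rw [T.umM he, v]; ring
  have pair2 : ∀ z, hh z = 1 → A2 z e = 1 →
      ∑ w, (1 - hh w) * (A2 z w * G q A2 hh e w) = (q ^ 2 + q) / 2 * (1 - c1 q) := by
    intro z hz hze
    have v := g2.rep_M h2 (g2.G_zb h2 e) (g2.G_chi h2 e) z
    rw [AU.G_MH g2 hz he, g2.Asymm e z, hze] at v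
    have s : ∀ w, (1 - hh w) * (A2 z w * G q A2 hh e w)
        = c1 q * ((1 - hh w) * G q A2 hh e w)
          - (1 - hh w) * (G q A2 hh z w * G q A2 hh e w) := by
      intro w
      rcases h1.h01 w with ew | ew
      · rw [AU.G_HM g2 hz ew]; ring
      · rw [ew]; ring
    rw [Finset.sum_congr rfl fun w _ => s w]
    simp only [Finset.sum_sub_distrib, ← Finset.mul_sum]
    rw [sumG_M g2 h2, v]; ring
  have L1 : ∑ w, (1 - hh w) * (G q A hh x w * G q A hh y w * UT q J J2 hh e w)
      = ∑ m, (1 - hh m) * (A x m * A y m * Cc J J2 m e) - c1 q * ((q + 1) ^ 2 / 2)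
        - 2 * c1 q * ((q ^ 2 + q) / 2 * (1 - c1 q)) := by
    have s : ∀ w, (1 - hh w) * (G q A hh x w * G q A hh y w * UT q J J2 hh e w)
        = (1 - hh w) * (A x w * A y w * Cc J J2 w e) - c1 q * ((1 - hh w) * (A x w * A y w))
          - c1 q * ((1 - hh w) * (A x w * UT q J J2 hh e w))
          - c1 q * ((1 - hh w) * (A y w * UT q J J2 hh e w))
          + c1 q ^ 2 * ((1 - hh w) * UT q J J2 hh e w) := by
      intro w
      rcases h1.h01 w with ew | ew
      · rw [AU.G_HM g1 hx ew, AU.G_HM g1 hy ew, UM ew]; ring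
      · rw [ew]; ring
    rw [Finset.sum_congr rfl fun w _ => s w]
    simp only [Finset.sum_add_distrib, Finset.sum_sub_distrib, ← Finset.mul_sum]
    rw [kM g1 h1 hx hy hne hxy, pair1 x hx hxe, pair1 y hy hye, T.umM he]
    ring
  have L2 : ∑ w, (1 - hh w) * (G q A2 hh x w * G q A2 hh y w * G q A2 hh e w)
      = (q - 1) + (1 / (q + 1) - q / (q ^ 3 + 1)) * ((q + 1) ^ 2 / 2)
        - 2 * c1 q * ((q ^ 2 + q) / 2 * (1 - c1 q)) := by
    have s : ∀ w, (1 - hh w) * (G q A2 hh x w * G q A2 hh y w * G q A2 hh e w)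
        = (q - 1) * (dl e w * ((1 - hh w) * (A2 x w * A2 y w)))
          + (1 / (q + 1) - q / (q ^ 3 + 1)) * ((1 - hh w) * (A2 x w * A2 y w))
          - c1 q * ((1 - hh w) * (A2 x w * G q A2 hh e w))
          - c1 q * ((1 - hh w) * (A2 y w * G q A2 hh e w))
          + c1 q ^ 2 * ((1 - hh w) * G q A2 hh e w) := by
      intro w
      rcases h1.h01 w with ew | ew
      · rw [AU.G_HM g2 hx ew, AU.G_HM g2 hy ew]
        have hG : G q A2 hh e w = (q - 1) * dl e w - A2 e w
            + (1 / (q + 1) - q / (q ^ 3 + 1)) := by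
          unfold G; rw [AU.chiM he, AU.chiM ew]; ring
        have hz : A2 x w * A2 y w * A2 e w = 0 := by
          have := g2.no_tri (w := e) (z := w) hne hxy2
          rw [g2.Asymm e x, g2.Asymm e y, hxe, hye] at this
          rw [g2.Asymm x w, g2.Asymm y w]
          linarith
        rw [hG]
        linear_combination (-(1 - hh w)) * hz
      · rw [ew]; ring
    rw [Finset.sum_congr rfl fun w _ => s w]
    simp only [Finset.sum_add_distrib, Finset.sum_sub_distrib, ← Finset.mul_sum]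
    rw [sum_dl_mul e (fun w => (1 - hh w) * (A2 x w * A2 y w)), kM g2 h2 hx hy hne hxy2,
      pair2 x hx hxe, pair2 y hy hye, sumG_M g2 h2, hxe, hye, he]
    ring
  rw [L1, L2] at hMM
  have q1 := g1.q1
  have q3 := g1.q3
  have e4 : (1 / (q + 1) - q / (q ^ 3 + 1)) * (q + 1) = 2 - c1 q * (q + 1) := by
    unfold c1; field_simp; ring
  linear_combination hMM + ((q + 1) / 2) * e4

/-- The relation for conic pairs. -/
theorem F2 (T : Twin q J J2 A A2 hh) {t t' : L → ℚ} (c : CP q A t t') {e : L}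
    (he : hh e = 0) :
    ∑ v, (t v + t' v) * ((1 - hh v) * Cc J J2 v e) = ∑ v, (t v + t' v) * (hh v * Cc J J2 v e) := by
  have e1 := c.cp_sum T.g1 (T.zb he)
  have e2 := c.cp_sum T.g1 (T.g1.chi_zb T.h1)
  have s : ∀ v, (t v + t' v) * UT q J J2 hh e v
      = (t v + t' v) * ((1 - hh v) * Cc J J2 v e) - (t v + t' v) * (hh v * Cc J J2 v e)
        + c1 q * ((t v + t' v) * chi hh v) := by
    intro v; unfold UT chi; ring
  rw [Finset.sum_congr rfl fun w _ => s w] at e1
  simp only [Finset.sum_add_distrib, Finset.sum_sub_distrib, ← Finset.mul_sum] at e1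
  rw [e2] at e1
  linarith

/-- a block with two related vertices is a block of `e`. -/
theorem blk (T : Twin q J J2 A A2 hh) {p : P} {m m' e : L} (hm : hh m = 0) (hm' : hh m' = 0)
    (he : hh e = 0) (hne : m ≠ m') (hpm : J p m = 1) (hpm' : J p m' = 1)
    (hC : Cc J J2 m e = 1) (hC' : Cc J J2 m' e = 1) : J2 p e = 1 := by
  classical
  rcases T.g2.J01 p e with h0 | h0
  · exfalso
    have e1 := T.bs e he p
    have e2 : ∑ y ∈ ({m, m'} : Finset L), J p y * ((1 - hh y) * Cc J J2 y e)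
        ≤ ∑ y, J p y * ((1 - hh y) * Cc J J2 y e) := by
      refine Finset.sum_le_sum_of_subset_of_nonneg (Finset.subset_univ _) fun y _ _ => ?_
      refine mul_nonneg (T.g1.Jnn p y) ?_
      rcases T.h1.h01 y with ey | ey
      · rcases T.C01 y e ey he with e3 | e3 <;> rw [ey, e3] <;> norm_num
      · rw [ey]; norm_num
    rw [Finset.sum_pair hne, hpm, hpm', hm, hm', hC, hC', e1] at e2
    have e3 : ∑ x, J p x * (hh x * Cc J J2 x e) ≤ ∑ x, J2 p x * A2 x e := by
      refine Finset.sum_le_sum fun x _ => ?_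
      rcases T.h1.h01 x with ex | ex
      · rw [ex]
        have := mul_nonneg (T.g2.Jnn p x) (T.g2.Ann x e)
        linarith
      · rw [ex, T.CcH ex he, T.JH p x ex]; linarith
    rw [T.g2.JA, h0] at e3
    linarith
  · exact h0

/-- at most one common block -/
theorem blk_unique (T : Twin q J J2 A A2 hh) {p p' : P} {m e : L} (hm : hh m = 0)
    (he : hh e = 0) (h1 : J p m = 1) (h2 : J2 p e = 1) (h3 : J p' m = 1) (h4 : J2 p' e = 1) :
    p = p' := by
  classical
  by_contra hne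
  have e2 : ∑ y ∈ ({p, p'} : Finset P), J y m * J2 y e ≤ ∑ y, J y m * J2 y e :=
    Finset.sum_le_sum_of_subset_of_nonneg (Finset.subset_univ _)
      (fun y _ _ => mul_nonneg (T.g1.Jnn _ _) (T.g2.Jnn _ _))
  rw [Finset.sum_pair hne, h1, h2, h3, h4] at e2
  have e3 : ∑ y, J y m * J2 y e = Cc J J2 m e := rfl
  rw [e3] at e2
  rcases T.C01 m e hm he with e | e <;> rw [e] at e2 <;> norm_num at e2

/-- uniqueness of the related vertex on the other side. -/
theorem uniq (T : Twin q J J2 A A2 hh) {t t' : L → ℚ} (c : CP q A t t') {e m a b : L}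
    (he : hh e = 0) (hm : hh m = 0) (ha : hh a = 0) (hb : hh b = 0) (tm : t m = 1)
    (ta : t' a = 1) (tb : t' b = 1) (Cm : Cc J J2 m e = 1) (Ca : Cc J J2 a e = 1)
    (Cb : Cc J J2 b e = 1) : a = b := by
  by_contra hne
  obtain ⟨p, hp1, hp2⟩ := T.g1.block_exists (c.cross m a tm ta)
  obtain ⟨p', hp1', hp2'⟩ := T.g1.block_exists (c.cross m b tm tb)
  have k1 := T.blk hm ha he (T.g1.ne_of_adj (c.cross m a tm ta)) hp1 hp2 Cm Ca
  have k2 := T.blk hm hb he (T.g1.ne_of_adj (c.cross m b tm tb)) hp1' hp2' Cm Cb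
  have hpp := T.blk_unique hm he hp1 k1 hp1' k2
  subst hpp
  have := T.g1.adj_of_block hne hp2 hp2'
  rw [c.tt' a b ta tb] at this
  norm_num at this

/-- The type argument. -/
theorem F4 (T : Twin q J J2 A A2 hh) {t t' : L → ℚ} (c : CP q A t t') {e : L} (he : hh e = 0)
    (h1 : ∀ x, hh x = 1 → t' x = 1 → A2 x e = 1) (h0 : ∀ x, hh x = 1 → t x = 1 → A2 x e = 0)
    {f : ℚ} (hf : ∑ v, t' v * hh v = f) (hf3 : 3 ≤ f) (hfj : q + 1 - f < f) :
    ∑ v, t v * ((1 - hh v) * Cc J J2 v e) = f := by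
  classical
  have g1 := T.g1
  have e2 := T.F2 c he
  have e3 : ∑ v, (t v + t' v) * (hh v * Cc J J2 v e) = f := by
    rw [← hf]
    refine Finset.sum_congr rfl fun v _ => ?_
    rcases T.h1.h01 v with ev | ev
    · rw [ev]; ring
    rw [ev, T.CcH ev he]
    have hd := c.disj g1 v
    rcases c.t01 v with a | a
    · rcases c.t01' v with b | b
      · rw [a, b]; ring
      · rw [a, b, h1 v ev b]; ring
    · rcases c.t01' v with b | b
      · rw [a, b, h0 v ev a]; ring
      · rw [a, b] at hd; norm_num at hd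
  rw [e3] at e2
  have s : ∑ v, (t v + t' v) * ((1 - hh v) * Cc J J2 v e)
      = ∑ v, t v * ((1 - hh v) * Cc J J2 v e) + ∑ v, t' v * ((1 - hh v) * Cc J J2 v e) := by
    rw [← Finset.sum_add_distrib]; exact Finset.sum_congr rfl fun v _ => by ring
  rw [s] at e2
  have f01 : ∀ (g : L → ℚ), (∀ v, g v = 0 ∨ g v = 1) → ∀ v,
      g v * ((1 - hh v) * Cc J J2 v e) = 0 ∨
        (g v * ((1 - hh v) * Cc J J2 v e) = 1 ∧ g v = 1 ∧ hh v = 0 ∧ Cc J J2 v e = 1) := by
    intro g hg v
    rcases hg v with a | a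
    · left; rw [a]; ring
    rcases T.h1.h01 v with b | b
    · rcases T.C01 v e b he with d | d
      · left; rw [d]; ring
      · right; rw [a, b, d]; norm_num
    · left; rw [b]; ring
  -- bound on the second part
  have hle : ∑ v, t' v * ((1 - hh v) * Cc J J2 v e) ≤ q + 1 - f := by
    have : ∑ v, (t' v - t' v * hh v) = q + 1 - f := by
      rw [Finset.sum_sub_distrib, c.ts', hf]
    rw [← this]
    refine Finset.sum_le_sum fun v _ => ?_
    rcases f01 t' c.t01' v with a | ⟨a, b, d, _⟩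
    · rw [a]
      rcases c.t01' v with b | b <;> rcases T.h1.h01 v with d | d <;> rw [b, d] <;> norm_num
    · rw [a, b, d]; norm_num
  have hpos : 0 < ∑ v, t v * ((1 - hh v) * Cc J J2 v e) := by linarith
  obtain ⟨m, hm⟩ : ∃ m, t m * ((1 - hh m) * Cc J J2 m e) ≠ 0 := by
    by_contra hcon
    push Not at hcon
    rw [Finset.sum_eq_zero fun v _ => hcon v] at hpos
    exact lt_irrefl _ hpos
  obtain ⟨_, tm, hhm, Cm⟩ := (f01 t c.t01 m).resolve_left hm
  by_cases hex : ∃ m', t' m' * ((1 - hh m') * Cc J J2 m' e) ≠ 0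
  · exfalso
    obtain ⟨m', hm'⟩ := hex
    obtain ⟨v1', tm', hhm', Cm'⟩ := (f01 t' c.t01' m').resolve_left hm'
    have s1 : ∑ v, t' v * ((1 - hh v) * Cc J J2 v e) = 1 := by
      rw [Finset.sum_eq_single m']
      · exact v1'
      · intro b _ hb
        rcases f01 t' c.t01' b with a | ⟨_, tb, hhb, Cb⟩
        · exact a
        · exact absurd (T.uniq c he hhm hhb hhm' tm tb tm' Cm Cb Cm') hb
      · intro hx; exact absurd (Finset.mem_univ _) hx
    have s2 : ∑ v, t v * ((1 - hh v) * Cc J J2 v e) = 1 := by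
      rw [Finset.sum_eq_single m]
      · rw [tm, hhm, Cm]; norm_num
      · intro b _ hb
        rcases f01 t c.t01 b with a | ⟨_, tb, hhb, Cb⟩
        · exact a
        · exact absurd (T.uniq (c.symm g1) he hhm' hhb hhm tm' tb tm Cm' Cb Cm) hb
      · intro hx; exact absurd (Finset.mem_univ _) hx
    rw [s1, s2] at e2
    linarith
  · push Not at hex
    rw [Finset.sum_eq_zero fun v _ => hex v] at e2
    linarith

end Twin

end Pool.Agent.helper56.Hemi
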