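import Pool.Agent.helper56.Hemi.Basic

set_option autoImplicit false

namespace Pool.Agent.helper56.Hemi

open Finset

/-- a hemisystem, as an indicator function. -/
structure HM {P L : Type} [Fintype P] [Fintype L] (q : ℚ) (J : P → L → ℚ)
    (hh : L → ℚ) : Prop where
  h01 : ∀ x, hh x = 0 ∨ hh x = 1
  sumH : ∀ p, ∑ x, J p x * hh x = (q + 1) / 2

/-- zero block sums. -/
def ZB {P L : Type} [Fintype P] [Fintype L] (J : P → L → ℚ) (u : L → ℚ) : Prop :=
  ∀ p, ∑ x, J p x * u x = 0

/-- the sign function of the hemisystem. -/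
def chi {L : Type} (hh : L → ℚ) (x : L) : ℚ := 2 * hh x - 1

/-- The scaled projection. -/
noncomputable def G {L : Type} (q : ℚ) (A : L → L → ℚ) (hh : L → ℚ) (x y : L) : ℚ :=
  (q - 1) * dl x y - A x y + 1 / (q + 1) - q / (q ^ 3 + 1) * (chi hh x * chi hh y)

namespace GQD

variable {P L : Type} [Fintype P] [Fintype L] {q : ℚ} {J : P → L → ℚ} {A : L → L → ℚ}
  {hh : L → ℚ}

theorem q1 (h : GQD q J A) : q + 1 ≠ 0 := by have := h.qge; positivity

theorem q3 (h : GQD q J A) : q ^ 3 + 1 ≠ 0 := by have := h.qge; positivity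

theorem q2 (h : GQD q J A) : q ^ 2 + 1 ≠ 0 := by have := h.qge; positivity

theorem qq (h : GQD q J A) : q ^ 2 + q ≠ 0 := by have := h.qge; positivity

theorem sum_A_zb (h : GQD q J A) {u : L → ℚ} (hu : ZB J u) (x : L) :
    ∑ y, A x y * u y = -(q ^ 2 + 1) * u x := by
  rw [h.sum_A_mul x u, Finset.sum_congr rfl fun p _ => by rw [hu p, mul_zero]]
  simp only [Finset.sum_const_zero]
  ring

theorem sum_A_zb' (h : GQD q J A) {u : L → ℚ} (hu : ZB J u) (x : L) :
    ∑ y, u y * A y x = -(q ^ 2 + 1) * u x := by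
  rw [← h.sum_A_zb hu x]
  exact Finset.sum_congr rfl fun y _ => by rw [h.Asymm y x]; ring

/-- a double count over blocks. -/
theorem sum_blocks (h : GQD q J A) (u : L → ℚ) :
    ∑ p, ∑ x, J p x * u x = (q ^ 2 + 1) * ∑ x, u x := by
  rw [Finset.sum_comm, Finset.mul_sum]
  exact Finset.sum_congr rfl fun x _ => by rw [← Finset.sum_mul, h.sumJP]

theorem sum_zb (h : GQD q J A) {u : L → ℚ} (hu : ZB J u) : ∑ x, u x = 0 := by
  have e := h.sum_blocks u
  rw [Finset.sum_congr rfl fun p _ => hu p] at e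
  simp only [Finset.sum_const_zero] at e
  rcases mul_eq_zero.mp e.symm with e1 | e1
  · exact absurd e1 h.q2
  · exact e1

theorem starstar (h : GQD q J A) {u v : L → ℚ} (hu : ZB J u) (hv : ZB J v) (p : L) :
    ∑ w, A w p * (u w * v w) = (q - 1) * (u p * v p) + (∑ w, u w * v w) / (q + 1) := by
  set Z : ℚ := ∑ w, A w p * (u w * v w) with hZ
  set B : ℚ := ∑ w, u w * v w with hB
  have hu0 := h.sum_zb hu
  have hv0 := h.sum_zb hv
  have e1 : ∑ a, u a * ∑ b, v b * ∑ w, A w p * A w a * A w b = (q ^ 2 + 1) ^ 2 * Z := by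
    have s1 : ∀ a, u a * ∑ b, v b * ∑ w, A w p * A w a * A w b
        = ∑ w, (A w p * (∑ b, A w b * v b)) * (A w a * u a) := by
      intro a
      have s2 : ∑ b, v b * ∑ w, A w p * A w a * A w b
          = ∑ w, A w p * A w a * (∑ b, A w b * v b) := by
        rw [Finset.sum_congr rfl fun b _ => Finset.mul_sum _ _ _, Finset.sum_comm]
        refine Finset.sum_congr rfl fun w _ => ?_
        rw [Finset.mul_sum]
        exact Finset.sum_congr rfl fun b _ => by ring
      rw [s2, Finset.mul_sum]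
      exact Finset.sum_congr rfl fun w _ => by ring
    rw [Finset.sum_congr rfl fun a _ => s1 a, Finset.sum_comm, hZ, Finset.mul_sum]
    refine Finset.sum_congr rfl fun w _ => ?_
    rw [← Finset.mul_sum, h.sum_A_zb hu, h.sum_A_zb hv]
    ring
  -- inner sum
  have e2 : ∀ a, ∑ b, v b * ∑ w, A w p * A w a * A w b
      = (q ^ 2 + 1) * q * v p + (q ^ 2 + 1) * q * v a
        - (q - 1) * (q ^ 2 + 1) * (A p a * v p) - (q - 1) * (q ^ 2 + 1) * (A p a * v a)
        + (q - 1) * (∑ b, v b * (A p b * A a b))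
        + (q - 1) ^ 2 * (q ^ 2 + 1) * (dl p a * v p)
        + v p * (q * (q - 1) - (q - 1) ^ 2 * A p a)
        + v a * (q * (q - 1) - (q - 1) ^ 2 * A p a)
        + (q - 1) ^ 3 * (dl p a * v p) := by
    intro a
    have s1 : ∀ b, v b * ∑ w, A w p * A w a * A w b
        = ((q + 1) - q * A p a + q * (q - 1) * dl p a) * v b
          + (-q + (q - 1) * A p a - (q - 1) ^ 2 * dl p a) * (A p b * v b)
          + (-q + (q - 1) * A p a) * (A a b * v b)
          + (q - 1) * (v b * (A p b * A a b))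
          + ((q * (q - 1) - (q - 1) ^ 2 * A p a) + (q - 1) ^ 3 * dl p a) * (dl p b * v b)
          + (q * (q - 1) - (q - 1) ^ 2 * A p a) * (dl a b * v b) := by
      intro b
      rw [h.N3 p a b]; ring
    rw [Finset.sum_congr rfl fun b _ => s1 b]
    simp only [Finset.sum_add_distrib, ← Finset.mul_sum]
    rw [hv0, h.sum_A_zb hv, h.sum_A_zb hv, sum_dl_mul, sum_dl_mul]
    ring
  have e3 : ∑ a, u a * ∑ b, v b * (A p b * A a b) = -(q ^ 2 + 1) * Z := by
    rw [Finset.sum_congr rfl fun a _ => Finset.mul_sum _ _ _, Finset.sum_comm, hZ, Finset.mul_sum]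
    refine Finset.sum_congr rfl fun b _ => ?_
    have : ∑ a, u a * (v b * (A p b * A a b)) = v b * A p b * ∑ a, u a * A a b := by
      rw [Finset.mul_sum]; exact Finset.sum_congr rfl fun a _ => by ring
    rw [this, h.sum_A_zb' hu, h.Asymm p b]; ring
  have hZ' : ∑ w, A p w * (u w * v w) = Z := by
    rw [hZ]; exact Finset.sum_congr rfl fun w _ => by rw [h.Asymm p w]
  have e4 : ∑ a, u a * ∑ b, v b * ∑ w, A w p * A w a * A w b
      = (q * (q ^ 2 + 1) + q * (q - 1)) * B
        + (q - 1) * ((q ^ 2 + 1) ^ 2 + 2 * (q - 1) * (q ^ 2 + 1) + (q - 1) ^ 2) * (u p * v p)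
        - (2 * (q - 1) * (q ^ 2 + 1) + (q - 1) ^ 2) * Z := by
    have s1 : ∀ a, u a * ∑ b, v b * ∑ w, A w p * A w a * A w b
        = ((q ^ 2 + 1) * q * v p + v p * (q * (q - 1))) * u a
          + ((q ^ 2 + 1) * q + q * (q - 1)) * (u a * v a)
          + (-(q - 1) * (q ^ 2 + 1) * v p - (q - 1) ^ 2 * v p) * (A p a * u a)
          + (-(q - 1) * (q ^ 2 + 1) - (q - 1) ^ 2) * (A p a * (u a * v a))
          + (q - 1) * (u a * ∑ b, v b * (A p b * A a b))
          + ((q - 1) ^ 2 * (q ^ 2 + 1) * v p + (q - 1) ^ 3 * v p) * (dl p a * u a) := by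
      intro a; rw [e2 a]; ring
    rw [Finset.sum_congr rfl fun a _ => s1 a]
    simp only [Finset.sum_add_distrib, ← Finset.mul_sum]
    rw [hu0, h.sum_A_zb hu, e3, sum_dl_mul, hZ', ← hB]
    ring
  have e5 := e1.symm.trans e4
  have hq := h.qq
  have hq1 := h.q1
  have e6 : (q ^ 2 + q) ^ 2 * Z = (q ^ 2 + q) ^ 2 * ((q - 1) * (u p * v p)) + q * (q ^ 2 + q) * B := by
    linear_combination e5
  have e7 : (q ^ 2 + q) ^ 2 * Z
      = (q ^ 2 + q) ^ 2 * ((q - 1) * (u p * v p) + B / (q + 1)) := by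
    rw [e6]; field_simp
  exact mul_left_cancel₀ (pow_ne_zero 2 hq) e7

theorem T0 (h : GQD q J A) {u v t : L → ℚ} (hu : ZB J u) (hv : ZB J v) (ht : ZB J t) :
    ∑ w, u w * v w * t w = 0 := by
  have e1 : ∑ p, t p * ∑ w, A w p * (u w * v w) = -(q ^ 2 + 1) * ∑ w, u w * v w * t w := by
    rw [Finset.sum_congr rfl fun p _ => Finset.mul_sum _ _ _, Finset.sum_comm, Finset.mul_sum]
    refine Finset.sum_congr rfl fun w _ => ?_
    have : ∑ p, t p * (A w p * (u w * v w)) = (u w * v w) * ∑ p, A w p * t p := by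
      rw [Finset.mul_sum]; exact Finset.sum_congr rfl fun a _ => by ring
    rw [this, h.sum_A_zb ht]; ring
  have e2 : ∑ p, t p * ∑ w, A w p * (u w * v w) = (q - 1) * ∑ w, u w * v w * t w := by
    have s1 : ∀ p, t p * ∑ w, A w p * (u w * v w)
        = (q - 1) * (u p * v p * t p) + ((∑ w, u w * v w) / (q + 1)) * t p := by
      intro p; rw [h.starstar hu hv]; ring
    rw [Finset.sum_congr rfl fun p _ => s1 p]
    simp only [Finset.sum_add_distrib, ← Finset.mul_sum]
    rw [h.sum_zb ht]; ring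
  have e3 := e1.symm.trans e2
  have hq := h.qq
  have e4 : (q ^ 2 + q) * ∑ w, u w * v w * t w = 0 := by linear_combination -e3
  rcases mul_eq_zero.mp e4 with e | e
  · exact absurd e hq
  · exact e

theorem chi_zb (h : GQD q J A) (H : HM q J hh) : ZB J (chi hh) := by
  intro p
  have : ∀ x, J p x * chi hh x = 2 * (J p x * hh x) - J p x := by intro x; unfold chi; ring
  rw [Finset.sum_congr rfl fun x _ => this x]
  simp only [Finset.sum_sub_distrib, ← Finset.mul_sum]
  rw [H.sumH, h.sumJL]; ring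

theorem chi_sq (H : HM q J hh) (x : L) : chi hh x * chi hh x = 1 := by
  unfold chi; rcases H.h01 x with e | e <;> rw [e] <;> norm_num

theorem G_comm (h : GQD q J A) (x y : L) : G q A hh x y = G q A hh y x := by
  unfold G; rw [dl_comm x y, h.Asymm x y]; ring

theorem G_zb (h : GQD q J A) (H : HM q J hh) (x : L) : ZB J (G q A hh x) := by
  intro p
  have e : ∀ y, J p y * G q A hh x y = (q - 1) * (dl x y * J p y) - J p y * A y x
      + 1 / (q + 1) * J p y - q / (q ^ 3 + 1) * chi hh x * (J p y * chi hh y) := by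
    intro y; unfold G; rw [h.Asymm x y]; ring
  rw [Finset.sum_congr rfl fun y _ => e y]
  simp only [Finset.sum_add_distrib, Finset.sum_sub_distrib, ← Finset.mul_sum]
  rw [sum_dl_mul, h.JA, h.sumJL, h.chi_zb H]
  have := h.q1
  field_simp
  ring

/-- the reproducing property. -/
theorem G_rep (h : GQD q J A) {u : L → ℚ} (hu : ZB J u)
    (hc : ∑ x, chi hh x * u x = 0) (x : L) :
    ∑ w, G q A hh x w * u w = (q ^ 2 + q) * u x := by
  have e : ∀ w, G q A hh x w * u w = (q - 1) * (dl x w * u w) - A x w * u w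
      + 1 / (q + 1) * u w - q / (q ^ 3 + 1) * chi hh x * (chi hh w * u w) := by
    intro y; unfold G; ring
  rw [Finset.sum_congr rfl fun y _ => e y]
  simp only [Finset.sum_add_distrib, Finset.sum_sub_distrib, ← Finset.mul_sum]
  rw [sum_dl_mul, h.sum_A_zb hu, h.sum_zb hu, hc]
  ring

theorem G_chi (h : GQD q J A) (H : HM q J hh) (x : L) :
    ∑ w, chi hh w * G q A hh x w = 0 := by
  have e : ∀ w, chi hh w * G q A hh x w = (q - 1) * (dl x w * chi hh w) - A x w * chi hh w
      + 1 / (q + 1) * chi hh w - q / (q ^ 3 + 1) * chi hh x * 1 := by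
    intro y; unfold G
    linear_combination (-q / (q ^ 3 + 1) * chi hh x) * chi_sq H y
  rw [Finset.sum_congr rfl fun y _ => e y]
  simp only [Finset.sum_add_distrib, Finset.sum_sub_distrib, ← Finset.mul_sum]
  rw [sum_dl_mul, h.sum_A_zb (h.chi_zb H), h.sum_zb (h.chi_zb H), h.card x]
  have := h.q3
  field_simp
  ring

/-- sums over `H` and off `H` of a product of two functions in `V`. -/
theorem sum_H (h : GQD q J A) (H : HM q J hh) {u v : L → ℚ} (hu : ZB J u) (hv : ZB J v) :
    ∑ w, hh w * (u w * v w) = (∑ w, u w * v w) / 2 := by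
  have e := h.T0 (h.chi_zb H) hu hv
  have e1 : ∀ w, chi hh w * u w * v w = 2 * (hh w * (u w * v w)) - u w * v w := by
    intro w; unfold chi; ring
  rw [Finset.sum_congr rfl fun w _ => e1 w] at e
  simp only [Finset.sum_sub_distrib, ← Finset.mul_sum] at e
  linarith

theorem sum_M (h : GQD q J A) (H : HM q J hh) {u v : L → ℚ} (hu : ZB J u) (hv : ZB J v) :
    ∑ w, (1 - hh w) * (u w * v w) = (∑ w, u w * v w) / 2 := by
  have e := h.sum_H H hu hv
  have e1 : ∀ w, (1 - hh w) * (u w * v w) = u w * v w - hh w * (u w * v w) := by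
    intro w; ring
  rw [Finset.sum_congr rfl fun w _ => e1 w]
  simp only [Finset.sum_sub_distrib]
  rw [e]; ring

theorem rep_H (h : GQD q J A) (H : HM q J hh) {u : L → ℚ} (hu : ZB J u)
    (hc : ∑ x, chi hh x * u x = 0) (x : L) :
    ∑ w, hh w * (G q A hh x w * u w) = (q ^ 2 + q) / 2 * u x := by
  rw [h.sum_H H (h.G_zb H x) hu, h.G_rep hu hc]; ring

theorem rep_M (h : GQD q J A) (H : HM q J hh) {u : L → ℚ} (hu : ZB J u)
    (hc : ∑ x, chi hh x * u x = 0) (x : L) :
    ∑ w, (1 - hh w) * (G q A hh x w * u w) = (q ^ 2 + q) / 2 * u x := by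
  rw [h.sum_M H (h.G_zb H x) hu, h.G_rep hu hc]; ring

/-- the function without the `chi` part. -/
theorem g_zb (h : GQD q J A) (x : L) :
    ZB J (fun y => (q - 1) * dl x y - A x y + 1 / (q + 1)) := by
  intro p
  have e : ∀ y, J p y * ((q - 1) * dl x y - A x y + 1 / (q + 1))
      = (q - 1) * (dl x y * J p y) - J p y * A y x + 1 / (q + 1) * J p y := by
    intro y; rw [h.Asymm x y]; ring
  rw [Finset.sum_congr rfl fun y _ => e y]
  simp only [Finset.sum_add_distrib, Finset.sum_sub_distrib, ← Finset.mul_sum]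
  rw [sum_dl_mul, h.JA, h.sumJL]
  have := h.q1
  field_simp
  ring

theorem sum_chi_AA (h : GQD q J A) (H : HM q J hh) (x y : L) :
    ∑ w, chi hh w * (A x w * A y w) = -(q - 1) ^ 2 * (dl x y * chi hh x)
      + (q - 1) * (A x y * (chi hh x + chi hh y)) - q * (chi hh x + chi hh y) := by
  have hc := h.chi_zb H
  have e1 := h.starstar hc (h.g_zb y) x
  have e2 : ∑ w, chi hh w * ((q - 1) * dl y w - A y w + 1 / (q + 1)) = (q ^ 2 + q) * chi hh y := by
    have s : ∀ w, chi hh w * ((q - 1) * dl y w - A y w + 1 / (q + 1))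
        = (q - 1) * (dl y w * chi hh w) - A y w * chi hh w + 1 / (q + 1) * chi hh w := by
      intro w; ring
    rw [Finset.sum_congr rfl fun w _ => s w]
    simp only [Finset.sum_add_distrib, Finset.sum_sub_distrib, ← Finset.mul_sum]
    rw [sum_dl_mul, h.sum_A_zb hc, h.sum_zb hc]; ring
  have e3 : ∑ w, A w x * (chi hh w * ((q - 1) * dl y w - A y w + 1 / (q + 1)))
      = (q - 1) * (A x y * chi hh y) - (∑ w, chi hh w * (A x w * A y w))
        + 1 / (q + 1) * (-(q ^ 2 + 1) * chi hh x) := by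
    have s : ∀ w, A w x * (chi hh w * ((q - 1) * dl y w - A y w + 1 / (q + 1)))
        = (q - 1) * (dl y w * (A w x * chi hh w)) - chi hh w * (A x w * A y w)
          + 1 / (q + 1) * (A x w * chi hh w) := by
      intro w; rw [h.Asymm w x]; ring
    rw [Finset.sum_congr rfl fun w _ => s w]
    simp only [Finset.sum_add_distrib, Finset.sum_sub_distrib, ← Finset.mul_sum]
    rw [sum_dl_mul y (fun w => A w x * chi hh w), h.sum_A_zb hc, h.Asymm y x]
  rw [e3, e2] at e1
  have hd : dl y x * chi hh x = dl x y * chi hh x := by rw [dl_comm]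
  have hq := h.q1
  have e4 : (q ^ 2 + q) * chi hh y / (q + 1) = q * chi hh y := by field_simp
  have e5 : 1 / (q + 1) * (-(q ^ 2 + 1) * chi hh x)
      = -q * chi hh x + (q - 1) * (chi hh x * (1 / (q + 1))) := by field_simp; ring
  rw [e4, e5, h.Asymm y x, dl_comm y x] at e1
  linear_combination -e1

/-- common neighbours inside `H`. -/
theorem H2 (h : GQD q J A) (H : HM q J hh) (x y : L) :
    2 * ∑ w, hh w * (A x w * A y w) = (q ^ 2 + 1) + (q - 1) * (q ^ 2 + 1) * dl x y
      - (q ^ 2 - q + 2) * A x y - (q - 1) ^ 2 * (dl x y * chi hh x)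
      + (q - 1) * (A x y * (chi hh x + chi hh y)) - q * (chi hh x + chi hh y) := by
  have e1 := h.sum_chi_AA H x y
  have e2 : ∑ w, A x w * A y w = (q ^ 2 + 1) + (q - 1) * (q ^ 2 + 1) * dl x y
      - (q ^ 2 - q + 2) * A x y := by
    rw [← h.A2 x y]; exact Finset.sum_congr rfl fun w _ => by rw [h.Asymm y w]
  have s : ∀ w, chi hh w * (A x w * A y w) = 2 * (hh w * (A x w * A y w)) - A x w * A y w := by
    intro w; unfold chi; ring
  rw [Finset.sum_congr rfl fun w _ => s w] at e1
  simp only [Finset.sum_sub_distrib, ← Finset.mul_sum] at e1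
  rw [e2] at e1
  linear_combination e1

/-- degree into `H`. -/
theorem degH (h : GQD q J A) (H : HM q J hh) (x : L) :
    ∑ w, A x w * hh w = (q + 1) / 2 * (q ^ 2 + 1) - (q ^ 2 + 1) * hh x := by
  rw [h.sum_A_mul x hh, Finset.sum_congr rfl fun p _ => by rw [H.sumH p], ← Finset.sum_mul,
    h.sumJP]
  ring

/-- size of `H`. -/
theorem cardH (h : GQD q J A) (H : HM q J hh) (x : L) :
    ∑ w, hh w = (q + 1) / 2 * (q ^ 3 + 1) := by
  have e := h.sum_zb (h.chi_zb H)
  have s : ∀ w, chi hh w = 2 * hh w - 1 := fun w => rfl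
  rw [Finset.sum_congr rfl fun w _ => s w] at e
  simp only [Finset.sum_sub_distrib, ← Finset.mul_sum] at e
  rw [h.card x] at e
  linarith

end GQD

end Pool.Agent.helper56.Hemi
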